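import Pool.Agent.MP_794e6e_ex.Avg
import Pool.Agent.R19.Cut

/-! Room R19. The volume bound: the number of sites near the part of a walk which lies in a box
around its end, in terms of the number of sites of the walk in the box. -/

namespace Pool.Agent.R19

open Finset Filter
open scoped Classical
open Pool.Agent.MP_794e6e_pr Pool.Agent.MP_794e6e_ex

theorem nrm_lt {v : Pt} {t : ℕ} (ht : 1 ≤ t) : nrm v < t ↔ ∀ k, |v k| < (t : ℤ) := by
  unfold nrm
  rw [Finset.sup_lt_iff (by simpa using (by omega : 0 < t))]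
  constructor
  · intro h k
    have := h k (mem_univ k)
    rw [Int.abs_eq_natAbs]
    exact_mod_cast this
  · intro h k _
    have := h k
    rw [Int.abs_eq_natAbs] at this
    exact_mod_cast this

theorem nrm_zero : nrm 0 = 0 := by
  have := (nrm_le (x := 0) (r := 0)).2 (fun k => by simp)
  omega

theorem nrm_sub_comm (u v : Pt) : nrm (u - v) = nrm (v - u) := by
  rw [← nrm_neg, neg_sub]

/-- a walk passes through all distances -/
theorem exists_level (w : Word) {s : ℕ} (hs : s ≤ nrm (D w)) :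
    ∃ a b : Word, w = a ++ b ∧ nrm (D a) = s := by
  induction w using List.reverseRecOn with
  | nil =>
    rw [D_nil, nrm_zero] at hs
    exact ⟨[], [], rfl, by rw [D_nil, nrm_zero]; omega⟩
  | append_singleton w x ih =>
    by_cases h : s ≤ nrm (D w)
    · obtain ⟨a, b, h1, h2⟩ := ih h
      exact ⟨a, b ++ [x], by rw [h1, List.append_assoc], h2⟩
    · refine ⟨w ++ [x], [], by simp, ?_⟩
      have h3 : nrm (D (w ++ [x])) ≤ nrm (D w) + 1 := by
        rw [D_append, D_singleton]
        exact (nrm_add_le _ _).trans (Nat.add_le_add_left (nrm_vec_le x) _)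
      omega

/-- the points of `A`, seen from the end, near `y` -/
noncomputable def bal (A : Word) (y : Pt) (t : ℕ) : Finset Pt :=
  (bk A).filter fun p => nrm (p - y) < t

/-- a ball around a point of the walk which does not contain the end contains many points -/
theorem le_card_bal {A : Word} {y : Pt} (hy : y ∈ bk A) {t : ℕ} (ht : t ≤ nrm y) :
    t ≤ (bal A y t).card := by
  unfold bk at hy
  rw [mem_tr] at hy
  obtain ⟨a, b, hab, hD⟩ := mem_pts.1 hy
  have hDb : D b = - y := by
    have h1 : D A = D a + D b := by rw [hab, D_append]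
    rw [hD] at h1
    have h2 : y + D b = 0 := by
      have h3 : D A + (y + D b) = D A := by
        calc D A + (y + D b) = (y - -D A) + D b := by abel
          _ = D A := h1.symm
      simpa using h3
    exact (neg_eq_of_add_eq_zero_right h2).symm
  have hsub : range t ⊆ (bal A y t).image fun p => nrm (p - y) := by
    intro s hs
    rw [mem_range] at hs
    have h1 : s ≤ nrm (D b) := by
      rw [hDb, nrm_neg]
      omega
    obtain ⟨c, e, hce, hc⟩ := exists_level b h1
    refine mem_image.2 ⟨y + D c, ?_, by simp [hc]⟩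
    unfold bal
    rw [mem_filter]
    refine ⟨?_, by simpa [hc] using hs⟩
    unfold bk
    rw [mem_tr]
    refine mem_pts.2 ⟨a ++ c, e, by rw [hab, hce, List.append_assoc], ?_⟩
    rw [D_append, hD]
    abel
  have h2 := (card_le_card hsub).trans card_image_le
  rwa [card_range] at h2

/-- a maximal separated subset -/
theorem exists_sep (X : Finset Pt) (t : ℕ) (ht : 1 ≤ t) :
    ∃ Y ⊆ X, (∀ p ∈ Y, ∀ q ∈ Y, p ≠ q → t ≤ nrm (p - q)) ∧
      ∀ p ∈ X, ∃ q ∈ Y, nrm (q - p) < t := by
  induction X using Finset.induction_on with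
  | empty => exact ⟨∅, by simp, by simp, by simp⟩
  | insert a X _ ih =>
    obtain ⟨Y, h1, h2, h3⟩ := ih
    by_cases h : ∃ q ∈ Y, nrm (q - a) < t
    · refine ⟨Y, h1.trans (subset_insert _ _), h2, fun p hp => ?_⟩
      rcases mem_insert.1 hp with rfl | hp
      · exact h
      · exact h3 p hp
    · push Not at h
      refine ⟨insert a Y, insert_subset_insert _ h1, fun p hp q hq hpq => ?_, fun p hp => ?_⟩
      · rcases mem_insert.1 hp with hp | hp
        · rcases mem_insert.1 hq with hq | hq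
          · exact absurd (hp.trans hq.symm) hpq
          · rw [hp, nrm_sub_comm]
            exact h q hq
        · rcases mem_insert.1 hq with hq | hq
          · rw [hq]
            exact h p hp
          · exact h2 p hp q hq hpq
      · rcases mem_insert.1 hp with rfl | hp
        · exact ⟨p, mem_insert_self _ _, by rw [sub_self, nrm_zero]; omega⟩
        · obtain ⟨q, hq, hq'⟩ := h3 p hp
          exact ⟨q, mem_insert_of_mem hq, hq'⟩

/-- disjoint balls -/
theorem sep_count {A : Word} {Y S : Finset Pt} {t : ℕ} (hY : Y ⊆ bk A)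
    (hsep : ∀ p ∈ Y, ∀ q ∈ Y, p ≠ q → 2 * t ≤ nrm (p - q))
    (hS : ∀ y ∈ Y, bal A y t ⊆ S) : Y.card * t ≤ S.card + t := by
  set Y1 := Y.filter fun y => t ≤ nrm y with hY1
  set Y0 := Y.filter fun y => ¬ t ≤ nrm y with hY0
  have h0 : Y0.card ≤ 1 := by
    rw [card_le_one]
    intro p hp q hq
    by_contra hpq
    rw [hY0, mem_filter] at hp hq
    have h1 := hsep p hp.1 q hq.1 hpq
    have h2 : nrm (p - q) ≤ nrm p + nrm q := by
      rw [sub_eq_add_neg]
      refine (nrm_add_le _ _).trans ?_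
      rw [nrm_neg]
    omega
  have hc : Y.card = Y1.card + Y0.card := (card_filter_add_card_filter_not _).symm
  have hdis : ∀ p ∈ Y1, ∀ q ∈ Y1, p ≠ q → Disjoint (bal A p t) (bal A q t) := by
    intro p hp q hq hpq
    rw [hY1, mem_filter] at hp hq
    have h1 := hsep p hp.1 q hq.1 hpq
    rw [Finset.disjoint_left]
    intro z hz hz'
    unfold bal at hz hz'
    rw [mem_filter] at hz hz'
    have h2 : nrm (p - q) ≤ nrm (z - q) + nrm (z - p) := by
      have e : p - q = (z - q) + -(z - p) := by abel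
      rw [e]
      refine (nrm_add_le _ _).trans ?_
      rw [nrm_neg]
    omega
  have h1 : Y1.card * t ≤ S.card := by
    calc Y1.card * t ≤ ∑ y ∈ Y1, (bal A y t).card := by
          rw [← smul_eq_mul]
          refine card_nsmul_le_sum _ _ _ fun y hy => ?_
          rw [hY1, mem_filter] at hy
          exact le_card_bal (hY hy.1) hy.2
      _ = (Y1.biUnion fun y => bal A y t).card := (card_biUnion hdis).symm
      _ ≤ S.card := card_le_card (biUnion_subset.2 fun y hy => hS y (mem_filter.1 hy).1)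
  calc Y.card * t = Y1.card * t + Y0.card * t := by rw [hc, add_mul]
    _ ≤ S.card + 1 * t := Nat.add_le_add h1 (Nat.mul_le_mul_right _ h0)
    _ = _ := by rw [one_mul]

/-- the part of the walk, seen from its end, in the box of radius `R` -/
noncomputable def loc (A : Word) (R : ℕ) : Finset Pt := (bk A).filter fun p => nrm p < R

/-- the number of sites of the walk in a box around its end -/
theorem card_loc (A : Word) {R : ℕ} (hR : 1 ≤ R) : (loc A R).card = nn A (D A) R := by
  unfold nn loc bk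
  have e : (tr (- D A) (pts A)).filter (fun p => nrm p < R) =
      ((pts A).filter fun p => ∀ k, |p k - D A k| < (R : ℤ)).image fun p => - D A + p := by
    ext p
    rw [mem_filter, mem_tr, mem_image]
    constructor
    · rintro ⟨h1, h2⟩
      refine ⟨p - - D A, mem_filter.2 ⟨h1, fun k => ?_⟩, by abel⟩
      have := (nrm_lt hR).1 h2 k
      simpa using this
    · rintro ⟨q, hq, rfl⟩
      rw [mem_filter] at hq
      refine ⟨by simpa using hq.1, (nrm_lt hR).2 fun k => ?_⟩
      have := hq.2 k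
      rw [Pi.add_apply, Pi.neg_apply, neg_add_eq_sub]
      exact this
  rw [e, card_image_of_injective _ (fun _ _ h => add_left_cancel h)]

/-- **Volume bound.** -/
theorem vol (A : Word) {r : ℕ} (hr : 1 ≤ r) (R : ℕ) :
    (nb (loc A R) r).card ≤ 343 * r ^ 2 * ((loc A (R + r)).card + r) := by
  obtain ⟨Y, h1, h2, h3⟩ := exists_sep (loc A R) (2 * r) (by omega)
  have hY : Y ⊆ bk A := fun y hy => (mem_filter.1 (h1 hy)).1
  have h4 : Y.card * r ≤ (loc A (R + r)).card + r := by
    refine sep_count hY h2 fun y hy p hp => ?_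
    have h5 := (mem_filter.1 (h1 hy)).2
    unfold bal at hp
    rw [mem_filter] at hp
    refine mem_filter.2 ⟨hp.1, ?_⟩
    have h6 : nrm p ≤ nrm (p - y) + nrm y := by
      have := nrm_add_le (p - y) y
      rwa [sub_add_cancel] at this
    omega
  have h5 := card_nb_le (X := loc A R) (Y := Y) (r := 2 * r) (fun p hp => by
    obtain ⟨q, hq, hq'⟩ := h3 p hp
    exact ⟨q, hq, fun k => by
      have := (nrm_lt (by omega : 1 ≤ 2 * r)).1 hq' k
      rwa [Pi.sub_apply] at this⟩) r
  refine h5.trans ?_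
  have h6 : (2 * (r + 2 * r) + 1) ^ 3 ≤ (7 * r) ^ 3 := Nat.pow_le_pow_left (by omega) 3
  calc Y.card * (2 * (r + 2 * r) + 1) ^ 3 ≤ Y.card * (7 * r) ^ 3 := Nat.mul_le_mul_left _ h6
    _ = 343 * r ^ 2 * (Y.card * r) := by ring
    _ ≤ _ := Nat.mul_le_mul_left _ h4

theorem nrm_cor (ω : ℕ → ℕ) (j : ℕ) : nrm (cor ω j) ≤ ∑ i ∈ range j, ω i := by
  unfold cor
  induction j with
  | zero => simp [nrm_zero]
  | succ j ih =>
    rw [sum_range_succ, sum_range_succ]
    refine (nrm_add_le _ _).trans (Nat.add_le_add ih ?_)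
    rw [nrm_le]
    intro k
    unfold ax
    by_cases hk : k = dr j
    · subst hk
      rw [Pi.single_eq_same]
      simp
    · rw [Pi.single_eq_of_ne hk]
      simp

theorem nrm_ax (c : Fin 3) (s : ℕ) : nrm (ax c (s : ℤ)) ≤ s := by
  rw [nrm_le]
  intro k
  unfold ax
  by_cases hk : k = c
  · subst hk
    rw [Pi.single_eq_same]
    simp
  · rw [Pi.single_eq_of_ne hk]
    simp

/-- only the part of the walk in a box around its end matters for the segment `j` -/
theorem cnt_loc {K : ℕ} {R : ℕ → ℕ} {ω : ℕ → ℕ} (hω : ω ∈ Om K R) {j : ℕ} (hj : j < K) {B : ℕ}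
    (hB : ∑ i ∈ range (j + 1), 2 * R i ≤ B) (A : Word) {ρ : ℕ} (hρ : 1 ≤ ρ) :
    cnt (bk A) ω j ρ ≤ cnt (loc A (B + ρ)) ω j ρ := by
  unfold cnt
  refine card_le_card fun s hs => ?_
  rw [mem_filter, mem_range] at hs ⊢
  obtain ⟨h1, p, hp, h2⟩ := hs
  refine ⟨h1, p, mem_filter.2 ⟨hp, ?_⟩, h2⟩
  have h3 : nrm (p - (cor ω j + ax (dr j) (s : ℤ))) < ρ := (nrm_lt hρ).2 fun k => h2 k
  have h4 : nrm (cor ω j + ax (dr j) (s : ℤ)) ≤ B := by
    refine (nrm_add_le _ _).trans ?_
    have h5 := nrm_cor ω j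
    have h6 := nrm_ax (dr j) s
    have h7 : ∑ i ∈ range (j + 1), ω i ≤ ∑ i ∈ range (j + 1), 2 * R i := by
      refine Finset.sum_le_sum fun i hi => ?_
      have := (mem_Om hω (by rw [mem_range] at hi; omega : i < K)).2
      omega
    rw [sum_range_succ] at h7
    omega
  have h5 : nrm p ≤ nrm (p - (cor ω j + ax (dr j) (s : ℤ))) + nrm (cor ω j + ax (dr j) (s : ℤ)) := by
    have := nrm_add_le (p - (cor ω j + ax (dr j) (s : ℤ))) (cor ω j + ax (dr j) (s : ℤ))
    rwa [sub_add_cancel] at this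
  omega

/-- **The mean number of positions of the segment `j` near the walk**, in terms of the number of
sites of the walk in a box. -/
theorem avg_vol {K : ℕ} {R : ℕ → ℕ} (hR : ∀ j, 1 ≤ R j) {j : ℕ} (h3 : 3 ≤ j) (hj : j < K)
    {B : ℕ} (hB : ∑ i ∈ range (j + 1), 2 * R i ≤ B) (A : Word) {ρ : ℕ} (hρ : 1 ≤ ρ) :
    (∑ ω ∈ Om K R, (cnt (bk A) ω j ρ : ℝ)) * ((R (j - 1) : ℝ) * (R (j - 2) * R (j - 3)))
      ≤ (Om K R).card * (2 * R j * (343 * (ρ : ℝ) ^ 2 * ((loc A (B + 2 * ρ)).card + ρ))) := by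
  have h1 : ∑ ω ∈ Om K R, (cnt (bk A) ω j ρ : ℝ) ≤
      ∑ ω ∈ Om K R, (cnt (loc A (B + ρ)) ω j ρ : ℝ) :=
    Finset.sum_le_sum fun ω hω => by exact_mod_cast cnt_loc hω hj hB A hρ
  have h2 := avg_cnt hR h3 hj (loc A (B + ρ)) ρ
  have h4 := vol A hρ (B + ρ)
  have e : B + ρ + ρ = B + 2 * ρ := by ring
  rw [e] at h4
  have h5 : ((nb (loc A (B + ρ)) ρ).card : ℝ) ≤
      343 * (ρ : ℝ) ^ 2 * ((loc A (B + 2 * ρ)).card + ρ) := by exact_mod_cast h4
  refine (mul_le_mul_of_nonneg_right h1 (by positivity)).trans (h2.trans ?_)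
  refine mul_le_mul_of_nonneg_left ?_ (Nat.cast_nonneg _)
  exact mul_le_mul_of_nonneg_left h5 (by positivity)

/-- the same with the counting function of the cut -/
theorem avg_vol_nn {K : ℕ} {R : ℕ → ℕ} (hR : ∀ j, 1 ≤ R j) {j : ℕ} (h3 : 3 ≤ j) (hj : j < K)
    {B : ℕ} (A : Word) {ρ : ℕ} (hρ : 1 ≤ ρ) (hB : ∑ i ∈ range (j + 1), 2 * R i + 2 * ρ ≤ B) :
    (∑ ω ∈ Om K R, (cnt (bk A) ω j ρ : ℝ)) * ((R (j - 1) : ℝ) * (R (j - 2) * R (j - 3)))
      ≤ (Om K R).card * (2 * R j * (343 * (ρ : ℝ) ^ 2 * (nn A (D A) B + ρ))) := by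
  refine (avg_vol hR h3 hj le_rfl A hρ).trans ?_
  have h1 : (loc A (∑ i ∈ range (j + 1), 2 * R i + 2 * ρ)).card ≤ nn A (D A) B := by
    rw [← card_loc A (by omega)]
    refine card_le_card fun p hp => ?_
    unfold loc at hp ⊢
    rw [mem_filter] at hp ⊢
    exact ⟨hp.1, by omega⟩
  have h2 : ((loc A (∑ i ∈ range (j + 1), 2 * R i + 2 * ρ)).card : ℝ) ≤ nn A (D A) B := by
    exact_mod_cast h1
  refine mul_le_mul_of_nonneg_left ?_ (Nat.cast_nonneg _)
  refine mul_le_mul_of_nonneg_left ?_ (by positivity)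
  refine mul_le_mul_of_nonneg_left ?_ (by positivity)
  linarith

end Pool.Agent.R19
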