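import Pool.Agent.MP_794e6e_ex.Num
import Pool.Agent.R19.Vol

/-! Room R19. Averages over the staircases with `R j = m ^ (g + j / 3)`, with the volume bound. -/

namespace Pool.Agent.R19
set_option maxHeartbeats 400000

open Finset Filter
open scoped Classical
open Pool.Agent.MP_794e6e_pr Pool.Agent.MP_794e6e_ex

/-- the volume bound near the staircase of scale `m ^ y` at distance `ρ` -/
noncomputable def vv (A : Word) (m y ρ : ℕ) : ℝ :=
  343 * (ρ : ℝ) ^ 2 * (nn A (D A) (m ^ (y + 1)) + ρ)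

theorem vv_nonneg (A : Word) (m y ρ : ℕ) : 0 ≤ vv A m y ρ := by
  unfold vv
  positivity

/-- the corners of the segments up to scale `m ^ y` lie in the box of radius `12 m ^ y` -/
theorem sum_R_le {m g j : ℕ} (hm : 2 ≤ m) :
    ∑ i ∈ range (j + 1), 2 * m ^ (g + i / 3) ≤ 12 * m ^ (g + j / 3) := by
  induction j using Nat.strong_induction_on with
  | _ j ih =>
    by_cases h : j < 3
    · have e : ∑ i ∈ range (j + 1), 2 * m ^ (g + i / 3) ≤ ∑ i ∈ range (j + 1), 2 * m ^ g := by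
        refine Finset.sum_le_sum fun i hi => ?_
        rw [mem_range] at hi
        have : i / 3 = 0 := by omega
        rw [this, Nat.add_zero]
      refine e.trans ?_
      rw [sum_const, card_range, smul_eq_mul]
      have : j / 3 = 0 := by omega
      rw [this, Nat.add_zero]
      calc (j + 1) * (2 * m ^ g) ≤ 6 * (2 * m ^ g) := Nat.mul_le_mul_right _ (by omega)
        _ = 12 * m ^ g := by ring
    · obtain ⟨q, rfl⟩ := Nat.exists_eq_add_of_le' (not_lt.1 h)
      have h1 := ih q (by omega)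
      have e1 : (q + 3) / 3 = q / 3 + 1 := by omega
      have h2 : m ^ (g + q / 3 + 1) = m ^ (g + q / 3) * m := pow_succ _ _
      have h3 : m ^ (g + q / 3) * 2 ≤ m ^ (g + q / 3 + 1) := by
        rw [h2]
        exact Nat.mul_le_mul_left _ hm
      have h4 : ∑ i ∈ range (q + 3 + 1), 2 * m ^ (g + i / 3) =
          ∑ i ∈ range (q + 1), 2 * m ^ (g + i / 3) + 2 * m ^ (g + (q + 1) / 3) +
            2 * m ^ (g + (q + 2) / 3) + 2 * m ^ (g + (q + 3) / 3) := by
        rw [sum_range_succ, sum_range_succ, sum_range_succ]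
      rw [h4, e1]
      have h5 : m ^ (g + (q + 1) / 3) ≤ m ^ (g + q / 3 + 1) :=
        Nat.pow_le_pow_right (by omega) (by omega)
      have h6 : m ^ (g + (q + 2) / 3) ≤ m ^ (g + q / 3 + 1) :=
        Nat.pow_le_pow_right (by omega) (by omega)
      have e2 : g + (q / 3 + 1) = g + q / 3 + 1 := by omega
      rw [e2]
      omega

/-- the mean number of positions of the segment `j` near the walk -/
theorem avg_cnt9 {m g K j : ℕ} (hm : 412 ≤ m) (h3 : 3 ≤ j) (hj : j < K) (A : Word) {ρ : ℕ}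
    (hρ : 1 ≤ ρ) (hρ' : ρ ≤ 200 * m ^ (g + j / 3)) :
    ∑ ω ∈ Om K (fun j => m ^ (g + j / 3)), (cnt (bk A) ω j ρ : ℝ) ≤
      ((Om K (fun j => m ^ (g + j / 3))).card : ℝ) * cc m (g + j / 3) (vv A m (g + j / 3) ρ) := by
  have hR : ∀ j : ℕ, 1 ≤ (fun j => m ^ (g + j / 3)) j := fun j => Nat.one_le_pow _ _ (by omega)
  have hm1 : (1 : ℝ) ≤ m := by exact_mod_cast (by omega : 1 ≤ m)
  have hm0 : (0 : ℝ) < m := by linarith
  unfold cc
  rw [mul_min_of_nonneg _ _ (Nat.cast_nonneg _)]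
  refine le_min ?_ ?_
  · have h1 : ∀ ω ∈ Om K (fun j => m ^ (g + j / 3)),
        (cnt (bk A) ω j ρ : ℝ) ≤ 2 * (m : ℝ) ^ (g + j / 3) := by
      intro ω hω
      have h2 := (mem_Om hω hj).2
      have h4 : cnt (bk A) ω j ρ ≤ 2 * m ^ (g + j / 3) := (cnt_le (bk A) ω j ρ).trans h2.le
      exact_mod_cast h4
    have h5 := sum_le_sum h1
    rw [sum_const, nsmul_eq_mul] at h5
    exact h5
  · have hB : ∑ i ∈ range (j + 1), 2 * (fun j => m ^ (g + j / 3)) i + 2 * ρ ≤
        m ^ (g + j / 3 + 1) := by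
      have e1 := sum_R_le (m := m) (g := g) (j := j) (by omega)
      have e2 : m ^ (g + j / 3 + 1) = m ^ (g + j / 3) * m := pow_succ _ _
      have e3 : m ^ (g + j / 3) * 412 ≤ m ^ (g + j / 3) * m := Nat.mul_le_mul_left _ hm
      simp only
      omega
    have h1 := avg_vol_nn hR h3 hj A hρ hB
    have h2 : (m : ℝ) ^ (3 * (g + j / 3 - 1)) ≤ (((fun j => m ^ (g + j / 3)) (j - 1) : ℕ) : ℝ) *
        ((((fun j => m ^ (g + j / 3)) (j - 2) : ℕ) : ℝ) *
          (((fun j => m ^ (g + j / 3)) (j - 3) : ℕ) : ℝ)) := by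
      push_cast
      rw [← pow_add, ← pow_add]
      exact pow_le_pow_right₀ hm1 (by omega)
    have h4 : (0 : ℝ) < (m : ℝ) ^ (3 * (g + j / 3 - 1)) := by positivity
    have h5 : (0 : ℝ) ≤ ∑ ω ∈ Om K (fun j => m ^ (g + j / 3)), (cnt (bk A) ω j ρ : ℝ) :=
      sum_nonneg fun _ _ => Nat.cast_nonneg _
    have h6 := (mul_le_mul_of_nonneg_left h2 h5).trans h1
    rw [← mul_div_assoc, le_div_iff₀ h4]
    refine h6.trans (le_of_eq ?_)
    unfold vv
    push_cast
    ring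

/-- The mean cost of the segment `j ≥ 3`, with top scale `I`. -/
theorem avg_sc9 {m g K j I : ℕ} (hm : 412 ≤ m) (h3 : 3 ≤ j) (hj : j < K) (hI : I ≤ g + j / 3)
    (A : Word) {a : ℕ → ℝ} (ha : ∀ i, 0 ≤ a i) : ∑ ω ∈ Om K (fun j => m ^ (g + j / 3)),
      sc (obs (bk A) ω j) (ω j) m I a ≤ ((Om K (fun j => m ^ (g + j / 3))).card : ℝ) *
        (2 * (m : ℝ) ^ (g + j / 3) * a I + ∑ i ∈ range I, a i * (400 * (m : ℝ) ^ (i + 1) +
          cc m (g + j / 3) (vv A m (g + j / 3) (200 * m ^ (i + 1))))) := by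
  have hm1 : (1 : ℝ) ≤ m := by exact_mod_cast (by omega : 1 ≤ m)
  have hm0 : (0 : ℝ) < m := by linarith
  have h1 : ∀ ω ∈ Om K (fun j => m ^ (g + j / 3)),
      sc (obs (bk A) ω j) (ω j) m I a ≤ 2 * (m : ℝ) ^ (g + j / 3) * a I + ∑ i ∈ range I,
      a i * (400 * (m : ℝ) ^ (i + 1) + cnt (bk A) ω j (200 * m ^ (i + 1))) := by
    intro ω hω
    refine (sc_le ha).trans (add_le_add_left ?_ _)
    have h2 := (mem_Om hω hj).2.le
    have h6 : (ω j : ℝ) ≤ 2 * (m : ℝ) ^ (g + j / 3) := by exact_mod_cast h2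
    exact mul_le_mul_of_nonneg_right h6 (ha I)
  refine (sum_le_sum h1).trans ?_
  rw [sum_add_distrib, sum_const, nsmul_eq_mul, sum_comm, mul_add]
  refine add_le_add le_rfl ?_
  rw [mul_sum]
  refine sum_le_sum fun i hi => ?_
  rw [mem_range] at hi
  rw [← mul_sum, sum_add_distrib, sum_const, nsmul_eq_mul]
  have h7 := avg_cnt9 (g := g) (K := K) hm h3 hj A (ρ := 200 * m ^ (i + 1))
    (by have := Nat.one_le_pow (i + 1) m (by omega); omega)
    (Nat.mul_le_mul_left _ (Nat.pow_le_pow_right (by omega) (by omega)))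
  calc a i * (((Om K (fun j => m ^ (g + j / 3))).card : ℝ) * (400 * (m : ℝ) ^ (i + 1)) +
        ∑ ω ∈ Om K (fun j => m ^ (g + j / 3)), (cnt (bk A) ω j (200 * m ^ (i + 1)) : ℝ))
      ≤ a i * (((Om K (fun j => m ^ (g + j / 3))).card : ℝ) * (400 * (m : ℝ) ^ (i + 1)) +
        ((Om K (fun j => m ^ (g + j / 3))).card : ℝ) * cc m (g + j / 3)
          (vv A m (g + j / 3) (200 * m ^ (i + 1)))) :=
      mul_le_mul_of_nonneg_left (by linarith) (ha i)
    _ = _ := by ring

end Pool.Agent.R19
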