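import Pool.Agent.MP_794e6e_ex.Blocks

/-!
# R19: from confined bridges to the blocks of the library; the scales of the bad case
-/

set_option autoImplicit false

namespace Pool.Agent.R19

open Finset Filter
open scoped Classical
open Pool.Agent.MP_794e6e_pr Pool.Agent.MP_794e6e_ex

-- BEGIN blk
/-- a class of confined bridges gives a block -/
theorem blk_of {x : ℝ} (hx : 0 < x) (N : ℕ) {r n : ℕ} {E : ℝ}
    (hE : Real.exp (-E) ≤ ∑ w ∈ (wle n).filter (fun w => Br w ∧ (r : ℤ) ≤ D w 0 ∧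
      D w 0 ≤ 2 * r ∧ ∀ p ∈ pts w, ∀ k, |p k| ≤ 2 * (r : ℤ)), x ^ w.length) :
    ∃ h B, Blk x N r h (2 * n)
      (2 * (E + 3 * Real.log (2 * (n : ℝ) + 1)) + Real.log ((N : ℝ) + 1)) B := by
  set S := (wle n).filter (fun w => Br w ∧ (r : ℤ) ≤ D w 0 ∧ D w 0 ≤ 2 * r ∧
        ∀ p ∈ pts w, ∀ k, |p k| ≤ 2 * (r : ℤ)) with hS
  have hSm : ∀ w ∈ S, w.length ≤ n ∧ Br w ∧ (r : ℤ) ≤ D w 0 ∧ D w 0 ≤ 2 * r ∧
        ∀ p ∈ pts w, ∀ k, |p k| ≤ 2 * (r : ℤ) := by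
    intro w hw
    rw [hS, mem_filter, mem_wle] at hw
    exact hw
  obtain ⟨v, F, hFS, hFv, hF⟩ := pigeon (fun w hw => (hSm w hw).1) hE
  have hne : F.Nonempty := by
    by_contra h
    rw [not_nonempty_iff_eq_empty] at h
    rw [h, sum_empty] at hF
    exact absurd hF (not_le.2 (Real.exp_pos _))
  obtain ⟨w0, hw0⟩ := hne
  obtain ⟨_, _, hv1, hv2, _⟩ := hSm w0 (hFS hw0)
  rw [hFv w0 hw0] at hv1 hv2
  obtain ⟨B, hB, hBd⟩ := straighten hx N (F := F) (E := E + 3 * Real.log (2 * (n : ℝ) + 1))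
    (v := v) (n := n) (r := 2 * r) (by
      intro w hw
      obtain ⟨q1, q2, _, _, q5⟩ := hSm w (hFS hw)
      refine ⟨q2, hFv w hw, q1, fun p hp k => ?_⟩
      have := q5 p hp k
      push_cast
      exact this) hF
  have hv0 : ((2 * (v 0).toNat : ℕ) : ℤ) = 2 * v 0 := by
    have : (0 : ℤ) ≤ v 0 := by omega
    push_cast
    rw [Int.toNat_of_nonneg this]
  refine ⟨2 * (v 0).toNat, B, ?_, ?_, ?_, ?_, ?_, ?_, ?_⟩
  · exact fun i => (hB i).1
  · intro i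
    rw [(hB i).2.1, hv0]
  · exact fun i => (hB i).2.2.1
  · intro i p hp k
    have h1 := (hB i).2.2.2 p hp k
    push_cast at h1
    have : (0 : ℤ) ≤ r := Int.natCast_nonneg r
    linarith
  · exact hBd
  · have : (r : ℤ) ≤ v 0 := hv1
    omega
  · have : v 0 ≤ 2 * (r : ℤ) := hv2
    omega

/-- the scales of the bad case: for every `i ≤ g - 1` the bridges of length at most
`m ^ (i + (d - 2 g + 2))` and height larger than `m ^ i` have mass at least one -/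
theorem bad_scale {μ : ℝ} (hμ : 1 ≤ μ) (hb : ∀ n, ((brs n).card : ℝ) ≤ μ ^ n) {d g m i : ℕ}
    (hgd : 2 * g ≤ d) (hm : 3 ≤ m) (hbad : Bad μ d g m) (hi : i + 1 ≤ g) :
    1 ≤ ∑ w ∈ (wle (m ^ (i + (d - 2 * g + 2)))).filter
      (fun w => Br w ∧ ((m ^ i : ℕ) : ℤ) < D w 0), μ⁻¹ ^ w.length := by
  have h := bl5_wh hμ hb hgd hm hbad (i := i + (d - 2 * g + 2)) (by omega) (by omega)
  rw [Nat.add_sub_cancel] at h
  exact h
-- END blk

end Pool.Agent.R19
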