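import Pool.Agent.R19.Strand

/-! Two of the three cases for the triples of legs, in abstract form: the extension `E` of the
third leg meets the first leg (case (a)) or the second leg (case (b)).

Pieces: a type `P` with weights, displacements `D` and point sets `pts`; the pieces of the leg
`b`, read from the bottom, have displacements `D'` and point sets `pts'`. -/

set_option linter.unusedSectionVars false
set_option linter.style.longLine false
set_option linter.unusedVariables false

namespace Pool.Agent.R19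

open Finset
open Classical

section Agr

variable {P : Type*} [Inhabited P] {V : Type*} [AddCommGroup V]

/-- the strand of `K` pieces which goes up from `0` contains `x` -/
def Up (D : P → V) (pts : P → Set V) (C : ℕ → P) (K : ℕ) (x : V) : Prop :=
  ∃ i < K, x - SS D C i ∈ pts (C i)

variable {F : Finset P} {w : P → ℝ} {D : P → V} {ht : V →+ ℤ} {pts : P → Set V} {Γ : Set V}

theorem SS_congr {A A' : ℕ → P} {n m : ℕ} (h : ∀ i < n, A i = A' i) (hm : m ≤ n) :
    SS D A m = SS D A' m := by
  unfold SS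
  refine Finset.sum_congr rfl ?_
  intro i hi
  rw [Finset.mem_range] at hi
  rw [h i (by omega)]

theorem Dn_congr {v : V} {A A' : ℕ → P} {n : ℕ} (h : ∀ i < n, A i = A' i) {x : V} :
    Dn D pts v A n x ↔ Dn D pts v A' n x := by
  unfold Dn
  refine exists_congr ?_
  intro i
  refine and_congr_right ?_
  intro hi
  rw [SS_congr h (by omega), h i hi]

theorem Up_congr {A A' : ℕ → P} {n : ℕ} (h : ∀ i < n, A i = A' i) {x : V} :
    Up D pts A n x ↔ Up D pts A' n x := by
  unfold Up
  refine exists_congr ?_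
  intro i
  refine and_congr_right ?_
  intro hi
  rw [SS_congr h (by omega), h i hi]

theorem Low_congr {v : V} {A A' : ℕ → P} {g n : ℕ} (h : ∀ i < n, A i = A' i) :
    Low ht D pts Γ g n v A ↔ Low ht D pts Γ g n v A' := by
  unfold Low
  simp only [Dn_congr h]

theorem glue_lt {a i : ℕ} (f h : ℕ → P) (hi : i < a) : glue a f h i = f i := by
  unfold glue
  rw [if_pos hi]

theorem Up_ht (hD : ∀ p ∈ F, 1 ≤ ht (D p))
    (hp : ∀ p ∈ F, ∀ x ∈ pts p, 0 ≤ ht x ∧ ht x ≤ ht (D p)) {C : ℕ → P} {n : ℕ}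
    (hC : InF F n C) {x : V} {i : ℕ} (hi : i < n) (hx : x - SS D C i ∈ pts (C i)) :
    ht (SS D C i) ≤ ht x ∧ ht x ≤ ht (SS D C (i + 1)) := by
  have h1 := hp _ (hC i hi) _ hx
  rw [map_sub] at h1
  rw [SS_succ, map_add]
  constructor <;> omega

theorem Up_nonneg (hD : ∀ p ∈ F, 1 ≤ ht (D p))
    (hp : ∀ p ∈ F, ∀ x ∈ pts p, 0 ≤ ht x ∧ ht x ≤ ht (D p)) {C : ℕ → P} {n : ℕ}
    (hC : InF F n C) {x : V} (hx : Up D pts C n x) : 0 ≤ ht x := by
  obtain ⟨i, hi, hxi⟩ := hx
  have h1 := Up_ht hD hp hC hi hxi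
  have h2 := ht_SS_mono hD hC (Nat.zero_le i) (by omega)
  rw [SS_zero, map_zero] at h2
  push_cast at h2
  omega

/-- the cut levels in a window -/
theorem win_count (hD : ∀ p ∈ F, 1 ≤ ht (D p)) {B : ℕ → P} {N : ℕ} (hB : InF F N B) (a0 : ℤ)
    (g : ℕ) : ((range (N + 1)).filter (fun k => a0 ≤ ht (SS D B k) ∧
      ht (SS D B k) ≤ a0 + g)).card ≤ g + 1 := by
  set T := (range (N + 1)).filter (fun k => a0 ≤ ht (SS D B k) ∧ ht (SS D B k) ≤ a0 + g) with hT
  have hinj : Set.InjOn (fun k => ht (SS D B k)) (T : Set ℕ) := by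
    intro k hk l hl heq
    rw [Finset.mem_coe, hT, Finset.mem_filter, Finset.mem_range] at hk hl
    simp only at heq
    rcases lt_trichotomy k l with h | h | h
    · have := ht_SS_mono hD hB h.le (show l ≤ N by omega)
      omega
    · exact h
    · have := ht_SS_mono hD hB h.le (show k ≤ N by omega)
      omega
  calc T.card = (T.image (fun k => ht (SS D B k))).card :=
        (Finset.card_image_of_injOn hinj).symm
    _ ≤ (Finset.Icc a0 (a0 + g)).card := by
        refine Finset.card_le_card ?_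
        intro y hy
        rw [Finset.mem_image] at hy
        obtain ⟨k, hk, rfl⟩ := hy
        rw [hT, Finset.mem_filter] at hk
        rw [Finset.mem_Icc]
        exact hk.2
    _ = g + 1 := by
        rw [Int.card_Icc]
        omega

theorem EE_le_one (hw : ∀ p ∈ F, 0 ≤ w p) (hw1 : ∑ p ∈ F, w p ≤ 1) {n : ℕ} {Φ : (ℕ → P) → ℝ}
    {c : ℝ} (hc : 0 ≤ c) (h : ∀ s, InF F n s → Φ s ≤ c) : EE F w n Φ ≤ c := by
  refine le_trans (EE_mono hw h) ?_
  rw [EE_const]
  have h1 : (∑ p ∈ F, w p) ^ n ≤ 1 := pow_le_one₀ (Finset.sum_nonneg hw) hw1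
  calc (∑ p ∈ F, w p) ^ n * c ≤ 1 * c := mul_le_mul_of_nonneg_right h1 hc
    _ = c := one_mul c

/-- the mass of a shorter list is larger -/
theorem half_mono (hw : ∀ p ∈ F, 0 ≤ w p) (hw1 : ∑ p ∈ F, w p ≤ 1) {a b : ℕ} (hab : a ≤ b)
    (hb : (1 : ℝ) / 2 ≤ (∑ p ∈ F, w p) ^ b) : (1 : ℝ) / 2 ≤ (∑ p ∈ F, w p) ^ a :=
  le_trans hb (pow_le_pow_of_le_one (Finset.sum_nonneg hw) hw1 hab)

/-- two lists one after the other, prolonged -/
theorem EE_two_extend (hw : ∀ p ∈ F, 0 ≤ w p) {a b r : ℕ}
    (hr : (1 : ℝ) / 2 ≤ (∑ p ∈ F, w p) ^ r) {Φ : (ℕ → P) → (ℕ → P) → ℝ}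
    (h0 : ∀ f h, 0 ≤ Φ f h)
    (hΦ : ∀ f h f' h', (∀ i < a, f i = f' i) → (∀ i < b, h i = h' i) → Φ f h = Φ f' h') :
    EE F w a (fun f => EE F w b (fun h => Φ f h)) ≤
      2 * EE F w (a + b + r) (fun G => Φ G (shl a G)) := by
  have e1 : EE F w a (fun f => EE F w b (fun h => Φ f h)) =
      EE F w (a + b) (fun G => Φ G (shl a G)) := by
    rw [EE_add]
    refine EE_congr ?_
    intro f _
    refine EE_congr ?_
    intro h _
    refine hΦ _ _ _ _ ?_ ?_
    · intro i hi
      rw [glue_lt _ _ hi]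
    · intro i _
      rw [shl_glue]
  rw [e1]
  refine EE_extend hw hr (fun s _ => h0 _ _) ?_
  intro f h _ _
  apply le_of_eq
  refine hΦ _ _ _ _ ?_ ?_
  · intro i hi
    rw [glue_lt _ _ (by omega)]
  · intro i hi
    unfold shl
    rw [glue_lt _ _ (by omega)]

end Agr

section CaseA

variable {P : Type*} [Inhabited P] {V : Type*} [AddCommGroup V]
variable {F : Finset P} {w : P → ℝ} {D D' : P → V} {ht : V →+ ℤ} {pts pts' : P → Set V}

/-- the probability that the strand which goes down from `v` meets `Γ`, and only in its top `g`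
levels; restricted to a finite set of places -/
noncomputable def lX (F : Finset P) (w : P → ℝ) (ht : V →+ ℤ) (D : P → V) (pts : P → Set V)
    (Γ : Set V) (g K : ℕ) (X : Finset V) (v : V) : ℝ :=
  if v ∈ X then EE F w K (fun A => if Low ht D pts Γ g K v A then 1 else 0) else 0

theorem lX_nonneg (hw : ∀ p ∈ F, 0 ≤ w p) (Γ : Set V) (g K : ℕ) (X : Finset V) (v : V) :
    0 ≤ lX F w ht D pts Γ g K X v := by
  unfold lX
  split
  · refine EE_nonneg hw ?_
    intro s _
    split <;> norm_num
  · exact le_rfl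

theorem lX_le_one (hw : ∀ p ∈ F, 0 ≤ w p) (hw1 : ∑ p ∈ F, w p ≤ 1) (Γ : Set V) (g K : ℕ)
    (X : Finset V) (v : V) : lX F w ht D pts Γ g K X v ≤ 1 := by
  unfold lX
  split
  · refine EE_le_one hw hw1 zero_le_one ?_
    intro s _
    split <;> norm_num
  · norm_num

/-- the hypothesis of `sum_regular` -/
theorem lX_sum (hw : ∀ p ∈ F, 0 ≤ w p) (hw1 : ∑ p ∈ F, w p ≤ 1)
    (hD : ∀ p ∈ F, 1 ≤ ht (D p))
    (hp : ∀ p ∈ F, ∀ x ∈ pts p, 0 ≤ ht x ∧ ht x ≤ ht (D p)) {Γ : Set V}
    (hΓ : ∀ x ∈ Γ, 0 ≤ ht x) {X : Finset V} {K : ℕ} (hX : ∀ v ∈ X, ht v < K) (g n : ℕ)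
    (hn : (1 : ℝ) / 2 ≤ (∑ p ∈ F, w p) ^ n) :
    ∑ k ∈ range (n + 1), ev (lX F w ht D pts Γ g K X)
      (law F w D ^ n * mir (law F w D) ^ k) ≤ 2 * (g + 1) := by
  have e1 : ∑ k ∈ range (n + 1), ev (lX F w ht D pts Γ g K X)
      (law F w D ^ n * mir (law F w D) ^ k) =
      EE F w n (fun f => ∑ k ∈ range (n + 1),
        EE F w k (fun s => lX F w ht D pts Γ g K X (SS D f n - SS D s k))) := by
    rw [EE_sum]
    refine Finset.sum_congr rfl ?_
    intro k _
    rw [ev_EE]
  rw [e1]
  refine EE_le_one hw hw1 (by positivity) ?_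
  intro f _
  set v := SS D f n with hv
  have hk : ∀ k ∈ range (n + 1), EE F w k (fun s => lX F w ht D pts Γ g K X (v - SS D s k)) ≤
      2 * EE F w (n + K) (fun B => if v - SS D B k ∈ X ∧
        Low ht D pts Γ g K (v - SS D B k) (shl k B) then 1 else 0) := by
    intro k hk
    rw [Finset.mem_range] at hk
    have e2 : EE F w k (fun s => lX F w ht D pts Γ g K X (v - SS D s k)) =
        EE F w k (fun s => EE F w K (fun A => if v - SS D s k ∈ X ∧
          Low ht D pts Γ g K (v - SS D s k) A then 1 else 0)) := by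
      refine EE_congr ?_
      intro s _
      unfold lX
      by_cases h1 : v - SS D s k ∈ X
      · rw [if_pos h1]
        refine EE_congr ?_
        intro A _
        simp only [h1, true_and]
      · rw [if_neg h1]
        have h2 : ∀ A : ℕ → P, (if v - SS D s k ∈ X ∧
            Low ht D pts Γ g K (v - SS D s k) A then (1 : ℝ) else 0) = 0 := by
          intro A
          rw [if_neg (fun h => h1 h.1)]
        simp only [h2]
        rw [EE_zero_fun]
    rw [e2]
    have h3 := EE_two_extend (a := k) (b := K) (r := n - k) hw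
      (half_mono hw hw1 (by omega) hn)
      (Φ := fun s A => if v - SS D s k ∈ X ∧
          Low ht D pts Γ g K (v - SS D s k) A then 1 else 0)
      (fun _ _ => by split <;> norm_num) ?_
    · have h4 : k + K + (n - k) = n + K := by omega
      rw [h4] at h3
      exact h3
    · intro f h f' h' hf hh
      rw [SS_congr hf le_rfl, Low_congr hh]
  refine le_trans (Finset.sum_le_sum hk) ?_
  rw [← Finset.mul_sum, ← EE_sum]
  refine mul_le_mul_of_nonneg_left ?_ (by norm_num)
  refine EE_le_one hw hw1 (by positivity) ?_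
  intro B hB
  rw [← Finset.sum_filter, Finset.sum_const, nsmul_eq_mul, mul_one]
  have h5 := low_count hD hp hΓ hX g n v B hB
  exact_mod_cast h5

/-- the configurations of case (a) -/
def PA (ht : V →+ ℤ) (D D' : P → V) (pts : P → Set V) (X : Finset V) (g k' na nb nc : ℕ)
    (A B C E : ℕ → P) : Prop :=
  SS D' B nb ∈ X ∧ ht (SS D' B nb) < ht (SS D A na) ∧ ht (SS D A na) ≤ ht (SS D C nc) + g ∧
    ht (SS D C nc) < ht (SS D' B nb) ∧
    (∀ x, Dn D pts (SS D' B nb) A na x → ¬ Up D pts C nc x) ∧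
    ∃ x, Dn D pts (SS D' B nb) A na x ∧ Up D pts E k' (x - SS D C nc)

theorem PA_congr {X : Finset V} {g k' na nb nc : ℕ} {A A' B C C' E E' : ℕ → P}
    (hA : ∀ i < na, A i = A' i) (hC : ∀ i < nc, C i = C' i) (hE : ∀ i < k', E i = E' i) :
    PA ht D D' pts X g k' na nb nc A B C E ↔ PA ht D D' pts X g k' na nb nc A' B C' E' := by
  unfold PA
  simp only [SS_congr hA le_rfl, SS_congr hC le_rfl, Dn_congr hA, Up_congr hC, Up_congr hE]

/-- for given strands a configuration implies `Low` -/
theorem PA_low (hD : ∀ p ∈ F, 1 ≤ ht (D p))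
    (hp : ∀ p ∈ F, ∀ x ∈ pts p, 0 ≤ ht x ∧ ht x ≤ ht (D p)) {X : Finset V}
    {g k' K na nb nc : ℕ} {A B G : ℕ → P} (hA : InF F K A) (hG : InF F (K + k') G)
    (hna : na ≤ K) (hnc : nc ≤ K) (h : PA ht D D' pts X g k' na nb nc A B G (shl nc G)) :
    Low ht D pts {x | Up D pts G (K + k') x} g K (SS D' B nb) A := by
  obtain ⟨h1, h2, h3, h4, h5, x, hx1, i, hi, hxi⟩ := h
  constructor
  · refine ⟨x, ⟨nc + i, by omega, ?_⟩, ?_⟩
    · rw [SS_add, ← sub_sub]
      exact hxi
    · obtain ⟨i', hi', hxi'⟩ := hx1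
      exact ⟨i', by omega, hxi'⟩
  · rintro y hyG ⟨i', hi', hyi'⟩
    have hy0 := Up_nonneg hD hp hG hyG
    -- the piece of `A` belongs to the leg
    have hina : i' < na := by
      by_contra hcon
      have h6 := hp _ (hA i' hi') _ hyi'
      have e3 : ht (y - (SS D' B nb - SS D A (i' + 1))) =
          ht y - ht (SS D' B nb) + ht (SS D A i') + ht (D (A i')) := by
        rw [map_sub, map_sub, SS_succ, map_add]
        ring
      rw [e3] at h6
      have h7 := ht_SS_mono hD hA (show na ≤ i' by omega) (by omega)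
      omega
    have hyA : Dn D pts (SS D' B nb) A na y := ⟨i', hina, hyi'⟩
    have hyC := h5 y hyA
    obtain ⟨j, hj, hyj⟩ := hyG
    have hjc : nc ≤ j := by
      by_contra hcon
      exact hyC ⟨j, by omega, hyj⟩
    have h8 := Up_ht hD hp hG hj hyj
    have h9 := ht_SS_mono hD hG hjc (by omega)
    omega

/-- CASE (a) -/
theorem case_a (hw : ∀ p ∈ F, 0 ≤ w p) (hw1 : ∑ p ∈ F, w p ≤ 1)
    (hD : ∀ p ∈ F, 1 ≤ ht (D p))
    (hp : ∀ p ∈ F, ∀ x ∈ pts p, 0 ≤ ht x ∧ ht x ≤ ht (D p))
    (hlaw : law F w D' = law F w D) {X : Finset V} {K : ℕ} (hX : ∀ v ∈ X, ht v < K)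
    (g k' : ℕ) {n1 : ℕ} (hK : (1 : ℝ) / 2 ≤ (∑ p ∈ F, w p) ^ K)
    (hn1 : (1 : ℝ) / 2 ≤ (∑ p ∈ F, w p) ^ (2 * n1)) {m H : ℕ} (hm : 1 ≤ m) (hH : 2 * m ≤ H) :
    ∑ na ∈ range (K + 1), ∑ nb ∈ range (n1 + 1), ∑ nc ∈ range (K + 1),
      EE F w na (fun A => EE F w nb (fun B => EE F w nc (fun C => EE F w k' (fun E =>
        if PA ht D D' pts X g k' na nb nc A B C E then 1 else 0)))) ≤
      4 * (g + 1) ^ 2 * (H + 2 ^ (m + 1) * H * (2 * (g + 1)) *
        (∑ n ∈ Finset.Icc 1 (2 * n1), (1 : ℝ) / n) +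
        (n1 + 1) * ((4 * (m : ℝ) / H) ^ m * Real.sqrt (X.card : ℝ))) := by
  -- step 1: prolong the lists
  have hstep : ∀ na ∈ range (K + 1), ∀ nb ∈ range (n1 + 1), ∀ nc ∈ range (K + 1),
      EE F w na (fun A => EE F w nb (fun B => EE F w nc (fun C => EE F w k' (fun E =>
        if PA ht D D' pts X g k' na nb nc A B C E then 1 else 0)))) ≤
      4 * EE F w K (fun A => EE F w nb (fun B => EE F w (K + k') (fun G =>
        if PA ht D D' pts X g k' na nb nc A B G (shl nc G) then 1 else 0))) := by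
    intro na hna nb _ nc hnc
    rw [Finset.mem_range] at hna hnc
    have h1 : EE F w na (fun A => EE F w nb (fun B => EE F w nc (fun C => EE F w k' (fun E =>
        if PA ht D D' pts X g k' na nb nc A B C E then 1 else 0)))) ≤
        EE F w na (fun A => 2 * EE F w nb (fun B => EE F w (K + k') (fun G =>
          if PA ht D D' pts X g k' na nb nc A B G (shl nc G) then 1 else 0))) := by
      refine EE_mono hw ?_
      intro A _
      rw [← EE_mul_left]
      refine EE_mono hw ?_
      intro B _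
      have h3 := EE_two_extend (a := nc) (b := k') (r := K - nc) hw
        (half_mono hw hw1 (by omega) hK)
        (Φ := fun C E => if PA ht D D' pts X g k' na nb nc A B C E then 1 else 0)
        (fun _ _ => by split <;> norm_num) ?_
      · have h4 : nc + k' + (K - nc) = K + k' := by omega
        rw [h4] at h3
        exact h3
      · intro f h f' h' hf hh
        rw [PA_congr (fun i _ => rfl) hf hh]
    refine le_trans h1 ?_
    rw [EE_mul_left]
    have h5 := EE_extend (a := na) (b := K - na) hw (half_mono hw hw1 (by omega) hK)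
      (Φ := fun A => EE F w nb (fun B => EE F w (K + k') (fun G =>
          if PA ht D D' pts X g k' na nb nc A B G (shl nc G) then 1 else 0)))
      (fun s _ => EE_nonneg hw (fun _ _ => EE_nonneg hw (fun _ _ => by split <;> norm_num)))
      (Ψ := fun A => EE F w nb (fun B => EE F w (K + k') (fun G =>
          if PA ht D D' pts X g k' na nb nc A B G (shl nc G) then 1 else 0))) ?_
    · have h6 : na + (K - na) = K := by omega
      rw [h6] at h5
      linarith
    · intro f h _ _
      apply le_of_eq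
      refine EE_congr ?_
      intro B _
      refine EE_congr ?_
      intro G _
      rw [PA_congr (A := f) (A' := glue na f h) (fun i hi => (glue_lt _ _ hi).symm)
        (fun i _ => rfl) (fun i _ => rfl)]
  have hsum1 : ∑ na ∈ range (K + 1), ∑ nb ∈ range (n1 + 1), ∑ nc ∈ range (K + 1),
      EE F w na (fun A => EE F w nb (fun B => EE F w nc (fun C => EE F w k' (fun E =>
        if PA ht D D' pts X g k' na nb nc A B C E then 1 else 0)))) ≤
      ∑ na ∈ range (K + 1), ∑ nb ∈ range (n1 + 1), ∑ nc ∈ range (K + 1),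
      4 * EE F w K (fun A => EE F w nb (fun B => EE F w (K + k') (fun G =>
        if PA ht D D' pts X g k' na nb nc A B G (shl nc G) then 1 else 0))) :=
    Finset.sum_le_sum (fun na hna => Finset.sum_le_sum (fun nb hnb =>
      Finset.sum_le_sum (fun nc hnc => hstep na hna nb hnb nc hnc)))
  refine le_trans hsum1 ?_
  -- step 2: the sums over `na`, `nc` inside
  have hsum2 : ∑ na ∈ range (K + 1), ∑ nb ∈ range (n1 + 1), ∑ nc ∈ range (K + 1),
      4 * EE F w K (fun A => EE F w nb (fun B => EE F w (K + k') (fun G =>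
        if PA ht D D' pts X g k' na nb nc A B G (shl nc G) then 1 else 0))) =
      4 * ∑ nb ∈ range (n1 + 1), EE F w (K + k') (fun G => EE F w nb (fun B =>
        EE F w K (fun A => ∑ na ∈ range (K + 1), ∑ nc ∈ range (K + 1),
          if PA ht D D' pts X g k' na nb nc A B G (shl nc G) then 1 else 0))) := by
    rw [Finset.sum_comm, Finset.mul_sum]
    refine Finset.sum_congr rfl ?_
    intro nb _
    have e1 : ∀ na nc : ℕ, EE F w K (fun A => EE F w nb (fun B => EE F w (K + k') (fun G =>
        if PA ht D D' pts X g k' na nb nc A B G (shl nc G) then (1 : ℝ) else 0))) =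
        EE F w (K + k') (fun G => EE F w nb (fun B => EE F w K (fun A =>
        if PA ht D D' pts X g k' na nb nc A B G (shl nc G) then (1 : ℝ) else 0))) := by
      intro na nc
      have e2 : EE F w K (fun A => EE F w nb (fun B => EE F w (K + k') (fun G =>
          if PA ht D D' pts X g k' na nb nc A B G (shl nc G) then (1 : ℝ) else 0))) =
          EE F w K (fun A => EE F w (K + k') (fun G => EE F w nb (fun B =>
          if PA ht D D' pts X g k' na nb nc A B G (shl nc G) then (1 : ℝ) else 0))) :=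
        EE_congr (fun A _ => EE_swap nb (K + k') _)
      rw [e2, EE_swap]
      refine EE_congr ?_
      intro G _
      rw [EE_swap]
    have e3 : ∀ na ∈ range (K + 1), ∑ nc ∈ range (K + 1), 4 * EE F w K (fun A =>
        EE F w nb (fun B => EE F w (K + k') (fun G =>
        if PA ht D D' pts X g k' na nb nc A B G (shl nc G) then (1 : ℝ) else 0))) =
        4 * EE F w (K + k') (fun G => EE F w nb (fun B => EE F w K (fun A =>
          ∑ nc ∈ range (K + 1),
          if PA ht D D' pts X g k' na nb nc A B G (shl nc G) then (1 : ℝ) else 0))) := by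
      intro na _
      rw [← Finset.mul_sum]
      congr 1
      have : ∀ G B : ℕ → P, EE F w K (fun A => ∑ nc ∈ range (K + 1),
          if PA ht D D' pts X g k' na nb nc A B G (shl nc G) then (1 : ℝ) else 0) =
          ∑ nc ∈ range (K + 1), EE F w K (fun A =>
          if PA ht D D' pts X g k' na nb nc A B G (shl nc G) then (1 : ℝ) else 0) :=
        fun G B => EE_sum _ _ _
      simp only [this, EE_sum]
      exact Finset.sum_congr rfl (fun nc _ => e1 na nc)
    rw [Finset.sum_congr rfl e3, ← Finset.mul_sum]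
    congr 1
    simp only [EE_sum]
  rw [hsum2]
  -- step 3: the counting
  have hcount : ∀ nb, ∀ G B A : ℕ → P, InF F (K + k') G → InF F K A →
      ∑ na ∈ range (K + 1), ∑ nc ∈ range (K + 1),
        (if PA ht D D' pts X g k' na nb nc A B G (shl nc G) then (1 : ℝ) else 0) ≤
      (g + 1) ^ 2 * (if SS D' B nb ∈ X ∧
        Low ht D pts {x | Up D pts G (K + k') x} g K (SS D' B nb) A then 1 else 0) := by
    intro nb G B A hG hA
    by_cases hex : ∃ na ∈ range (K + 1), ∃ nc ∈ range (K + 1),
        PA ht D D' pts X g k' na nb nc A B G (shl nc G)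
    · obtain ⟨na0, hna0, nc0, hnc0, hPA0⟩ := hex
      rw [Finset.mem_range] at hna0 hnc0
      rw [if_pos ⟨hPA0.1, PA_low hD hp hA hG (by omega) (by omega) hPA0⟩, mul_one]
      set sb := ht (SS D' B nb) with hsb
      set TA := (range (K + 1)).filter (fun k => sb ≤ ht (SS D A k) ∧
        ht (SS D A k) ≤ sb + g) with hTA
      set TC := (range (K + 1)).filter (fun k => sb - g ≤ ht (SS D G k) ∧
        ht (SS D G k) ≤ sb - g + g) with hTC
      have h1 : TA.card ≤ g + 1 := win_count hD hA sb g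
      have h2 : TC.card ≤ g + 1 := win_count hD (hG.mono (by omega)) (sb - g) g
      calc ∑ na ∈ range (K + 1), ∑ nc ∈ range (K + 1),
            (if PA ht D D' pts X g k' na nb nc A B G (shl nc G) then (1 : ℝ) else 0)
          ≤ ∑ na ∈ range (K + 1), ∑ nc ∈ range (K + 1),
            ((if na ∈ TA then (1 : ℝ) else 0) * (if nc ∈ TC then 1 else 0)) := by
            refine Finset.sum_le_sum (fun na hna => Finset.sum_le_sum (fun nc hnc => ?_))
            by_cases hPA : PA ht D D' pts X g k' na nb nc A B G (shl nc G)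
            · have h3 : na ∈ TA := by
                rw [hTA, Finset.mem_filter]
                refine ⟨hna, ?_⟩
                obtain ⟨q1, q2, q3, q4, -⟩ := hPA
                omega
              have h4 : nc ∈ TC := by
                rw [hTC, Finset.mem_filter]
                refine ⟨hnc, ?_⟩
                obtain ⟨q1, q2, q3, q4, -⟩ := hPA
                omega
              rw [if_pos hPA, if_pos h3, if_pos h4, mul_one]
            · rw [if_neg hPA]
              exact mul_nonneg (by split <;> norm_num) (by split <;> norm_num)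
        _ = (TA.card : ℝ) * TC.card := by
            rw [← Finset.sum_mul_sum, ← Finset.sum_filter, ← Finset.sum_filter,
              Finset.sum_const, Finset.sum_const, nsmul_eq_mul, nsmul_eq_mul, mul_one, mul_one]
            congr 2
            · congr 1
              ext k
              simp only [hTA, Finset.mem_filter]
              tauto
            · congr 1
              ext k
              simp only [hTC, Finset.mem_filter]
              tauto
        _ ≤ ((g : ℝ) + 1) * (g + 1) := by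
            refine mul_le_mul ?_ ?_ (by positivity) (by positivity)
            · exact_mod_cast h1
            · exact_mod_cast h2
        _ = (g + 1) ^ 2 := by ring
    · have h1 : ∑ na ∈ range (K + 1), ∑ nc ∈ range (K + 1),
          (if PA ht D D' pts X g k' na nb nc A B G (shl nc G) then (1 : ℝ) else 0) = 0 := by
        refine Finset.sum_eq_zero (fun na hna => Finset.sum_eq_zero (fun nc hnc => ?_))
        rw [if_neg]
        intro h
        exact hex ⟨na, hna, nc, hnc, h⟩
      rw [h1]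
      refine mul_nonneg (by positivity) ?_
      split <;> norm_num
  have hfin : ∑ nb ∈ range (n1 + 1), EE F w (K + k') (fun G => EE F w nb (fun B =>
        EE F w K (fun A => ∑ na ∈ range (K + 1), ∑ nc ∈ range (K + 1),
          if PA ht D D' pts X g k' na nb nc A B G (shl nc G) then (1 : ℝ) else 0))) ≤
      (g + 1) ^ 2 * EE F w (K + k') (fun G => ∑ nb ∈ range (n1 + 1),
        ev (lX F w ht D pts {x | Up D pts G (K + k') x} g K X) (law F w D' ^ nb)) := by
    rw [EE_sum, Finset.mul_sum]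
    refine Finset.sum_le_sum ?_
    intro nb _
    rw [← EE_mul_left]
    refine EE_mono hw ?_
    intro G hG
    rw [ev_EE', ← EE_mul_left]
    refine EE_mono hw ?_
    intro B _
    have h1 : EE F w K (fun A => ∑ na ∈ range (K + 1), ∑ nc ∈ range (K + 1),
          if PA ht D D' pts X g k' na nb nc A B G (shl nc G) then (1 : ℝ) else 0) ≤
        EE F w K (fun A => (g + 1) ^ 2 * (if SS D' B nb ∈ X ∧
        Low ht D pts {x | Up D pts G (K + k') x} g K (SS D' B nb) A then 1 else 0)) :=
      EE_mono hw (fun A hA => hcount nb G B A hG hA)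
    refine le_trans h1 ?_
    rw [EE_mul_left]
    refine mul_le_mul_of_nonneg_left (le_of_eq ?_) (by positivity)
    unfold lX
    by_cases h2 : SS D' B nb ∈ X
    · rw [if_pos h2]
      refine EE_congr ?_
      intro A _
      simp only [h2, true_and]
    · rw [if_neg h2]
      have h3 : ∀ A : ℕ → P, (if SS D' B nb ∈ X ∧
          Low ht D pts {x | Up D pts G (K + k') x} g K (SS D' B nb) A then (1 : ℝ) else 0)
          = 0 := by
        intro A
        rw [if_neg (fun h => h2 h.1)]
      simp only [h3]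
      exact EE_zero_fun _
  set R : ℝ := (H + 2 ^ (m + 1) * H * (2 * (g + 1)) *
        (∑ n ∈ Finset.Icc 1 (2 * n1), (1 : ℝ) / n) +
        (n1 + 1) * ((4 * (m : ℝ) / H) ^ m * Real.sqrt (X.card : ℝ))) with hR
  have hR0 : 0 ≤ R := by
    rw [hR]
    have h1 : 0 ≤ ∑ n ∈ Finset.Icc 1 (2 * n1), (1 : ℝ) / n :=
      Finset.sum_nonneg (fun _ _ => by positivity)
    have h2 := Real.sqrt_nonneg (X.card : ℝ)
    positivity
  have hG : EE F w (K + k') (fun G => ∑ nb ∈ range (n1 + 1),
        ev (lX F w ht D pts {x | Up D pts G (K + k') x} g K X) (law F w D' ^ nb)) ≤ R := by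
    refine EE_le_one hw hw1 hR0 ?_
    intro G hG
    rw [hlaw, hR]
    refine sum_regular hw hw1 _ (lX_nonneg hw _ _ _ _) (lX_le_one hw hw1 _ _ _ _) X ?_ hm hH ?_
    · intro x hx
      unfold lX
      rw [if_neg hx]
    · intro n hn
      exact lX_sum hw hw1 hD hp (fun x hx => Up_nonneg hD hp hG hx) hX g n
        (half_mono hw hw1 hn hn1)
  calc 4 * ∑ nb ∈ range (n1 + 1), EE F w (K + k') (fun G => EE F w nb (fun B =>
        EE F w K (fun A => ∑ na ∈ range (K + 1), ∑ nc ∈ range (K + 1),
          if PA ht D D' pts X g k' na nb nc A B G (shl nc G) then (1 : ℝ) else 0)))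
      ≤ 4 * ((g + 1) ^ 2 * R) :=
        mul_le_mul_of_nonneg_left (le_trans hfin
          (mul_le_mul_of_nonneg_left hG (by positivity))) (by norm_num)
    _ = 4 * (g + 1) ^ 2 * R := by ring

end CaseA

section CaseB

variable {P : Type*} [Inhabited P] {V : Type*} [AddCommGroup V]
variable {F : Finset P} {w : P → ℝ} {D D' : P → V} {ht : V →+ ℤ} {pts pts' : P → Set V}

/-- the configurations of case (b) -/
def PB (ht : V →+ ℤ) (D D' : P → V) (pts pts' : P → Set V) (g k' na nb nc : ℕ)
    (A B C E : ℕ → P) : Prop :=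
  ht (SS D' B nb) < ht (SS D A na) ∧ ht (SS D A na) ≤ ht (SS D C nc) + g ∧
    ht (SS D C nc) < ht (SS D' B nb) ∧
    (∀ x, Up D' pts' B nb x → Up D pts C nc x → x = 0) ∧
    ∃ x, Up D' pts' B nb x ∧ Up D pts E k' (x - SS D C nc) ∧ ht (SS D C nc) < ht x

theorem PB_congr {g k' na nb nc : ℕ} {A A' B B' C C' E E' : ℕ → P}
    (hA : ∀ i < na, A i = A' i) (hB : ∀ i < nb, B i = B' i) (hC : ∀ i < nc, C i = C' i)
    (hE : ∀ i < k', E i = E' i) :
    PB ht D D' pts pts' g k' na nb nc A B C E ↔ PB ht D D' pts pts' g k' na nb nc A' B' C' E' := by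
  unfold PB
  simp only [SS_congr hA le_rfl, SS_congr hB le_rfl, SS_congr hC le_rfl, Up_congr hB,
    Up_congr hC, Up_congr hE]

/-- two configurations for the same strands -/
theorem PB_key (hD : ∀ p ∈ F, 1 ≤ ht (D p)) (hD' : ∀ p ∈ F, 1 ≤ ht (D' p))
    (hp : ∀ p ∈ F, ∀ x ∈ pts p, 0 ≤ ht x ∧ ht x ≤ ht (D p))
    (hp' : ∀ p ∈ F, ∀ x ∈ pts' p, 0 ≤ ht x ∧ ht x ≤ ht (D' p))
    {g k' K na nb nc na' nb' nc' : ℕ} {A B G : ℕ → P} (hB : InF F K B) (hG : InF F (K + k') G)
    (hnb : nb ≤ K) (hnc : nc ≤ K) (hnb' : nb' ≤ K) (hnc' : nc' ≤ K)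
    (h : PB ht D D' pts pts' g k' na nb nc A B G (shl nc G))
    (h' : PB ht D D' pts pts' g k' na' nb' nc' A B G (shl nc' G)) :
    ht (SS D G nc') ≤ ht (SS D' B nb) := by
  obtain ⟨h1, h2, h3, h4, x, ⟨i, hi, hxi⟩, ⟨i2, hi2, hxi2⟩, h5⟩ := h
  obtain ⟨h1', h2', h3', h4', -⟩ := h'
  have hx1 := Up_ht hD' hp' hB (show i < K by omega) hxi
  have hx2 := ht_SS_mono hD' hB (show i + 1 ≤ nb by omega) hnb
  have hxG : x - SS D G (nc + i2) ∈ pts (G (nc + i2)) := by
    rw [SS_add, ← sub_sub]
    exact hxi2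
  have hx3 := Up_ht hD hp hG (show nc + i2 < K + k' by omega) hxG
  by_contra hcon
  rw [not_le] at hcon
  have hlt : ht x < ht (SS D G nc') := by
    push_cast at hx2
    omega
  have hj : nc + i2 < nc' := by
    by_contra hj
    have h6 := ht_SS_mono hD hG (show nc' ≤ nc + i2 by omega) (by omega)
    push_cast at h6
    omega
  have hi' : i < nb' := by
    by_contra hi'
    have h6 := ht_SS_mono hD' hB (show nb' ≤ i by omega) (by omega)
    omega
  have hx0 : x = 0 := h4' x ⟨i, hi', hxi⟩ ⟨nc + i2, hj, hxG⟩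
  have h7 := ht_SS_mono hD hG (Nat.zero_le nc) (by omega)
  rw [SS_zero, map_zero] at h7
  rw [hx0, map_zero] at h5
  push_cast at h7
  omega

/-- CASE (b) -/
theorem case_b (hw : ∀ p ∈ F, 0 ≤ w p) (hw1 : ∑ p ∈ F, w p ≤ 1)
    (hD : ∀ p ∈ F, 1 ≤ ht (D p)) (hD' : ∀ p ∈ F, 1 ≤ ht (D' p))
    (hp : ∀ p ∈ F, ∀ x ∈ pts p, 0 ≤ ht x ∧ ht x ≤ ht (D p))
    (hp' : ∀ p ∈ F, ∀ x ∈ pts' p, 0 ≤ ht x ∧ ht x ≤ ht (D' p))
    (g k' : ℕ) {K : ℕ} (hK : (1 : ℝ) / 2 ≤ (∑ p ∈ F, w p) ^ K) :
    ∑ na ∈ range (K + 1), ∑ nb ∈ range (K + 1), ∑ nc ∈ range (K + 1),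
      EE F w na (fun A => EE F w nb (fun B => EE F w nc (fun C => EE F w k' (fun E =>
        if PB ht D D' pts pts' g k' na nb nc A B C E then 1 else 0)))) ≤
      8 * ((g + 1) * (2 * g + 1) ^ 2) := by
  -- step 1: prolong the lists
  have hstep : ∀ na ∈ range (K + 1), ∀ nb ∈ range (K + 1), ∀ nc ∈ range (K + 1),
      EE F w na (fun A => EE F w nb (fun B => EE F w nc (fun C => EE F w k' (fun E =>
        if PB ht D D' pts pts' g k' na nb nc A B C E then 1 else 0)))) ≤
      8 * EE F w K (fun A => EE F w K (fun B => EE F w (K + k') (fun G =>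
        if PB ht D D' pts pts' g k' na nb nc A B G (shl nc G) then 1 else 0))) := by
    intro na hna nb hnb nc hnc
    rw [Finset.mem_range] at hna hnb hnc
    have h1 : EE F w na (fun A => EE F w nb (fun B => EE F w nc (fun C => EE F w k' (fun E =>
        if PB ht D D' pts pts' g k' na nb nc A B C E then 1 else 0)))) ≤
        EE F w na (fun A => 4 * EE F w K (fun B => EE F w (K + k') (fun G =>
          if PB ht D D' pts pts' g k' na nb nc A B G (shl nc G) then 1 else 0))) := by
      refine EE_mono hw ?_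
      intro A _
      have h2 : EE F w nb (fun B => EE F w nc (fun C => EE F w k' (fun E =>
          if PB ht D D' pts pts' g k' na nb nc A B C E then 1 else 0))) ≤
          EE F w nb (fun B => 2 * EE F w (K + k') (fun G =>
          if PB ht D D' pts pts' g k' na nb nc A B G (shl nc G) then 1 else 0)) := by
        refine EE_mono hw ?_
        intro B _
        have h3 := EE_two_extend (a := nc) (b := k') (r := K - nc) hw
          (half_mono hw hw1 (by omega) hK)
          (Φ := fun C E => if PB ht D D' pts pts' g k' na nb nc A B C E then 1 else 0)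
          (fun _ _ => by split <;> norm_num) ?_
        · have h4 : nc + k' + (K - nc) = K + k' := by omega
          rw [h4] at h3
          exact h3
        · intro f h f' h' hf hh
          rw [PB_congr (fun i _ => rfl) (fun i _ => rfl) hf hh]
      refine le_trans h2 ?_
      rw [EE_mul_left]
      have h5 := EE_extend (a := nb) (b := K - nb) hw (half_mono hw hw1 (by omega) hK)
        (Φ := fun B => EE F w (K + k') (fun G =>
            if PB ht D D' pts pts' g k' na nb nc A B G (shl nc G) then 1 else 0))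
        (fun s _ => EE_nonneg hw (fun _ _ => by split <;> norm_num))
        (Ψ := fun B => EE F w (K + k') (fun G =>
            if PB ht D D' pts pts' g k' na nb nc A B G (shl nc G) then 1 else 0)) ?_
      · have h6 : nb + (K - nb) = K := by omega
        rw [h6] at h5
        linarith
      · intro f h _ _
        apply le_of_eq
        refine EE_congr ?_
        intro G _
        rw [PB_congr (B := f) (B' := glue nb f h) (fun i _ => rfl)
          (fun i hi => (glue_lt _ _ hi).symm) (fun i _ => rfl) (fun i _ => rfl)]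
    refine le_trans h1 ?_
    rw [EE_mul_left]
    have h5 := EE_extend (a := na) (b := K - na) hw (half_mono hw hw1 (by omega) hK)
      (Φ := fun A => EE F w K (fun B => EE F w (K + k') (fun G =>
          if PB ht D D' pts pts' g k' na nb nc A B G (shl nc G) then 1 else 0)))
      (fun s _ => EE_nonneg hw (fun _ _ => EE_nonneg hw (fun _ _ => by split <;> norm_num)))
      (Ψ := fun A => EE F w K (fun B => EE F w (K + k') (fun G =>
          if PB ht D D' pts pts' g k' na nb nc A B G (shl nc G) then 1 else 0))) ?_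
    · have h6 : na + (K - na) = K := by omega
      rw [h6] at h5
      linarith
    · intro f h _ _
      apply le_of_eq
      refine EE_congr ?_
      intro B _
      refine EE_congr ?_
      intro G _
      rw [PB_congr (A := f) (A' := glue na f h) (fun i hi => (glue_lt _ _ hi).symm)
        (fun i _ => rfl) (fun i _ => rfl) (fun i _ => rfl)]
  have hsum1 : ∑ na ∈ range (K + 1), ∑ nb ∈ range (K + 1), ∑ nc ∈ range (K + 1),
      EE F w na (fun A => EE F w nb (fun B => EE F w nc (fun C => EE F w k' (fun E =>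
        if PB ht D D' pts pts' g k' na nb nc A B C E then 1 else 0)))) ≤
      ∑ na ∈ range (K + 1), ∑ nb ∈ range (K + 1), ∑ nc ∈ range (K + 1),
      8 * EE F w K (fun A => EE F w K (fun B => EE F w (K + k') (fun G =>
        if PB ht D D' pts pts' g k' na nb nc A B G (shl nc G) then 1 else 0))) :=
    Finset.sum_le_sum (fun na hna => Finset.sum_le_sum (fun nb hnb =>
      Finset.sum_le_sum (fun nc hnc => hstep na hna nb hnb nc hnc)))
  refine le_trans hsum1 ?_
  simp only [← Finset.mul_sum]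
  refine mul_le_mul_of_nonneg_left ?_ (by norm_num)
  -- step 2: the sums inside
  have hsum2 : ∑ na ∈ range (K + 1), ∑ nb ∈ range (K + 1), ∑ nc ∈ range (K + 1),
      EE F w K (fun A => EE F w K (fun B => EE F w (K + k') (fun G =>
        if PB ht D D' pts pts' g k' na nb nc A B G (shl nc G) then (1 : ℝ) else 0))) =
      EE F w K (fun A => EE F w K (fun B => EE F w (K + k') (fun G =>
        ∑ na ∈ range (K + 1), ∑ nb ∈ range (K + 1), ∑ nc ∈ range (K + 1),
        if PB ht D D' pts pts' g k' na nb nc A B G (shl nc G) then (1 : ℝ) else 0))) := by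
    simp only [EE_sum]
  rw [hsum2]
  have hc0 : (0 : ℝ) ≤ (g + 1) * (2 * g + 1) ^ 2 := by positivity
  refine EE_le_one hw hw1 hc0 ?_
  intro A hA
  refine EE_le_one hw hw1 hc0 ?_
  intro B hB
  refine EE_le_one hw hw1 hc0 ?_
  intro G hG
  -- step 3: the counting
  by_cases hex : ∃ na ∈ range (K + 1), ∃ nb ∈ range (K + 1), ∃ nc ∈ range (K + 1),
      PB ht D D' pts pts' g k' na nb nc A B G (shl nc G)
  · obtain ⟨na0, hna0, nb0, hnb0, nc0, hnc0, h0⟩ := hex
    rw [Finset.mem_range] at hna0 hnb0 hnc0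
    set s0 := ht (SS D G nc0) with hs0
    set TB := (range (K + 1)).filter (fun k => s0 ≤ ht (SS D' B k) ∧
      ht (SS D' B k) ≤ s0 + ((2 * g : ℕ) : ℤ)) with hTB
    set TC := (range (K + 1)).filter (fun k => s0 - g ≤ ht (SS D G k) ∧
      ht (SS D G k) ≤ s0 - g + ((2 * g : ℕ) : ℤ)) with hTC
    have c1 : TB.card ≤ 2 * g + 1 := win_count hD' hB s0 (2 * g)
    have c2 : TC.card ≤ 2 * g + 1 := win_count hD (hG.mono (by omega)) (s0 - g) (2 * g)
    have c3 : ∀ nb : ℕ, ((range (K + 1)).filter (fun k => ht (SS D' B nb) ≤ ht (SS D A k) ∧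
      ht (SS D A k) ≤ ht (SS D' B nb) + g)).card ≤ g + 1 := fun nb => win_count hD hA _ g
    have hval : ∀ na nb nc : ℕ, nb < K + 1 → nc < K + 1 →
        PB ht D D' pts pts' g k' na nb nc A B G (shl nc G) →
        (s0 ≤ ht (SS D' B nb) ∧ ht (SS D' B nb) ≤ s0 + ((2 * g : ℕ) : ℤ)) ∧
        (s0 - g ≤ ht (SS D G nc) ∧ ht (SS D G nc) ≤ s0 - g + ((2 * g : ℕ) : ℤ)) ∧
        (ht (SS D' B nb) ≤ ht (SS D A na) ∧ ht (SS D A na) ≤ ht (SS D' B nb) + g) := by
      intro na nb nc hnb hnc h
      have k1 := PB_key hD hD' hp hp' hB hG (by omega) (by omega) (by omega) (by omega) h h0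
      have k2 := PB_key hD hD' hp hp' hB hG (by omega) (by omega) (by omega) (by omega) h0 h
      obtain ⟨q1, q2, q3, -⟩ := h
      obtain ⟨r1, r2, r3, -⟩ := h0
      push_cast
      refine ⟨⟨?_, ?_⟩, ⟨?_, ?_⟩, ?_, ?_⟩ <;> omega
    have hterm : ∀ na ∈ range (K + 1), ∀ nb ∈ range (K + 1), ∀ nc ∈ range (K + 1),
        (if PB ht D D' pts pts' g k' na nb nc A B G (shl nc G) then (1 : ℝ) else 0) ≤
        (if ht (SS D' B nb) ≤ ht (SS D A na) ∧ ht (SS D A na) ≤ ht (SS D' B nb) + g
          then (1 : ℝ) else 0) *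
        ((if s0 ≤ ht (SS D' B nb) ∧ ht (SS D' B nb) ≤ s0 + ((2 * g : ℕ) : ℤ) then 1 else 0) *
        (if s0 - g ≤ ht (SS D G nc) ∧ ht (SS D G nc) ≤ s0 - g + ((2 * g : ℕ) : ℤ)
          then 1 else 0)) := by
      intro na hna nb hnb nc hnc
      rw [Finset.mem_range] at hna hnb hnc
      by_cases h : PB ht D D' pts pts' g k' na nb nc A B G (shl nc G)
      · obtain ⟨v1, v2, v3⟩ := hval na nb nc hnb hnc h
        rw [if_pos h, if_pos v1, if_pos v2, if_pos v3]
        norm_num
      · rw [if_neg h]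
        exact mul_nonneg (by split <;> norm_num)
          (mul_nonneg (by split <;> norm_num) (by split <;> norm_num))
    refine le_trans (Finset.sum_le_sum (fun na hna => Finset.sum_le_sum (fun nb hnb =>
      Finset.sum_le_sum (fun nc hnc => hterm na hna nb hnb nc hnc)))) ?_
    rw [Finset.sum_comm]
    have e1 : ∀ nb ∈ range (K + 1), ∑ na ∈ range (K + 1), ∑ nc ∈ range (K + 1),
        (if ht (SS D' B nb) ≤ ht (SS D A na) ∧ ht (SS D A na) ≤ ht (SS D' B nb) + g
          then (1 : ℝ) else 0) *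
        ((if s0 ≤ ht (SS D' B nb) ∧ ht (SS D' B nb) ≤ s0 + ((2 * g : ℕ) : ℤ) then 1 else 0) *
        (if s0 - g ≤ ht (SS D G nc) ∧ ht (SS D G nc) ≤ s0 - g + ((2 * g : ℕ) : ℤ)
          then 1 else 0)) ≤
        ((g + 1) * (2 * g + 1)) *
        (if s0 ≤ ht (SS D' B nb) ∧ ht (SS D' B nb) ≤ s0 + ((2 * g : ℕ) : ℤ) then 1 else 0) := by
      intro nb _
      have e2 : ∀ na ∈ range (K + 1), ∑ nc ∈ range (K + 1),
          (if ht (SS D' B nb) ≤ ht (SS D A na) ∧ ht (SS D A na) ≤ ht (SS D' B nb) + g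
            then (1 : ℝ) else 0) *
          ((if s0 ≤ ht (SS D' B nb) ∧ ht (SS D' B nb) ≤ s0 + ((2 * g : ℕ) : ℤ) then 1 else 0) *
          (if s0 - g ≤ ht (SS D G nc) ∧ ht (SS D G nc) ≤ s0 - g + ((2 * g : ℕ) : ℤ)
            then 1 else 0)) =
          (if ht (SS D' B nb) ≤ ht (SS D A na) ∧ ht (SS D A na) ≤ ht (SS D' B nb) + g
            then (1 : ℝ) else 0) *
          ((if s0 ≤ ht (SS D' B nb) ∧ ht (SS D' B nb) ≤ s0 + ((2 * g : ℕ) : ℤ) then 1 else 0) *
          (TC.card : ℝ)) := by
        intro na _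
        rw [← Finset.mul_sum, ← Finset.mul_sum, ← Finset.sum_filter, Finset.sum_const,
          nsmul_eq_mul, mul_one]
      rw [Finset.sum_congr rfl e2, ← Finset.sum_mul, ← Finset.sum_filter, Finset.sum_const,
        nsmul_eq_mul, mul_one]
      have c3' : ((((range (K + 1)).filter (fun k => ht (SS D' B nb) ≤ ht (SS D A k) ∧
        ht (SS D A k) ≤ ht (SS D' B nb) + g)).card : ℕ) : ℝ) ≤ (g : ℝ) + 1 := by
        exact_mod_cast c3 nb
      have c2' : (TC.card : ℝ) ≤ 2 * g + 1 := by exact_mod_cast c2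
      have i0 : (0 : ℝ) ≤ (if s0 ≤ ht (SS D' B nb) ∧ ht (SS D' B nb) ≤ s0 + ((2 * g : ℕ) : ℤ)
        then 1 else 0) := by split <;> norm_num
      calc _ ≤ ((g : ℝ) + 1) * ((if s0 ≤ ht (SS D' B nb) ∧
            ht (SS D' B nb) ≤ s0 + ((2 * g : ℕ) : ℤ) then 1 else 0) * (2 * g + 1)) := by
            refine mul_le_mul c3' (mul_le_mul_of_nonneg_left c2' i0)
              (mul_nonneg i0 (by positivity)) (by positivity)
        _ = _ := by ring
    refine le_trans (Finset.sum_le_sum e1) ?_
    rw [← Finset.mul_sum, ← Finset.sum_filter, Finset.sum_const, nsmul_eq_mul, mul_one]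
    have c1' : (TB.card : ℝ) ≤ 2 * g + 1 := by exact_mod_cast c1
    calc ((g : ℝ) + 1) * (2 * g + 1) * (TB.card : ℝ)
        ≤ ((g : ℝ) + 1) * (2 * g + 1) * (2 * g + 1) :=
          mul_le_mul_of_nonneg_left c1' (by positivity)
      _ = (g + 1) * (2 * g + 1) ^ 2 := by ring
  · have h1 : ∑ na ∈ range (K + 1), ∑ nb ∈ range (K + 1), ∑ nc ∈ range (K + 1),
        (if PB ht D D' pts pts' g k' na nb nc A B G (shl nc G) then (1 : ℝ) else 0) = 0 := by
      refine Finset.sum_eq_zero (fun na hna => Finset.sum_eq_zero (fun nb hnb =>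
        Finset.sum_eq_zero (fun nc hnc => ?_)))
      rw [if_neg]
      intro h
      exact hex ⟨na, hna, nb, hnb, nc, hnc, h⟩
    rw [h1]
    exact hc0

end CaseB

end Pool.Agent.R19
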