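import Pool.Agent.R19.Num9
import Pool.Agent.R19.Fin9

/-! R19, rows e5 and e6: most staircases are cheap when free blocks of every scale `m ^ i`,
`i < g`, are available and the end of the walk is not crowded. -/

namespace Pool.Agent.R19

open Finset Filter
open scoped Classical
open Pool.Agent.MP_794e6e_pr Pool.Agent.MP_794e6e_ex

/-- the segment law from the free blocks: cost `a0 / m ^ i`, length `4 m ^ (d - 2 g + 2)` per
unit length -/
theorem seg9 {μ : ℝ} (hμ : 1 ≤ μ) {d g m : ℕ} (hm : 2 ≤ m) {C₁ a0 : ℝ} (hC₁ : 0 ≤ C₁)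
    (ha : Real.log μ + (C₁ * m + Real.log (((m ^ d : ℕ) : ℝ) + 1)) ≤ a0)
    (hB : ∀ i, 1 ≤ i → i + 1 ≤ g → ∃ h l J B, Blk μ⁻¹ (m ^ d) (m ^ i) h l J B ∧
      J ≤ C₁ * (m : ℝ) ∧ l ≤ 4 * m ^ (i + (d - 2 * g + 2))) :
    SegLaw μ⁻¹ (m ^ d) m (g - 1) (fun i => a0 / (m : ℝ) ^ i)
      (fun _ => 4 * (m : ℝ) ^ (d - 2 * g + 2)) := by
  have hm1 : (1 : ℝ) ≤ m := by exact_mod_cast (by omega : 1 ≤ m)
  have hm0 : (0 : ℝ) < m := by linarith
  have hlμ : 0 ≤ Real.log μ := Real.log_nonneg hμ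
  have hLL0 : 0 ≤ Real.log (((m ^ d : ℕ) : ℝ) + 1) := Real.log_nonneg (by
    have : (0 : ℝ) ≤ ((m ^ d : ℕ) : ℝ) := Nat.cast_nonneg _
    linarith)
  have hCm : 0 ≤ C₁ * (m : ℝ) := by positivity
  have ha0 : 0 ≤ a0 := by linarith
  have key : ∀ i : ℕ, ∃ (h l : ℕ) (J : ℝ) (B : Law), 1 ≤ i → i ≤ g - 1 →
      Blk μ⁻¹ (m ^ d) (m ^ i) h l J B ∧ J ≤ C₁ * (m : ℝ) ∧
        l ≤ 4 * m ^ (i + (d - 2 * g + 2)) := by
    intro i
    by_cases hi : 1 ≤ i ∧ i ≤ g - 1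
    · obtain ⟨h, l, J, B, hb⟩ := hB i hi.1 (by omega)
      exact ⟨h, l, J, B, fun _ _ => hb⟩
    · exact ⟨0, 0, 0, Law.dirac [], fun h1 h2 => absurd ⟨h1, h2⟩ hi⟩
  choose h l J B hb using key
  refine segment (h := h) (l := l) (J := J) (B := B) (inv_pos.2 (by linarith))
    (inv_le_one_of_one_le₀ hμ) hm (fun i hi hi' => (hb i hi hi').1) (fun i => by positivity)
    (fun _ => by positivity) ?_ (fun i hi hi' => ?_) ?_ (fun i hi hi' => ?_)
  · rw [inv_inv, pow_zero, div_one]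
    linarith
  · rw [mul_div_cancel₀ _ (by positivity : (m : ℝ) ^ i ≠ 0)]
    linarith [(hb i hi hi').2.1]
  · have : (1 : ℝ) ≤ (m : ℝ) ^ (d - 2 * g + 2) := one_le_pow₀ hm1
    linarith
  · have h2 : (l i : ℝ) ≤ ((4 * m ^ (i + (d - 2 * g + 2)) : ℕ) : ℝ) := by
      exact_mod_cast (hb i hi hi').2.2
    refine h2.trans (le_of_eq ?_)
    push_cast
    rw [pow_add]
    ring

/-- the cost of one segment, without averages -/
theorem xt_sc_le {X : Finset Pt} {ω : ℕ → ℕ} {j m I : ℕ} {a : ℕ → ℝ} (ha : ∀ i, 0 ≤ a i)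
    {n : ℝ} (hn : (ω j : ℝ) ≤ n) : sc (obs X ω j) (ω j) m I a ≤ n * a I + ∑ i ∈ range I,
      a i * (400 * (m : ℝ) ^ (i + 1) + n) := by
  refine (sc_le ha).trans (add_le_add (mul_le_mul_of_nonneg_right hn (ha I))
    (sum_le_sum fun i _ => mul_le_mul_of_nonneg_left (add_le_add_right ?_ _) (ha i)))
  exact (by exact_mod_cast cnt_le X ω j _ : (cnt X ω j (200 * m ^ (i + 1)) : ℝ) ≤ ω j).trans hn

theorem xt_sc_nonneg (X : Finset Pt) (n m I : ℕ) {a : ℕ → ℝ} (ha : ∀ i, 0 ≤ a i) :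
    0 ≤ sc X n m I a := by
  unfold sc
  refine sum_nonneg fun s _ => sum_nonneg fun i _ => ?_
  split_ifs
  · exact ha i
  · exact le_rfl

/-- all but a few staircases are cheap, fixed scale -/
theorem xt_core {μ : ℝ} (hμ : 1 ≤ μ) {d g m : ℕ} (hm : 412 ≤ m) (h1 : 2 * d + 60 ≤ 7 * g)
    (h2 : 2 * g + 10 ≤ d) {Ca Cn a0 : ℝ} (hCa : 0 ≤ Ca) (hCn : 0 ≤ Cn)
    (hml : 6432 * (KK d g * (g : ℝ)) ≤ (m : ℝ)) (ha0 : 0 ≤ a0) (ha1 : a0 ≤ Ca * m)
    (hS : SegLaw μ⁻¹ (m ^ d) m (g - 1) (fun i => a0 / (m : ℝ) ^ i)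
      (fun _ => 4 * (m : ℝ) ^ (d - 2 * g + 2))) (A : Word)
    (hn1 : ∀ y i, g + 1 ≤ y → y ≤ X0 d g → i < g → (m : ℝ) / (m : ℝ) ^ i *
      cc m y (vv A m y (200 * m ^ (i + 1))) ≤ Cn * (m : ℝ) ^ (g + 5))
    (hn2 : ∀ y, g + 1 ≤ y → y ≤ X0 d g → cc m y (vv A m y 1) ≤ Cn * (m : ℝ) ^ (g + 5)) :
    ∃ G ⊆ Om (KK d g) (fun j => m ^ (g + j / 3)),
      (Om (KK d g) (fun j => m ^ (g + j / 3))).card ≤ 4 * G.card ∧
      ∀ ω ∈ G, ∃ Z : Law, (∀ i, Gw (bk A) ω (KK d g) (Z.f i)) ∧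
        (∀ i, (Z.f i).length ≤ m ^ d / 4) ∧
        (∀ i, ((pts (Z.f i) ∩ bk A).card : ℝ) ≤
          (3 * (402 * g + 402) * Ca + 4 * (KK d g * ((2 + (400 + Cn) * g) * Ca + Cn)) +
            KK d g * (d + 1) + KK d g + 6) * (m : ℝ) ^ (g + 5)) ∧
        Dom μ⁻¹ (m ^ d) Z (Real.exp
          ((3 * (402 * g + 402) * Ca + 4 * (KK d g * ((2 + (400 + Cn) * g) * Ca + Cn)) +
            KK d g * (d + 1) + KK d g + 6) * (m : ℝ) ^ (g + 5 + 1))) := by
  have hμ0 : 0 < μ := by linarith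
  have hm1 : (1 : ℝ) ≤ m := by exact_mod_cast (by omega : 1 ≤ m)
  have hm0 : (0 : ℝ) < m := by linarith
  have hX : X0 d g + 4 ≤ 2 * g ∧ g + 1 ≤ X0 d g := by
    unfold X0
    constructor <;> omega
  obtain ⟨K, hKdef⟩ : ∃ K, K = KK d g := ⟨_, rfl⟩
  rw [← hKdef] at hml ⊢
  have hK : 3 ≤ K := by
    rw [hKdef]
    unfold KK
    omega
  have hjy : ∀ j, 3 ≤ j → j < K → g + 1 ≤ g + j / 3 ∧ g + j / 3 ≤ X0 d g := by
    intro j h3 hj
    rw [hKdef] at hj
    unfold KK at hj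
    constructor <;> omega
  have hjX : ∀ j, j < K → g + j / 3 ≤ X0 d g := by
    intro j hj
    rw [hKdef] at hj
    unfold KK at hj
    omega
  have hLL := log_succ_le (m := m) (d := d) (by omega)
  have hLL0 : 0 ≤ Real.log (((m ^ d : ℕ) : ℝ) + 1) := Real.log_nonneg (by
    have : (0 : ℝ) ≤ ((m ^ d : ℕ) : ℝ) := Nat.cast_nonneg _
    linarith)
  obtain ⟨a, hadef⟩ : ∃ a : ℕ → ℝ, a = fun i => a0 / (m : ℝ) ^ i := ⟨_, rfl⟩
  obtain ⟨b, hbdef⟩ : ∃ b : ℕ → ℝ, b = fun _ => 4 * (m : ℝ) ^ (d - 2 * g + 2) := ⟨_, rfl⟩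
  rw [← hadef, ← hbdef] at hS
  have ha : ∀ i, 0 ≤ a i := fun i => by rw [hadef]; positivity
  have hb : ∀ i, 0 ≤ b i := fun i => by rw [hbdef]; positivity
  have hai : ∀ i, a i * (m : ℝ) ^ i = a0 := fun i => by
    rw [hadef]
    exact div_mul_cancel₀ _ (by positivity)
  have hg0 : (0 : ℝ) ≤ g := Nat.cast_nonneg _
  have hK0 : (0 : ℝ) ≤ K := Nat.cast_nonneg _
  have hd0 : (0 : ℝ) ≤ d := Nat.cast_nonneg _
  obtain ⟨T, hT⟩ : ∃ T : ℝ, T = (m : ℝ) ^ (g + 5) := ⟨_, rfl⟩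
  have hT0 : 0 < T := by rw [hT]; positivity
  have hT1 : 1 ≤ T := by rw [hT]; exact one_le_pow₀ hm1
  -- `m * m ^ e ≤ T`
  have hpT : ∀ e, e + 1 ≤ g + 5 → (m : ℝ) * (m : ℝ) ^ e ≤ T := by
    intro e he
    rw [hT, mul_comm, ← pow_succ]
    exact pow_le_pow_right₀ hm1 he
  -- the mean cost of the segment `j`
  have hmean : ∀ j, 3 ≤ j → j < K → ∑ ω ∈ Om K (fun j => m ^ (g + j / 3)),
      sc (obs (bk A) ω j) (ω j) m (g - 1) a ≤
        ((Om K (fun j => m ^ (g + j / 3))).card : ℝ) * ((2 + (400 + Cn) * g) * Ca * T) := by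
    intro j h3 hj
    obtain ⟨hy1, hy2⟩ := hjy j h3 hj
    refine (avg_sc9 hm h3 hj (by omega) A ha).trans
      (mul_le_mul_of_nonneg_left ?_ (Nat.cast_nonneg _))
    have e1 : 2 * (m : ℝ) ^ (g + j / 3) * a (g - 1) ≤ 2 * Ca * T := by
      have e2 : (m : ℝ) ^ (g + j / 3) = (m : ℝ) ^ (g + j / 3 - (g - 1)) * (m : ℝ) ^ (g - 1) := by
        rw [← pow_add]
        congr 1
        omega
      have e3 : 2 * (m : ℝ) ^ (g + j / 3) * a (g - 1) =
          2 * ((m : ℝ) ^ (g + j / 3 - (g - 1)) * a0) := by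
        rw [e2, ← hai (g - 1)]
        ring
      have e4 : (m : ℝ) ^ (g + j / 3 - (g - 1)) * a0 ≤
          (m : ℝ) ^ (g + j / 3 - (g - 1)) * (Ca * m) :=
        mul_le_mul_of_nonneg_left ha1 (by positivity)
      have e5 := hpT (g + j / 3 - (g - 1)) (by omega)
      have e6 : (m : ℝ) ^ (g + j / 3 - (g - 1)) * (Ca * m) =
          Ca * (m * (m : ℝ) ^ (g + j / 3 - (g - 1))) := by ring
      have e7 := mul_le_mul_of_nonneg_left e5 hCa
      rw [e3]
      linarith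
    have e8 : ∀ i ∈ range (g - 1), a i * (400 * (m : ℝ) ^ (i + 1) +
        cc m (g + j / 3) (vv A m (g + j / 3) (200 * m ^ (i + 1)))) ≤ (400 + Cn) * Ca * T := by
      intro i hi
      have hi' := mem_range.1 hi
      have f1 : a i * (400 * (m : ℝ) ^ (i + 1)) ≤ 400 * Ca * T := by
        have f2 : a i * (400 * (m : ℝ) ^ (i + 1)) = 400 * (a0 * m) := by
          rw [← hai i, pow_succ]
          ring
        have f3 : a0 * m ≤ Ca * m * m := mul_le_mul_of_nonneg_right ha1 hm0.le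
        have f4 := mul_le_mul_of_nonneg_left (hpT 1 (by omega)) hCa
        rw [pow_one] at f4
        rw [f2]
        linarith
      have f5 : a i * cc m (g + j / 3) (vv A m (g + j / 3) (200 * m ^ (i + 1))) ≤
          Cn * Ca * T := by
        have f6 := hn1 (g + j / 3) i hy1 hy2 (by omega)
        have f7 : 0 ≤ cc m (g + j / 3) (vv A m (g + j / 3) (200 * m ^ (i + 1))) :=
          nu5_cc _ _ (vv_nonneg _ _ _ _)
        rw [← hT] at f6
        have f8 : a i ≤ Ca * ((m : ℝ) / (m : ℝ) ^ i) := by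
          rw [hadef]
          have : Ca * ((m : ℝ) / (m : ℝ) ^ i) = Ca * m / (m : ℝ) ^ i := by ring
          rw [this]
          exact div_le_div_of_nonneg_right ha1 (by positivity)
        calc a i * cc m (g + j / 3) (vv A m (g + j / 3) (200 * m ^ (i + 1)))
            ≤ Ca * ((m : ℝ) / (m : ℝ) ^ i) *
              cc m (g + j / 3) (vv A m (g + j / 3) (200 * m ^ (i + 1))) :=
              mul_le_mul_of_nonneg_right f8 f7
          _ = Ca * ((m : ℝ) / (m : ℝ) ^ i *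
              cc m (g + j / 3) (vv A m (g + j / 3) (200 * m ^ (i + 1)))) := by ring
          _ ≤ Ca * (Cn * T) := mul_le_mul_of_nonneg_left f6 hCa
          _ = _ := by ring
      rw [mul_add]
      have : (400 + Cn) * Ca * T = 400 * Ca * T + Cn * Ca * T := by ring
      linarith
    have e9 : ∑ i ∈ range (g - 1), a i * (400 * (m : ℝ) ^ (i + 1) +
        cc m (g + j / 3) (vv A m (g + j / 3) (200 * m ^ (i + 1)))) ≤
          g * ((400 + Cn) * Ca * T) := by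
      refine (sum_le_sum e8).trans ?_
      rw [sum_const, card_range, nsmul_eq_mul]
      exact mul_le_mul_of_nonneg_right (by exact_mod_cast Nat.sub_le g 1) (by positivity)
    have e10 : (2 + (400 + Cn) * g) * Ca * T = 2 * Ca * T + g * ((400 + Cn) * Ca * T) := by ring
    rw [e10]
    exact add_le_add e1 e9
  have s1 : ∑ ω ∈ Om K (fun j => m ^ (g + j / 3)), ∑ j ∈ Ico 3 K,
      sc (obs (bk A) ω j) (ω j) m (g - 1) a ≤
        ((Om K (fun j => m ^ (g + j / 3))).card : ℝ) *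
          (K * ((2 + (400 + Cn) * g) * Ca * T)) := by
    rw [sum_comm]
    calc ∑ j ∈ Ico 3 K, ∑ ω ∈ Om K (fun j => m ^ (g + j / 3)),
          sc (obs (bk A) ω j) (ω j) m (g - 1) a
        ≤ ∑ j ∈ Ico 3 K, ((Om K (fun j => m ^ (g + j / 3))).card : ℝ) *
          ((2 + (400 + Cn) * g) * Ca * T) :=
          sum_le_sum fun j hj => hmean j (mem_Ico.1 hj).1 (mem_Ico.1 hj).2
      _ = ((K - 3 : ℕ) : ℝ) * (((Om K (fun j => m ^ (g + j / 3))).card : ℝ) *
          ((2 + (400 + Cn) * g) * Ca * T)) := by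
          rw [sum_const, Nat.card_Ico, nsmul_eq_mul]
      _ ≤ (K : ℝ) * (((Om K (fun j => m ^ (g + j / 3))).card : ℝ) *
          ((2 + (400 + Cn) * g) * Ca * T)) :=
          mul_le_mul_of_nonneg_right (by exact_mod_cast Nat.sub_le K 3) (by positivity)
      _ = _ := by ring
  have s2 : ∑ ω ∈ Om K (fun j => m ^ (g + j / 3)), ∑ j ∈ Ico 3 K, (cnt (bk A) ω j 1 : ℝ)
      ≤ ((Om K (fun j => m ^ (g + j / 3))).card : ℝ) * (K * (Cn * T)) := by
    rw [sum_comm]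
    calc ∑ j ∈ Ico 3 K, ∑ ω ∈ Om K (fun j => m ^ (g + j / 3)), (cnt (bk A) ω j 1 : ℝ)
        ≤ ∑ j ∈ Ico 3 K, ((Om K (fun j => m ^ (g + j / 3))).card : ℝ) * (Cn * T) := by
          refine sum_le_sum fun j hj => ?_
          obtain ⟨h3, hjK⟩ := mem_Ico.1 hj
          refine (avg_cnt9 hm h3 hjK A le_rfl ?_).trans
            (mul_le_mul_of_nonneg_left ?_ (Nat.cast_nonneg _))
          · have : 1 ≤ m ^ (g + j / 3) := Nat.one_le_pow _ _ (by omega)
            omega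
          · rw [hT]
            exact hn2 _ (hjy j h3 hjK).1 (hjy j h3 hjK).2
      _ = ((K - 3 : ℕ) : ℝ) * (((Om K (fun j => m ^ (g + j / 3))).card : ℝ) * (Cn * T)) := by
          rw [sum_const, Nat.card_Ico, nsmul_eq_mul]
      _ ≤ (K : ℝ) * (((Om K (fun j => m ^ (g + j / 3))).card : ℝ) * (Cn * T)) :=
          mul_le_mul_of_nonneg_right (by exact_mod_cast Nat.sub_le K 3) (by positivity)
      _ = _ := by ring
  obtain ⟨G, hG, hcard, hGb⟩ := markov3 (Om K (fun j => m ^ (g + j / 3)))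
    (f₂ := fun _ => 0) (c₂ := 0)
    (fun ω _ => sum_nonneg fun j _ => xt_sc_nonneg _ _ _ _ ha) (fun _ _ => le_rfl)
    (fun ω _ => sum_nonneg fun j _ => Nat.cast_nonneg _) s1 (by simp) s2
  refine ⟨G, hG, hcard, fun ω hω => ?_⟩
  obtain ⟨b1, -, b3⟩ := hGb ω hω
  obtain ⟨Z, z1, z2, z3⟩ := exit_path (I := fun _ => g - 1) (a := fun _ => a) (b := fun _ => b)
    (inv_pos.2 hμ0) (fun _ => hS) (bk A) ω K (by omega)
  have hω1 : ∀ j, j < K → (ω j : ℝ) ≤ 2 * (m : ℝ) ^ (X0 d g) := by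
    intro j hj
    have e1 : ω j ≤ 2 * m ^ (g + j / 3) := (mem_Om (hG hω) hj).2.le
    have e2 : (ω j : ℝ) ≤ 2 * (m : ℝ) ^ (g + j / 3) := by exact_mod_cast e1
    have e3 : (m : ℝ) ^ (g + j / 3) ≤ (m : ℝ) ^ (X0 d g) := pow_le_pow_right₀ hm1 (hjX j hj)
    linarith
  have hω3 : ∀ j, j < 3 → (ω j : ℝ) ≤ 2 * (m : ℝ) ^ g := by
    intro j hj
    have e1 : ω j ≤ 2 * m ^ (g + j / 3) := (mem_Om (hG hω) (j := j) (by omega)).2.le
    rw [show j / 3 = 0 by omega, Nat.add_zero] at e1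
    exact_mod_cast e1
  have hmgT : (m : ℝ) ^ g ≤ T := by
    rw [hT]
    exact pow_le_pow_right₀ hm1 (by omega)
  refine ⟨Z, z1, fun i => ?_, fun i => ?_, ?_⟩
  · -- lengths
    have e1 := z2 i
    have e2 : ∀ j ∈ range K, sc (obs (bk A) ω j) (ω j) m (g - 1) b ≤
        g * (402 * (4 * (m : ℝ) ^ (X0 d g + (d - 2 * g + 2)))) := by
      intro j hj
      have f1 := hω1 j (mem_range.1 hj)
      refine (xt_sc_le hb f1).trans ?_
      have f2 : ∀ i ∈ range (g - 1), b i * (400 * (m : ℝ) ^ (i + 1) + 2 * (m : ℝ) ^ (X0 d g)) ≤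
          402 * (4 * (m : ℝ) ^ (X0 d g + (d - 2 * g + 2))) := by
        intro i hi
        have hi' := mem_range.1 hi
        have f3 : (m : ℝ) ^ (i + 1) ≤ (m : ℝ) ^ (X0 d g) := pow_le_pow_right₀ hm1 (by omega)
        have f4 : 400 * (m : ℝ) ^ (i + 1) + 2 * (m : ℝ) ^ (X0 d g) ≤
          402 * (m : ℝ) ^ (X0 d g) := by linarith
        refine (mul_le_mul_of_nonneg_left f4 (hb i)).trans (le_of_eq ?_)
        rw [hbdef, pow_add]
        ring
      have f5 := sum_le_sum f2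
      rw [sum_const, card_range, nsmul_eq_mul] at f5
      have f6 : 2 * (m : ℝ) ^ (X0 d g) * b (g - 1) ≤
          402 * (4 * (m : ℝ) ^ (X0 d g + (d - 2 * g + 2))) := by
        have f7 : 2 * (m : ℝ) ^ (X0 d g) * b (g - 1) =
            2 * (4 * (m : ℝ) ^ (X0 d g + (d - 2 * g + 2))) := by
          rw [hbdef, pow_add]
          ring
        have f8 : 0 ≤ 4 * (m : ℝ) ^ (X0 d g + (d - 2 * g + 2)) := by positivity
        linarith
      have f9 : (((g - 1 : ℕ) : ℝ)) + 1 = g := by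
        have : g - 1 + 1 = g := by omega
        exact_mod_cast this
      have f10 : (g : ℝ) * (402 * (4 * (m : ℝ) ^ (X0 d g + (d - 2 * g + 2)))) =
          402 * (4 * (m : ℝ) ^ (X0 d g + (d - 2 * g + 2))) +
          ((g - 1 : ℕ) : ℝ) * (402 * (4 * (m : ℝ) ^ (X0 d g + (d - 2 * g + 2)))) := by
        rw [← f9]
        ring
      rw [f10]
      exact add_le_add f6 f5
    have e3 := sum_le_sum e2
    rw [sum_const, card_range, nsmul_eq_mul] at e3
    have e4 : ((Z.f i).length : ℝ) ≤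
        1608 * (K * (g : ℝ)) * (m : ℝ) ^ (X0 d g + (d - 2 * g + 2)) := by
      have := e1.trans e3
      linarith
    have e5 : 4 * ((Z.f i).length : ℝ) ≤ m * (m : ℝ) ^ (X0 d g + (d - 2 * g + 2)) := by
      have f1 : 0 ≤ (m : ℝ) ^ (X0 d g + (d - 2 * g + 2)) := by positivity
      have f2 := mul_le_mul_of_nonneg_right hml f1
      linarith
    have e6 : (m : ℝ) * (m : ℝ) ^ (X0 d g + (d - 2 * g + 2)) ≤ (m : ℝ) ^ d := by
      rw [mul_comm, ← pow_succ]
      exact pow_le_pow_right₀ hm1 (by omega)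
    rw [Nat.le_div_iff_mul_le (by norm_num)]
    have e7 : (((Z.f i).length * 4 : ℕ) : ℝ) ≤ ((m ^ d : ℕ) : ℝ) := by
      push_cast
      linarith
    exact_mod_cast e7
  · -- obstacles
    have e1 := card_hit_le (z1 i)
    have e2 : ((pts (Z.f i) ∩ bk A).card : ℝ) ≤ ∑ j ∈ range K, (1 + (cnt (bk A) ω j 1 : ℝ)) := by
      have : ((pts (Z.f i) ∩ bk A).card : ℝ)
          ≤ ((∑ j ∈ range K, (1 + cnt (bk A) ω j 1) : ℕ) : ℝ) := by exact_mod_cast e1
      push_cast at this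
      exact this
    rw [sum_add_distrib, sum_const, card_range, nsmul_eq_mul, mul_one, nu7_split hK] at e2
    have f0 : ∀ j, j < 3 → (cnt (bk A) ω j 1 : ℝ) ≤ 2 * T := by
      intro j hj
      have := (by exact_mod_cast cnt_le (bk A) ω j 1 : (cnt (bk A) ω j 1 : ℝ) ≤ ω j).trans
        (hω3 j hj)
      linarith
    have e3 := f0 0 (by norm_num)
    have e4 := f0 1 (by norm_num)
    have e5 := f0 2 (by norm_num)
    have e6 : (K : ℝ) ≤ K * T := le_mul_of_one_le_right hK0 hT1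
    have e7 : ((pts (Z.f i) ∩ bk A).card : ℝ) ≤ (4 * (K * Cn) + K + 6) * T := by
      have : (4 * (K * Cn) + K + 6) * T = K * T + 4 * (K * (Cn * T)) + 6 * T := by ring
      linarith
    rw [← hT]
    refine e7.trans (mul_le_mul_of_nonneg_right ?_ hT0.le)
    have k1 : 0 ≤ (K : ℝ) * (d + 1) := by positivity
    have k2 : 0 ≤ 3 * (402 * (g : ℝ) + 402) * Ca := by positivity
    have k3 : 0 ≤ (K : ℝ) * ((2 + (400 + Cn) * g) * Ca) := by positivity
    have k4 : (K : ℝ) * ((2 + (400 + Cn) * g) * Ca + Cn) =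
      K * ((2 + (400 + Cn) * g) * Ca) + K * Cn := by ring
    rw [k4]
    linarith
  · -- domination
    refine z3.mono (inv_pos.2 hμ0).le (Real.exp_le_exp.2 ?_)
    rw [sum_add_distrib, sum_const, card_range, nsmul_eq_mul, nu7_split hK]
    have hmm : (m : ℝ) ^ (g + 5 + 1) = T * m := by rw [hT]; exact pow_succ _ _
    have hTm : T ≤ T * m := le_mul_of_one_le_right hT0.le hm1
    have f0 : ∀ j, j < 3 → sc (obs (bk A) ω j) (ω j) m (g - 1) a
        ≤ (402 * g + 402) * Ca * T := by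
      intro j hj
      refine (xt_sc_le ha (hω3 j hj)).trans ?_
      have q1 : ∀ i, i ≤ g → (m : ℝ) ^ g * a i ≤ Ca * T := by
        intro i hi
        have q2 : (m : ℝ) ^ g = (m : ℝ) ^ (g - i) * (m : ℝ) ^ i := by
          rw [← pow_add]
          congr 1
          omega
        have q3 : (m : ℝ) ^ g * a i = (m : ℝ) ^ (g - i) * a0 := by
          rw [q2, ← hai i]
          ring
        have q4 : (m : ℝ) ^ (g - i) * a0 ≤ (m : ℝ) ^ (g - i) * (Ca * m) :=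
          mul_le_mul_of_nonneg_left ha1 (by positivity)
        have q5 := mul_le_mul_of_nonneg_left (hpT (g - i) (by omega)) hCa
        have q6 : (m : ℝ) ^ (g - i) * (Ca * m) = Ca * (m * (m : ℝ) ^ (g - i)) := by ring
        rw [q3]
        linarith
      have q7 : ∀ i ∈ range (g - 1), a i * (400 * (m : ℝ) ^ (i + 1) + 2 * (m : ℝ) ^ g) ≤
          402 * Ca * T := by
        intro i hi
        have hi' := mem_range.1 hi
        have q8 := q1 i (by omega)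
        have q9 : (m : ℝ) ^ (i + 1) ≤ (m : ℝ) ^ g := pow_le_pow_right₀ hm1 (by omega)
        have q10 : a i * (m : ℝ) ^ (i + 1) ≤ a i * (m : ℝ) ^ g :=
          mul_le_mul_of_nonneg_left q9 (ha i)
        have q11 : a i * (400 * (m : ℝ) ^ (i + 1) + 2 * (m : ℝ) ^ g) =
            400 * (a i * (m : ℝ) ^ (i + 1)) + 2 * ((m : ℝ) ^ g * a i) := by ring
        have q12 : a i * (m : ℝ) ^ g = (m : ℝ) ^ g * a i := mul_comm _ _
        rw [q11]
        linarith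
      have q13 := sum_le_sum q7
      rw [sum_const, card_range, nsmul_eq_mul] at q13
      have q14 : ((g - 1 : ℕ) : ℝ) * (402 * Ca * T) ≤ g * (402 * Ca * T) :=
        mul_le_mul_of_nonneg_right (by exact_mod_cast Nat.sub_le g 1) (by positivity)
      have q15 := q1 (g - 1) (by omega)
      have q16 : (402 * (g : ℝ) + 402) * Ca * T =
          g * (402 * Ca * T) + 2 * (Ca * T) + 400 * (Ca * T) := by ring
      have q17 : 0 ≤ 400 * (Ca * T) := by positivity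
      rw [q16]
      linarith
    have e3 := f0 0 (by norm_num)
    have e4 := f0 1 (by norm_num)
    have e5 := f0 2 (by norm_num)
    have e6 : (K : ℝ) * Real.log (((m ^ d : ℕ) : ℝ) + 1) ≤ K * (d + 1) * (T * m) := by
      calc (K : ℝ) * Real.log (((m ^ d : ℕ) : ℝ) + 1) ≤ K * ((d + 1) * m) :=
            mul_le_mul_of_nonneg_left hLL hK0
        _ ≤ K * ((d + 1) * (T * m)) := mul_le_mul_of_nonneg_left
            (mul_le_mul_of_nonneg_left (le_mul_of_one_le_left hm0.le hT1) (by positivity)) hK0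
        _ = _ := by ring
    rw [hmm]
    have g1 : 0 ≤ 3 * (402 * (g : ℝ) + 402) * Ca + 4 * (K * ((2 + (400 + Cn) * g) * Ca)) := by
      positivity
    have g2 := mul_le_mul_of_nonneg_left hTm g1
    have g3 : 0 ≤ (4 * (K * Cn) + K + 6) * (T * m) := by positivity
    have g4 : (3 * (402 * (g : ℝ) + 402) * Ca + 4 * (K * ((2 + (400 + Cn) * g) * Ca + Cn)) +
        K * (d + 1) + K + 6) * (T * m) =
        (3 * (402 * (g : ℝ) + 402) * Ca + 4 * (K * ((2 + (400 + Cn) * g) * Ca))) * (T * m) +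
        K * (d + 1) * (T * m) + (4 * (K * Cn) + K + 6) * (T * m) := by ring
    rw [g4]
    linarith

/-- **Most staircases are cheap** as soon as free blocks of every scale `m ^ i`, `i < g`, exist. -/
theorem exit_of_blocks {μ : ℝ} (hμ : 1 ≤ μ) {d g : ℕ} (h1 : 2 * d + 60 ≤ 7 * g)
    (h2 : 2 * g + 10 ≤ d) {C₁ : ℝ} (hC₁ : 0 ≤ C₁)
    (hB : ∀ᶠ m : ℕ in atTop, Bad μ d g m → ∀ i, 1 ≤ i → i + 1 ≤ g →
      ∃ h l J B, Blk μ⁻¹ (m ^ d) (m ^ i) h l J B ∧ J ≤ C₁ * (m : ℝ) ∧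
        l ≤ 4 * m ^ (i + (d - 2 * g + 2))) :
    ∃ C : ℝ, 0 < C ∧ ∀ᶠ m : ℕ in atTop, Bad μ d g m → EX μ d g 5 m C := by
  have hlμ : 0 ≤ Real.log μ := Real.log_nonneg hμ
  obtain ⟨Ca, hCa⟩ : ∃ Ca : ℝ, Ca = Real.log μ + C₁ + (d + 1) := ⟨_, rfl⟩
  have hCa0 : 0 ≤ Ca := by rw [hCa]; positivity
  have hX : X0 d g + 4 ≤ 2 * g ∧ g + 1 ≤ X0 d g := by
    unfold X0
    constructor <;> omega
  refine ⟨3 * (402 * g + 402) * Ca + 4 * (KK d g * ((2 + (400 + 105200) * g) * Ca + 105200)) +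
    KK d g * (d + 1) + KK d g + 6, by positivity, ?_⟩
  filter_upwards [hB, eventually_ge_atTop 412,
    tendsto_natCast_atTop_atTop.eventually_ge_atTop (6432 * (KK d g * (g : ℝ)))]
    with m hBm hm hml hbad A _ _ hGe
  have hm1 : (1 : ℝ) ≤ m := by exact_mod_cast (by omega : 1 ≤ m)
  have hLL := log_succ_le (m := m) (d := d) (by omega)
  have hLL0 : 0 ≤ Real.log (((m ^ d : ℕ) : ℝ) + 1) := Real.log_nonneg (by
    have : (0 : ℝ) ≤ ((m ^ d : ℕ) : ℝ) := Nat.cast_nonneg _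
    linarith)
  have hCm : 0 ≤ C₁ * (m : ℝ) := by positivity
  have hM : ∀ y, g + 1 ≤ y → y ≤ X0 d g →
      nn A (D A) (m ^ (y + 1)) ≤ m ^ (2 * g) * m ^ (y + 1) := fun y hy1 hy2 =>
    (hGe _ (mem_image.2 ⟨y + 1, mem_range.2 (by omega), rfl⟩)).le
  have hmT : ∀ e, e ≤ g + 5 → (m : ℝ) ^ e ≤ (m : ℝ) ^ (g + 5) := fun e he =>
    pow_le_pow_right₀ hm1 he
  refine xt_core hμ hm h1 h2 hCa0 (by norm_num : (0 : ℝ) ≤ 105200) hml
    (a0 := Real.log μ + (C₁ * m + Real.log (((m ^ d : ℕ) : ℝ) + 1))) (by positivity) ?_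
    (seg9 hμ (by omega) hC₁ le_rfl (hBm hbad)) A (fun y i hy1 hy2 hi => ?_)
    (fun y hy1 hy2 => ?_)
  · rw [hCa]
    have h3 : Real.log μ ≤ Real.log μ * m := le_mul_of_one_le_right hlμ hm1
    linarith
  · have h3 := cc9 (by omega) (by omega) hy1 (hM y hy1 hy2) (i := i) (m := m) (g := g)
    have h4 : (m : ℝ) / (m : ℝ) ^ i * (105200 * (m : ℝ) ^ (g + i + 3)) =
        105200 * (m : ℝ) ^ (g + 4) := by
      have : (m : ℝ) ^ (g + i + 3) = (m : ℝ) ^ (g + 3) * (m : ℝ) ^ i := by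
        rw [← pow_add]
        congr 1
        omega
      have h5 : (m : ℝ) ^ i ≠ 0 := by positivity
      rw [this, pow_succ (m : ℝ) (g + 3)]
      field_simp
    have h6 := mul_le_mul_of_nonneg_left h3
      (by positivity : (0 : ℝ) ≤ (m : ℝ) / (m : ℝ) ^ i)
    have h7 := hmT (g + 4) (by omega)
    linarith
  · have h3 := cc9_one (by omega) hy1 (hM y hy1 hy2) (m := m) (g := g)
    have h7 := hmT (g + 2) (by omega)
    have h8 : 0 ≤ (m : ℝ) ^ (g + 5) := by positivity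
    linarith

end Pool.Agent.R19
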