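import Pool.Agent.R19.FrDefs

/-! Free blocks: row fr1 (doubly extreme walks). -/

set_option autoImplicit false

namespace Pool.Agent.R19

open Finset
open scoped Classical
open Pool.Agent.MP_794e6e_pr Pool.Agent.MP_794e6e_ex

-- BEGIN fr1 (DX)
private theorem fr1_sym {j : Fin 3} {f : Pt →+ ℤ} (hf : f = ev j ∨ f = -ev j) :
    ∃ S : Sy, ∀ v, S.A v 0 = f v := by
  rcases hf with rfl | rfl
  · exact ⟨perm (Equiv.swap 0 j), fun v => by simp⟩
  · exact ⟨(refl 0).comp (perm (Equiv.swap 0 j)), fun v => by simp [Sy.comp]⟩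

private theorem fr1_step {j k : Fin 3} (hjk : j ≠ k) {f g : Pt →+ ℤ} (hf : f = ev j ∨ f = -ev j)
    (hg : g = ev k ∨ g = -ev k) : ∃ e : Step, g (vec e) = 1 ∧ f (vec e) = 0 := by
  rcases hg with rfl | rfl
  · refine ⟨(k, true), by simp [vec], ?_⟩
    rcases hf with rfl | rfl <;> simp [vec, Pi.single_eq_of_ne hjk]
  · refine ⟨(k, false), by simp [vec], ?_⟩
    rcases hf with rfl | rfl <;> simp [vec, Pi.single_eq_of_ne hjk]

private theorem fr1_bridge {μ : ℝ} (hμ : 1 ≤ μ) (hb : ∀ n, ((brs n).card : ℝ) ≤ μ ^ n)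
    {f : Pt →+ ℤ} (S : Sy) (hS : ∀ v, S.A v 0 = f v) (L s : ℕ) :
    ∑ w ∈ (wle L).filter (fun w => saw w ∧ HiF f w ∧ LoF f w ∧ f (D w) = (s : ℤ)),
      μ⁻¹ ^ w.length ≤ 1 := by
  refine (sum_le_of_inj (fun w : Word => w.map S.g) ?_ ?_ ?_ ?_).trans (Bs_le_one hμ hb L s)
  · intro w hw
    rw [mem_filter, mem_wle] at hw
    obtain ⟨h1, h2, h3, h4, h5⟩ := hw
    rw [mem_filter, mem_wle]
    refine ⟨by rw [List.length_map]; exact h1, ⟨h2.map S, ?_, ?_⟩, ?_⟩
    · intro a u hau
      obtain ⟨a', u', h6, h7, h8⟩ := List.map_eq_append_iff.1 hau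
      rw [← h8, Sy.D_map, hS]
      exact h4 a' u' h6
    · intro u b hub hne
      obtain ⟨u', b', h6, h7, h8⟩ := List.map_eq_append_iff.1 hub
      rw [← h7, Sy.D_map, hS]
      refine h3 u' b' h6 ?_
      intro h0
      apply hne
      rw [← h7, h0]
      rfl
    · rw [Sy.D_map, hS]
      exact h5
  · intro w _ w' _ h
    exact List.map_injective_iff.2 S.ginj h
  · intro w _
    simp
  · intro w _
    have : 0 ≤ μ⁻¹ := by positivity
    positivity

/-- all initial pieces have height less than twice the final height -/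
private def fr1_up (f : Pt →+ ℤ) (w : Word) : Prop :=
  ∀ a u : Word, w = a ++ u → f (D a) < 2 * f (D w)

private theorem fr1_saw_rev {w : Word} (h : saw w) : saw w.reverse := by
  intro a u b hab hne hcon
  have h1 : w = b.reverse ++ (u.reverse ++ a.reverse) := by
    have := congrArg List.reverse hab
    simpa using this
  exact h _ _ _ h1 (by simpa using hne) (by rw [D_reverse]; exact hcon)

private theorem fr1_rev {v c b : Word} (h : v.reverse = c ++ b) : v = b.reverse ++ c.reverse := by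
  have := congrArg List.reverse h
  simpa using this

private theorem fr1_saw_one (e : Step) : saw [e] := by
  intro a u b hab hne hcon
  rcases List.cons_eq_append_iff.1 hab with ⟨h1, h2⟩ | ⟨a', h1, h2⟩
  · rcases List.append_eq_cons_iff.1 h2 with ⟨h3, _⟩ | ⟨u', h3, h4⟩
    · exact hne h3
    · have h5 := List.append_eq_nil_iff.1 h4.symm
      rw [h3, h5.1] at hcon
      rw [D_singleton] at hcon
      exact vec_ne_zero e hcon
  · have h5 := List.append_eq_nil_iff.1 h2.symm
    exact hne (List.append_eq_nil_iff.1 h5.2).1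

private theorem fr1_hi {g : Pt →+ ℤ} {e : Step} (he : g (vec e) = 1) {v : Word}
    (hv : LoF g v) {u d : Word} (h : e :: v.reverse = u ++ d) (hne : u ≠ []) : 0 < g (D u) := by
  rcases List.cons_eq_append_iff.1 h with ⟨h1, _⟩ | ⟨u', h1, h2⟩
  · exact absurd h1 hne
  · have h3 := hv _ _ (fr1_rev h2)
    rw [D_reverse] at h3
    rw [h1, D_cons, map_add, he]
    linarith

private theorem fr1_saw {g : Pt →+ ℤ} {e : Step} (he : g (vec e) = 1) {w v : Word}
    (hw : saw w) (hwg : LoF g w) (hv : saw v) (hvg : LoF g v) :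
    saw (w ++ (e :: v.reverse)) := by
  have h1 : saw (v ++ [e]) := by
    refine saw.append_of g hv (fr1_saw_one e) hvg ?_
    intro u d hud hne
    rcases List.cons_eq_append_iff.1 hud with ⟨h1, _⟩ | ⟨u', h1, h2⟩
    · exact absurd h1 hne
    · have h5 := List.append_eq_nil_iff.1 h2.symm
      rw [h1, h5.1, D_singleton, he]
      norm_num
  have h2 : saw (e :: v.reverse) := by
    have := fr1_saw_rev h1
    simpa using this
  exact saw.append_of g hw h2 hwg fun u d hud hne => fr1_hi he hvg hud hne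

private theorem fr1_join_hi {f : Pt →+ ℤ} {e : Step} (he : f (vec e) = 0) {w v : Word} {h : ℕ}
    (hw : HiF f w) (hwh : f (D w) = (h : ℤ)) (hv : fr1_up f v) (hvh : f (D v) = (h : ℤ))
    (hpos : 0 < h) : HiF f (w ++ (e :: v.reverse)) := by
  intro u b hub hne
  rcases List.append_eq_append_iff.1 hub with ⟨c, h1, h2⟩ | ⟨c, h1, h2⟩
  · rcases List.cons_eq_append_iff.1 h2 with ⟨h3, _⟩ | ⟨c', h3, h4⟩
    · rw [h1, h3, List.append_nil, hwh]
      exact_mod_cast hpos
    · have h5 := fr1_rev h4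
      have h6 := hv _ _ h5
      have h7 : f (D v) = f (D b.reverse) + f (D c'.reverse) := by
        conv_lhs => rw [h5]
        rw [D_append, map_add]
      rw [D_reverse, D_reverse] at h7
      rw [D_reverse] at h6
      rw [h1, h3, D_append, D_cons, map_add, map_add, he, hwh]
      rw [hvh] at h6 h7
      linarith
  · exact hw u c h1 hne

private theorem fr1_join_lo {f : Pt →+ ℤ} {e : Step} (he : f (vec e) = 0) {w v : Word} {h : ℕ}
    (hw : fr1_up f w) (hwh : f (D w) = (h : ℤ)) (hv : HiF f v) (hvh : f (D v) = (h : ℤ)) :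
    LoF f (w ++ (e :: v.reverse)) := by
  intro a u hau
  rcases List.append_eq_append_iff.1 hau with ⟨c, h1, h2⟩ | ⟨c, h1, h2⟩
  · rcases List.cons_eq_append_iff.1 h2 with ⟨_, h4⟩ | ⟨c', h3, h4⟩
    · rw [h4, D_cons, map_add, he, D_reverse, hvh]
      positivity
    · have h5 := fr1_rev h4
      by_cases hu : u = []
      · rw [hu]; simp
      · have h6 := hv _ _ h5 (by simpa using hu)
        rw [D_reverse] at h6
        exact h6.le
  · have h5 := hw a c h1
    have h7 : f (D w) = f (D a) + f (D c) := by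
      conv_lhs => rw [h1]
      rw [D_append, map_add]
    rw [h2, D_append, D_cons, map_add, map_add, he, D_reverse, hvh]
    rw [hwh] at h5 h7
    linarith

private theorem fr1_mass {μ : ℝ} (hμ : 1 ≤ μ) (hb : ∀ n, ((brs n).card : ℝ) ≤ μ ^ n)
    {j k : Fin 3} (hjk : j ≠ k) (L h : ℕ) {f g : Pt →+ ℤ} (hf : f = ev j ∨ f = -ev j)
    (hg : g = ev k ∨ g = -ev k) :
    ∑ w ∈ (wle L).filter (fun w => (saw w ∧ HiF f w ∧ LoF g w) ∧ fr1_up f w ∧ f (D w) = (h : ℤ)),
      μ⁻¹ ^ w.length ≤ ((L : ℝ) + 1) * μ := by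
  obtain ⟨S, hS⟩ := fr1_sym hf
  obtain ⟨e, he1, he2⟩ := fr1_step hjk hf hg
  have hμ0 : 0 < μ := by linarith
  have hx : 0 ≤ μ⁻¹ := by positivity
  set C := (wle L).filter
    (fun w => (saw w ∧ HiF f w ∧ LoF g w) ∧ fr1_up f w ∧ f (D w) = (h : ℤ)) with hC
  set u := ∑ w ∈ C, μ⁻¹ ^ w.length with hu
  have hprod : u * u * μ⁻¹ ≤ (L : ℝ) + 1 := by
    have h1 : u * u * μ⁻¹ = ∑ p ∈ C ×ˢ C, μ⁻¹ ^ (p.1.length + (p.2.length + 1)) := by
      rw [hu, sum_mul_sum, ← sum_product', sum_mul]
      refine sum_congr rfl fun p _ => ?_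
      rw [pow_add, pow_add, pow_one]
      ring
    rw [h1]
    set B := (wle (2 * L + 1)).filter
      (fun w => saw w ∧ HiF f w ∧ LoF f w ∧ f (D w) = ((2 * h : ℕ) : ℤ)) with hB
    have h2 : ∑ p ∈ C ×ˢ C, μ⁻¹ ^ (p.1.length + (p.2.length + 1))
        ≤ ∑ q ∈ range (L + 1) ×ˢ B, μ⁻¹ ^ q.2.length := by
      refine sum_le_of_inj (fun p : Word × Word => (p.1.length, p.1 ++ (e :: p.2.reverse)))
        ?_ ?_ ?_ ?_
      · intro p hp
        rw [mem_product] at hp
        obtain ⟨hp1, hp2⟩ := hp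
        rw [hC, mem_filter, mem_wle] at hp1 hp2
        obtain ⟨a1, ⟨a2, a3, a4⟩, a5, a6⟩ := hp1
        obtain ⟨b1, ⟨b2, b3, b4⟩, b5, b6⟩ := hp2
        have hpos : 0 < h := by
          have := a5 [] p.1 rfl
          rw [D_nil, map_zero, a6] at this
          have h9 : (0 : ℤ) < (h : ℤ) := by linarith
          exact_mod_cast h9
        rw [mem_product, mem_range]
        refine ⟨by show p.1.length < L + 1; omega, ?_⟩
        rw [hB, mem_filter, mem_wle]
        refine ⟨?_, fr1_saw he1 a2 a4 b2 b4, fr1_join_hi he2 a3 a6 b5 b6 hpos,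
          fr1_join_lo he2 a5 a6 b3 b6, ?_⟩
        · simp only [List.length_append, List.length_cons, List.length_reverse]
          omega
        · show f (D (p.1 ++ (e :: p.2.reverse))) = _
          rw [D_append, D_cons, map_add, map_add, he2, D_reverse, a6, b6]
          push_cast
          ring
      · intro p _ q _ hpq
        simp only [Prod.mk.injEq] at hpq
        have h3 := List.append_inj hpq.2 hpq.1
        have h4 := (List.cons.inj h3.2).2
        exact Prod.ext h3.1 (List.reverse_injective h4)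
      · intro p _
        simp only [List.length_append, List.length_cons, List.length_reverse]
        exact le_rfl
      · intro q _
        positivity
    refine h2.trans ?_
    rw [sum_product]
    simp only [sum_const, card_range, nsmul_eq_mul]
    have h3 := fr1_bridge hμ hb S hS (2 * L + 1) (2 * h)
    rw [← hB] at h3
    have h4 : (0 : ℝ) ≤ ((L + 1 : ℕ) : ℝ) := by positivity
    have h5 := mul_le_mul_of_nonneg_left h3 h4
    push_cast at h5 ⊢
    linarith
  have hu0 : 0 ≤ u := sum_nonneg fun w _ => by positivity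
  by_contra hcon
  push Not at hcon
  have h1 : u * u ≤ ((L : ℝ) + 1) * μ := by
    have h2 := mul_le_mul_of_nonneg_right hprod hμ0.le
    have h3 : u * u * μ⁻¹ * μ = u * u := by
      rw [mul_assoc, inv_mul_cancel₀ hμ0.ne', mul_one]
    rw [h3] at h2
    exact h2
  have h2 : (1 : ℝ) ≤ ((L : ℝ) + 1) * μ := by
    have : (0 : ℝ) ≤ L := by positivity
    nlinarith
  nlinarith

private theorem fr1_fD {j : Fin 3} {f : Pt →+ ℤ} (hf : f = ev j ∨ f = -ev j) (w : Word) :
    f (D w) ≤ w.length := by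
  have h := abs_le.1 (abs_D_le w j)
  rcases hf with rfl | rfl
  · exact h.2
  · show - (D w j) ≤ _
    linarith [h.1]

private theorem fr1_refl {j k : Fin 3} (hjk : j ≠ k) {f g : Pt →+ ℤ} (hf : f = ev j ∨ f = -ev j)
    (hg : g = ev k ∨ g = -ev k) (w : Word) :
    f (D (w.map (refl j).g)) = - f (D w) ∧ g (D (w.map (refl j).g)) = g (D w) := by
  have h1 : D (w.map (refl j).g) j = - D w j := by rw [D_refl, if_pos rfl]
  have h2 : D (w.map (refl j).g) k = D w k := by rw [D_refl, if_neg (Ne.symm hjk)]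
  constructor
  · rcases hf with rfl | rfl
    · exact h1
    · show - (D (w.map (refl j).g) j) = - (- (D w j))
      rw [h1]
  · rcases hg with rfl | rfl
    · exact h2
    · show - (D (w.map (refl j).g) k) = - (D w k)
      rw [h2]

/-- unfolding at the last maximum -/
private theorem fr1_unfold {μ : ℝ} (hμ : 1 ≤ μ) {j k : Fin 3} (hjk : j ≠ k) (L : ℕ)
    {f g : Pt →+ ℤ} (hf : f = ev j ∨ f = -ev j) (hg : g = ev k ∨ g = -ev k) :
    ∑ w ∈ (wle L).filter (fun w => (saw w ∧ HiF f w ∧ LoF g w) ∧ w ≠ []), μ⁻¹ ^ w.length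
      ≤ ((L : ℝ) + 1) *
        ∑ w ∈ (wle L).filter (fun w => (saw w ∧ HiF f w ∧ LoF g w) ∧ fr1_up f w),
          μ⁻¹ ^ w.length := by
  have hx : 0 ≤ μ⁻¹ := by positivity
  choose A B hAB hA hB using exists_last_max f
  set U := (wle L).filter (fun w => (saw w ∧ HiF f w ∧ LoF g w) ∧ fr1_up f w) with hU
  have h0 : ((L : ℝ) + 1) * ∑ w ∈ U, μ⁻¹ ^ w.length
      = ∑ q ∈ range (L + 1) ×ˢ U, μ⁻¹ ^ q.2.length := by
    rw [sum_product]
    simp only [sum_const, card_range, nsmul_eq_mul]
    push_cast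
    ring
  rw [h0]
  refine sum_le_of_inj (fun w : Word => ((A w).length, A w ++ (B w).map (refl j).g)) ?_ ?_ ?_ ?_
  · intro w hw
    rw [mem_filter, mem_wle] at hw
    obtain ⟨h1, ⟨h2, h3, h4⟩, h5⟩ := hw
    have hlen := congrArg List.length (hAB w)
    rw [List.length_append] at hlen
    have hsw := h2
    rw [hAB w] at hsw
    have hDw : f (D w) = f (D (A w)) + f (D (B w)) := by
      conv_lhs => rw [hAB w]
      rw [D_append, map_add]
    have hpos : 0 < f (D w) := h3 w [] (by simp) h5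
    have hA0 : ∀ c e : Word, A w = c ++ e → f (D c) ≤ f (D (A w)) := by
      intro c e hce
      have := hA w c e hce
      rw [hce, D_append, map_add]
      linarith
    have hB0 : f (D (B w)) ≤ 0 := by
      by_cases hne : B w = []
      · rw [hne]; simp
      · exact (hB w (B w) [] (by simp) hne).le
    rw [mem_product, mem_range]
    refine ⟨by show (A w).length < L + 1; omega, ?_⟩
    rw [hU, mem_filter, mem_wle]
    refine ⟨by show (A w ++ (B w).map (refl j).g).length ≤ L; simp only [List.length_append, List.length_map]; omega, ⟨?_, ?_, ?_⟩, ?_⟩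
    · refine saw.append_of f hsw.left (hsw.right.map (refl j)) (hA w) ?_
      intro u d hud hne
      obtain ⟨u', d', h6, h7, h8⟩ := List.map_eq_append_iff.1 hud
      have hne' : u' ≠ [] := by
        intro h9; apply hne; rw [← h7, h9]; rfl
      rw [← h7, (fr1_refl hjk hf hg u').1]
      have := hB w u' d' h6 hne'
      linarith
    · intro u b hub hne
      rcases List.append_eq_append_iff.1 hub with ⟨c, h6, h7⟩ | ⟨c, h6, h7⟩
      · obtain ⟨c', b', h8, h9, h10⟩ := List.map_eq_append_iff.1 h7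
        rw [h6, D_append, map_add, ← h9, (fr1_refl hjk hf hg c').1]
        by_cases hc : c' = []
        · rw [hc, D_nil, map_zero, neg_zero, add_zero]
          linarith
        · have := hB w c' b' h8 hc
          linarith
      · have h8 : w = u ++ (c ++ B w) := by
          rw [← List.append_assoc, ← h6]; exact hAB w
        exact h3 _ _ h8 hne
    · intro a u hau
      rcases List.append_eq_append_iff.1 hau with ⟨c, h6, h7⟩ | ⟨c, h6, h7⟩
      · obtain ⟨c', u', h8, h9, h10⟩ := List.map_eq_append_iff.1 h7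
        rw [← h10, (fr1_refl hjk hf hg u').2]
        refine h4 (A w ++ c') u' ?_
        rw [List.append_assoc, ← h8]
        exact hAB w
      · rw [h7, D_append, map_add, (fr1_refl hjk hf hg (B w)).2, ← map_add, ← D_append]
        refine h4 a (c ++ B w) ?_
        rw [← List.append_assoc, ← h6]
        exact hAB w
    · intro a u hau
      have hD' : f (D (A w ++ (B w).map (refl j).g)) = f (D (A w)) - f (D (B w)) := by
        rw [D_append, map_add, (fr1_refl hjk hf hg (B w)).1]
        ring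
      rw [hD']
      rcases List.append_eq_append_iff.1 hau with ⟨c, h6, h7⟩ | ⟨c, h6, h7⟩
      · obtain ⟨c', u', h8, h9, h10⟩ := List.map_eq_append_iff.1 h7
        rw [h6, D_append, map_add, ← h9, (fr1_refl hjk hf hg c').1]
        have h11 : w = (A w ++ c') ++ u' := by
          rw [List.append_assoc, ← h8]; exact hAB w
        by_cases hc : A w ++ c' = []
        · have h12 := List.append_eq_nil_iff.1 hc
          rw [h12.2, D_nil, map_zero]
          linarith
        · have h12 := h3 _ _ h11 hc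
          rw [D_append, map_add] at h12
          linarith
      · have h8 := hA0 a c h6
        linarith
  · intro w _ w' _ heq
    simp only [Prod.mk.injEq] at heq
    have h3 := List.append_inj heq.2 heq.1
    have h1 : B w = B w' := by
      have := congrArg (List.map (refl j).g) h3.2
      rwa [refl_refl, refl_refl] at this
    rw [hAB w, hAB w', h3.1, h1]
  · intro w _
    simp only [List.length_append, List.length_map]
    rw [← List.length_append, ← hAB w]
  · intro q _
    positivity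

/-- DOUBLY EXTREME WALKS. By symmetry (`perm (swap 0 j)`, `refl`) `f = ev j`, `g = ev k`. Class up
of height `h`: `D w j = h`, all initial pieces have height `≤ 2 h - 1`: `(w, v) ↦ w ++ (e_k :: v.reverse)`
is injective for given `w.length`, and it is a `j`-bridge of height `2 h` (`saw.append_of (ev k)`;
`saw` of `e_k :: v.reverse` from `saw.append_of (ev k)` for `v ++ [e_k]`, reversed), `Bs_le_one`. So
the mass `u` of the class satisfies `u ^ 2 * μ⁻¹ ≤ L + 1`, `u ≤ (L + 1) μ`. Other nonempty words: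
`exists_last_max (ev j) w`, `w = a ++ b ↦ a ++ b.map (refl j).g` is up, injective for given
`a.length`. -/
theorem dx {μ : ℝ} (hμ : 1 ≤ μ) (hb : ∀ n, ((brs n).card : ℝ) ≤ μ ^ n) {j k : Fin 3} (hjk : j ≠ k)
    (L : ℕ) {f g : Pt →+ ℤ} (hf : f = ev j ∨ f = -ev j) (hg : g = ev k ∨ g = -ev k) :
    ∑ w ∈ (wle L).filter (fun w => saw w ∧ HiF f w ∧ LoF g w), μ⁻¹ ^ w.length
      ≤ 2 * μ * ((L : ℝ) + 2) ^ 3 := by
  have hx : 0 ≤ μ⁻¹ := by positivity
  have hL : (0 : ℝ) ≤ L := by positivity
  set C := (wle L).filter (fun w => saw w ∧ HiF f w ∧ LoF g w) with hC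
  set C' := (wle L).filter (fun w => (saw w ∧ HiF f w ∧ LoF g w) ∧ w ≠ []) with hC'
  set U := (wle L).filter (fun w => (saw w ∧ HiF f w ∧ LoF g w) ∧ fr1_up f w) with hU
  have h1 : ∑ w ∈ C, μ⁻¹ ^ w.length ≤ 1 + ∑ w ∈ C', μ⁻¹ ^ w.length := by
    have hsub : C ⊆ insert ([] : Word) C' := by
      intro w hw
      rw [hC, mem_filter] at hw
      rw [mem_insert]
      by_cases hne : w = []
      · exact Or.inl hne
      · refine Or.inr ?_
        rw [hC', mem_filter]
        exact ⟨hw.1, hw.2, hne⟩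
    refine (sum_le_sum_of_subset_of_nonneg hsub fun w _ _ => by positivity).trans ?_
    rw [sum_insert]
    · simp
    · rw [hC', mem_filter]
      intro hcon
      exact hcon.2.2 rfl
  have h2 : ∑ w ∈ C', μ⁻¹ ^ w.length ≤ ((L : ℝ) + 1) * ∑ w ∈ U, μ⁻¹ ^ w.length :=
    fr1_unfold hμ hjk L hf hg
  have h3 : ∑ w ∈ U, μ⁻¹ ^ w.length ≤ ((L : ℝ) + 1) * (((L : ℝ) + 1) * μ) := by
    have hmaps : ∀ w ∈ U, (f (D w)).toNat ∈ range (L + 1) := by
      intro w hw
      rw [hU, mem_filter, mem_wle] at hw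
      have h4 := fr1_fD hf w
      rw [mem_range]
      omega
    rw [← sum_fiberwise_of_maps_to hmaps]
    refine (sum_le_sum (g := fun _ => ((L : ℝ) + 1) * μ) fun h _ => ?_).trans ?_
    · refine (sum_le_sum_of_subset_of_nonneg ?_ fun w _ _ => by positivity).trans
        (fr1_mass hμ hb hjk L h hf hg)
      intro w hw
      rw [mem_filter, hU, mem_filter] at hw
      obtain ⟨⟨h4, h5, h6⟩, h7⟩ := hw
      rw [mem_filter]
      refine ⟨h4, h5, h6, ?_⟩
      have h8 := h6 [] w rfl
      rw [D_nil, map_zero] at h8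
      omega
    · simp only [sum_const, card_range, nsmul_eq_mul]
      push_cast
      exact le_rfl
  have h4 : ∑ w ∈ C', μ⁻¹ ^ w.length ≤ ((L : ℝ) + 1) * (((L : ℝ) + 1) * (((L : ℝ) + 1) * μ)) :=
    h2.trans (mul_le_mul_of_nonneg_left h3 (by positivity))
  have h5 : ((L : ℝ) + 1) ^ 3 ≤ ((L : ℝ) + 2) ^ 3 := by gcongr; linarith
  have h6 : (1 : ℝ) ≤ ((L : ℝ) + 2) ^ 3 := one_le_pow₀ (by linarith)
  have h7 : ((L : ℝ) + 1) * (((L : ℝ) + 1) * (((L : ℝ) + 1) * μ)) = μ * ((L : ℝ) + 1) ^ 3 := by ring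
  rw [h7] at h4
  have h8 : μ * ((L : ℝ) + 1) ^ 3 ≤ μ * ((L : ℝ) + 2) ^ 3 :=
    mul_le_mul_of_nonneg_left h5 (by linarith)
  have h9 : (1 : ℝ) ≤ μ * ((L : ℝ) + 2) ^ 3 := by nlinarith
  linarith
-- END fr1

end Pool.Agent.R19
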