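import Pool.Agent.R19.FrDefs

/-! Free blocks: row fr2 (EX). -/

namespace Pool.Agent.R19

open Finset
open scoped Classical
open Pool.Agent.MP_794e6e_pr Pool.Agent.MP_794e6e_ex

-- BEGIN fr2 (EX)
/-- the value at the last maximum is the largest one -/
private theorem fr2_pref (f : Pt →+ ℤ) {A B : Word}
    (hA : ∀ c e : Word, A = c ++ e → 0 ≤ f (D e))
    (hB : ∀ u e : Word, B = u ++ e → u ≠ [] → f (D u) < 0)
    {c e : Word} (h : A ++ B = c ++ e) : f (D c) ≤ f (D A) := by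
  rcases List.append_eq_append_iff.1 h with ⟨t, h1, h2⟩ | ⟨t, h1, h2⟩
  · rw [h1, D_append, map_add]
    by_cases ht : t = []
    · subst ht; simp
    · have := hB t e h2 ht
      linarith
  · rw [h1, D_append, map_add]
    have := hA c t h1
    linarith

/-- last minimum before the last maximum of `f` -/
private theorem fr2_core (f : Pt →+ ℤ) {w A m B : Word} (hw : Br w) (hwe : w = A ++ (m ++ B))
    (hA : ∀ c e : Word, A = c ++ e → 0 ≤ (-f) (D e))
    (hmB : ∀ u e : Word, m ++ B = u ++ e → u ≠ [] → (-f) (D u) < 0)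
    (hAm : ∀ c e : Word, A ++ m = c ++ e → 0 ≤ f (D e))
    (hB : ∀ u e : Word, B = u ++ e → u ≠ [] → f (D u) < 0)
    {ρ : ℕ} (hρ : ∃ a u b : Word, w = a ++ (u ++ b) ∧ (ρ : ℤ) < |f (D u)|) :
    HiF (ev 0) A ∧ LoF (-f) A ∧ HiF f m ∧ LoF f m ∧ (ρ : ℤ) < f (D m) ∧
      HiF (-f) B ∧ LoF (ev 0) B := by
  refine ⟨?_, hA, ?_, ?_, ?_, ?_, ?_⟩
  · intro u b hub hu
    exact hw.hi u (b ++ (m ++ B)) (by rw [hwe, hub, List.append_assoc]) hu
  · intro u b hub hu
    have := hmB u (b ++ B) (by rw [hub, List.append_assoc]) hu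
    rw [AddMonoidHom.neg_apply] at this
    linarith
  · intro a u hau
    exact hAm (A ++ a) u (by rw [hau, List.append_assoc])
  · obtain ⟨a, u, b, h1, h2⟩ := hρ
    have e1 : A ++ (m ++ B) = a ++ (u ++ b) := by rw [← hwe, h1]
    have e2 : (A ++ m) ++ B = a ++ (u ++ b) := by rw [List.append_assoc, e1]
    have e3 : A ++ (m ++ B) = (a ++ u) ++ b := by rw [List.append_assoc, e1]
    have e4 : (A ++ m) ++ B = (a ++ u) ++ b := by rw [List.append_assoc, e3]
    have l1 := fr2_pref (-f) hA hmB e1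
    have l2 := fr2_pref f hAm hB e2
    have l3 := fr2_pref (-f) hA hmB e3
    have l4 := fr2_pref f hAm hB e4
    simp only [AddMonoidHom.neg_apply, D_append, map_add] at l1 l2 l3 l4
    rcases abs_cases (f (D u)) with ⟨h3, _⟩ | ⟨h3, _⟩ <;> rw [h3] at h2 <;> linarith
  · intro u b hub hu
    have := hB u b hub hu
    rw [AddMonoidHom.neg_apply]
    linarith
  · intro a u hau
    exact hw.lo (A ++ (m ++ a)) u (by rw [hwe, hau]; simp)

/-- CHANGE OF DIRECTION. `p` = last minimum, `q` = last maximum of the coordinate `k`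
(`exists_last_max (-ev k) w`, `exists_last_max (ev k) w`); `g = ev k` if `p ≤ q`, else
`g = -ev k`. -/
theorem ex_word {w : Word} (hw : Br w) {k : Fin 3} (hk : k ≠ 0) {ρ : ℕ} (hρ : ¬ RG {k} ρ w) :
    ∃ (a b c : Word) (g : Pt →+ ℤ), w = a ++ (b ++ c) ∧ (g = ev k ∨ g = -ev k) ∧
      HiF (ev 0) a ∧ LoF (-g) a ∧ HiF g b ∧ LoF g b ∧ (ρ : ℤ) < g (D b) ∧
      HiF (-g) c ∧ LoF (ev 0) c := by
  have hρ' : ∃ a u b : Word, w = a ++ (u ++ b) ∧ (ρ : ℤ) < |ev k (D u)| := by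
    unfold RG at hρ
    push Not at hρ
    obtain ⟨a, u, b, h1, i, hi, h2⟩ := hρ
    rw [Finset.mem_singleton] at hi
    subst hi
    exact ⟨a, u, b, h1, h2⟩
  have hρ'' : ∃ a u b : Word, w = a ++ (u ++ b) ∧ (ρ : ℤ) < |(-ev k) (D u)| := by
    obtain ⟨a, u, b, h1, h2⟩ := hρ'
    exact ⟨a, u, b, h1, by rw [AddMonoidHom.neg_apply, abs_neg]; exact h2⟩
  obtain ⟨A, B, h1, hA, hB⟩ := exists_last_max (ev k) w
  obtain ⟨A', B', h1', hA', hB'⟩ := exists_last_max (-ev k) w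
  rcases List.append_eq_append_iff.1 (h1'.symm.trans h1) with ⟨t, h2, h3⟩ | ⟨t, h2, h3⟩
  · -- A = A' ++ t, B' = t ++ B
    subst h2 h3
    exact ⟨A', t, B, ev k, h1', Or.inl rfl,
      fr2_core (ev k) hw h1' hA' hB' hA hB hρ'⟩
  · -- A' = A ++ t, B = t ++ B'
    subst h2 h3
    refine ⟨A, t, B', -ev k, h1, Or.inr rfl,
      fr2_core (-ev k) hw h1 ?_ ?_ hA' hB' hρ''⟩
    · rw [neg_neg]; exact hA
    · rw [neg_neg]; exact hB
-- END fr2

end Pool.Agent.R19
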