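import Pool.Agent.R19.FrDefs

/-! Free blocks: the four rows (fr1 - fr4). -/

namespace Pool.Agent.R19

open Finset
open scoped Classical
open Pool.Agent.MP_794e6e_pr Pool.Agent.MP_794e6e_ex

-- BEGIN fr3 (SPLIT, words)
/-- the height at the time `k` -/
def fr3_ht (w : Word) (k : ℕ) : ℤ := D (w.take k) 0

theorem fr3_ht_zero (w : Word) : fr3_ht w 0 = 0 := by simp [fr3_ht]

theorem fr3_ht_len (w : Word) : fr3_ht w w.length = D w 0 := by simp [fr3_ht]

theorem fr3_ht_left (a b : Word) : fr3_ht (a ++ b) a.length = D a 0 := by simp [fr3_ht]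

theorem fr3_ht_mid (a u b : Word) : fr3_ht (a ++ (u ++ b)) (a.length + u.length) = D a 0 + D u 0 := by
  unfold fr3_ht
  have h : (a ++ (u ++ b)).take (a.length + u.length) = a ++ u := by
    rw [List.take_append]; simp
  rw [h, D_append, Pi.add_apply]

theorem fr3_ht_step (w : Word) {k : ℕ} (h : k < w.length) : |fr3_ht w (k + 1) - fr3_ht w k| ≤ 1 := by
  unfold fr3_ht
  rw [List.take_add_one, D_append]
  simp only [List.getElem?_eq_getElem h, Option.toList_some, D_singleton, Pi.add_apply,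
    add_sub_cancel_left]
  exact abs_vec_le _ _

/-- fr3_three factors of a bridge, cut at the times `i` and `j` -/
theorem fr3_three {w : Word} (hw : Br w) {i j : ℕ} (hij : i ≤ j) (hj : j ≤ w.length)
    (h1 : ∀ k ≤ i, fr3_ht w k ≤ fr3_ht w i) (h2 : ∀ k, i < k → k ≤ j → fr3_ht w k < fr3_ht w i)
    (h3 : ∀ k, i ≤ k → k ≤ j → fr3_ht w j ≤ fr3_ht w k)
    (h4 : ∀ k, j < k → k ≤ w.length → fr3_ht w j < fr3_ht w k) :
    ∃ a b c : Word, w = a ++ (b.map (refl 0).g ++ c) ∧ Br a ∧ Br b ∧ Br c ∧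
      D a 0 = fr3_ht w i ∧ D b 0 = fr3_ht w i - fr3_ht w j ∧ D c 0 = D w 0 - fr3_ht w j := by
  obtain ⟨a, b, c, rfl, rfl, rfl⟩ : ∃ a b c : Word, w = a ++ (b ++ c) ∧ a.length = i ∧
      a.length + b.length = j := by
    refine ⟨w.take i, (w.drop i).take (j - i), w.drop j, ?_, ?_, ?_⟩
    · have e : (w.drop i).drop (j - i) = w.drop j := by rw [List.drop_drop]; congr 1; omega
      rw [← e, List.take_append_drop, List.take_append_drop]
    · rw [List.length_take]; omega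
    · rw [List.length_take, List.length_take, List.length_drop]; omega
  have e1 : fr3_ht (a ++ (b ++ c)) a.length = D a 0 := fr3_ht_left _ _
  have e2 : fr3_ht (a ++ (b ++ c)) (a.length + b.length) = D a 0 + D b 0 := fr3_ht_mid _ _ _
  rw [e1] at h1 h2
  rw [e2] at h3 h4
  refine ⟨a, b.map (refl 0).g, c, ?_, ?_, ?_, ?_, ?_, ?_, ?_⟩
  · rw [refl_refl]
  · refine ⟨hw.saw.left, ?_, hw.hi.left⟩
    rintro u e rfl
    have := h1 u.length (by simp)
    rw [List.append_assoc, fr3_ht_left, D_append, Pi.add_apply] at this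
    linarith
  · refine ⟨(hw.saw.right.left).map _, ?_, ?_⟩
    · intro u' e' h
      obtain ⟨u, e, hb, rfl, rfl⟩ := List.map_eq_append_iff.1 h
      subst hb
      rw [D_refl, if_pos rfl]
      have := h3 (a.length + u.length) (by omega) (by simp)
      rw [List.append_assoc, fr3_ht_mid, D_append, Pi.add_apply] at this
      linarith
    · intro u' e' h hne
      obtain ⟨u, e, hb, rfl, rfl⟩ := List.map_eq_append_iff.1 h
      subst hb
      have hu : u ≠ [] := by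
        rintro rfl
        exact hne rfl
      have hu' := List.length_pos_of_ne_nil hu
      rw [D_refl, if_pos rfl]
      have := h2 (a.length + u.length) (by omega) (by simp)
      rw [List.append_assoc, fr3_ht_mid] at this
      linarith
  · refine ⟨hw.saw.right.right, hw.lo.right.right, ?_⟩
    rintro u e rfl hne
    have hu' := List.length_pos_of_ne_nil hne
    have := h4 ((a ++ b).length + u.length) (by rw [List.length_append]; omega)
      (by simp only [List.length_append]; omega)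
    rw [← List.append_assoc, fr3_ht_mid, D_append, Pi.add_apply] at this
    linarith
  · rw [e1]
  · rw [e1, e2, D_refl, if_pos rfl]; ring
  · rw [e2, D_append, D_append, Pi.add_apply, Pi.add_apply]; ring

theorem fr3_last_max (f : ℕ → ℤ) {i j : ℕ} (h : i ≤ j) : ∃ s, i ≤ s ∧ s ≤ j ∧
    (∀ k, i ≤ k → k ≤ j → f k ≤ f s) ∧ (∀ k, s < k → k ≤ j → f k < f s) := by
  induction j, h using Nat.le_induction with
  | base =>
    refine ⟨i, le_rfl, le_rfl, fun k h1 h2 => ?_, fun k h1 h2 => ?_⟩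
    · rw [le_antisymm h2 h1]
    · omega
  | succ j hj ih =>
    obtain ⟨s, h1, h2, h3, h4⟩ := ih
    by_cases h5 : f s ≤ f (j + 1)
    · refine ⟨j + 1, by omega, le_rfl, fun k h6 h7 => ?_, fun k h6 h7 => by omega⟩
      rcases Nat.lt_or_ge j k with h8 | h8
      · have : k = j + 1 := by omega
        rw [this]
      · exact (h3 k h6 h8).trans h5
    · push Not at h5
      refine ⟨s, h1, by omega, fun k h6 h7 => ?_, fun k h6 h7 => ?_⟩
      · rcases Nat.lt_or_ge j k with h8 | h8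
        · have : k = j + 1 := by omega
          rw [this]; exact h5.le
        · exact h3 k h6 h8
      · rcases Nat.lt_or_ge j k with h8 | h8
        · have : k = j + 1 := by omega
          rw [this]; exact h5
        · exact h4 k h6 h8

/-- **Splitting.** A bridge of height larger than `r` is a product of fr3_three bridges (the second
one reflected): the first one has height in `[r, 2 r]`, or all fr3_three have height larger than
`r`. -/
theorem fr3_split {w : Word} (hw : Br w) {r : ℕ} (hr : (r : ℤ) < D w 0) :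
    ∃ a b c : Word, w = a ++ (b.map (refl 0).g ++ c) ∧ Br a ∧ Br b ∧ Br c ∧
      (((r : ℤ) ≤ D a 0 ∧ D a 0 ≤ 2 * r) ∨
        ((r : ℤ) < D a 0 ∧ (r : ℤ) < D b 0 ∧ (r : ℤ) < D c 0)) := by
  have hpos : ∀ k ≤ w.length, 0 ≤ fr3_ht w k := by
    intro k hk
    by_cases h0 : k = 0
    · rw [h0, fr3_ht_zero]
    · refine (hw.hi (w.take k) (w.drop k) (by simp) ?_).le
      intro h1
      have := congrArg List.length h1
      rw [List.length_take, List.length_nil] at this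
      omega
  have htop : ∀ k ≤ w.length, fr3_ht w k ≤ D w 0 := by
    intro k _
    have h1 := hw.lo (w.take k) (w.drop k) (by simp)
    have h2 : D w 0 = D (w.take k) 0 + D (w.drop k) 0 := by
      rw [← Pi.add_apply, ← D_append, List.take_append_drop]
    unfold fr3_ht
    linarith
  choose s s1 s2 s3 s4 using fun j : ℕ => fr3_last_max (fr3_ht w) (Nat.zero_le j)
  obtain ⟨j, -, j2, j3, j4⟩ := fr3_last_max (fun j => fr3_ht w (s j) - fr3_ht w j) (Nat.zero_le w.length)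
  have key : ∀ i k : ℕ, i ≤ k → fr3_ht w i - fr3_ht w k ≤ fr3_ht w (s k) - fr3_ht w k := by
    intro i k hik
    have := s3 k i (Nat.zero_le _) hik
    linarith
  by_cases hM : (r : ℤ) < fr3_ht w (s j) - fr3_ht w j
  · obtain ⟨a, b, c, e0, e1, e2, e3, e4, e5, e6⟩ := fr3_three hw (s2 j) j2
      (fun k hk => s3 j k (Nat.zero_le _) (hk.trans (s2 j))) (fun k h1 h2 => s4 j k h1 h2)
      (fun k h1 h2 => by
        have h3 := key (s j) k h1
        have h4 := j3 k (Nat.zero_le _) (h2.trans j2)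
        linarith)
      (fun k h1 h2 => by
        have h3 := key (s j) k ((s2 j).trans h1.le)
        have h4 := j4 k h1 h2
        linarith)
    refine ⟨a, b, c, e0, e1, e2, e3, Or.inr ⟨?_, ?_, ?_⟩⟩
    · have := hpos j j2
      linarith
    · linarith
    · have := htop (s j) ((s2 j).trans j2)
      linarith
  · push Not at hM
    have hdd : ∀ i k : ℕ, i ≤ k → k ≤ w.length → fr3_ht w i - fr3_ht w k ≤ r := by
      intro i k h1 h2
      have h3 := j3 k (Nat.zero_le _) h2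
      exact (key i k h1).trans (h3.trans hM)
    set t0 := Nat.findGreatest (fun k => fr3_ht w k ≤ (r : ℤ)) w.length with ht0
    have q0 : t0 ≤ w.length := Nat.findGreatest_le _
    have q1 : fr3_ht w t0 ≤ r := by
      have : (fun k => fr3_ht w k ≤ (r : ℤ)) (Nat.findGreatest (fun k => fr3_ht w k ≤ (r : ℤ)) w.length) :=
        Nat.findGreatest_spec (P := fun k => fr3_ht w k ≤ (r : ℤ)) (m := 0) (Nat.zero_le _) (by
          change fr3_ht w 0 ≤ (r : ℤ)
          rw [fr3_ht_zero]; omega)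
      exact this
    have q2 : ∀ k, t0 < k → k ≤ w.length → (r : ℤ) < fr3_ht w k := by
      intro k h1 h2
      have := Nat.findGreatest_is_greatest (P := fun k => fr3_ht w k ≤ (r : ℤ)) h1 h2
      exact not_le.1 this
    have q3 : t0 < w.length := by
      rcases q0.lt_or_eq with h | h
      · exact h
      · exfalso
        rw [h, fr3_ht_len] at q1
        linarith
    have q4 : (r : ℤ) ≤ fr3_ht w t0 := by
      have h1 := q2 (t0 + 1) (Nat.lt_succ_self _) q3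
      have h2 := (abs_le.1 (fr3_ht_step w q3)).2
      linarith
    obtain ⟨t, t1, t2, t3, t4⟩ := fr3_last_max (fun k => - fr3_ht w k) ((s2 t0).trans q0)
    simp only [neg_le_neg_iff, neg_lt_neg_iff] at t3 t4
    have t5 : t ≤ t0 := by
      by_contra hc
      push Not at hc
      have h1 := q2 t hc t2
      have h2 := t3 t0 (s2 t0) q0
      linarith
    obtain ⟨a, b, c, e0, e1, e2, e3, e4, e5, e6⟩ := fr3_three hw t1 t2
      (fun k hk => s3 t0 k (Nat.zero_le _) (hk.trans (s2 t0)))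
      (fun k h1 h2 => s4 t0 k h1 (h2.trans t5))
      (fun k h1 h2 => t3 k h1 (h2.trans t2)) (fun k h1 h2 => t4 k h1 h2)
    refine ⟨a, b, c, e0, e1, e2, e3, Or.inl ⟨?_, ?_⟩⟩
    · rw [e4]
      exact q4.trans (s3 t0 t0 (Nat.zero_le _) le_rfl)
    · rw [e4]
      have := hdd (s t0) t0 (s2 t0) q0
      linarith

/-- cut at the largest drawdown -/
theorem split_word {w : Word} (hw : Br w) {r : ℕ} (hr : 1 ≤ r) (hD : (r : ℤ) < D w 0) :
    ∃ a b c : Word, w = a ++ (b ++ c) ∧ Br a ∧ Br (b.map (refl 0).g) ∧ Br c ∧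
      (((r : ℤ) ≤ D a 0 ∧ D a 0 ≤ 2 * r) ∨
        ((r : ℤ) < D a 0 ∧ (r : ℤ) < - D b 0 ∧ (r : ℤ) < D c 0)) := by
  obtain ⟨a, b, c, e0, e1, e2, e3, e4⟩ := fr3_split hw hD
  refine ⟨a, b.map (refl 0).g, c, e0, e1, ?_, e3, ?_⟩
  · rw [refl_refl]; exact e2
  · rw [D_refl, if_pos rfl, neg_neg]
    exact e4
-- END fr3

-- BEGIN fr4 (SPLIT, sums)
/-- mass of the bridges with property `P` of height larger than `r` -/
noncomputable def fr4_fP (x : ℝ) (L r : ℕ) (P : Word → Prop) : ℝ :=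
  ∑ w ∈ (wle L).filter (fun w => Br w ∧ P w ∧ (r : ℤ) < D w 0), x ^ w.length

/-- mass of the bridges with property `P` of height in `[r, 2 r]` -/
noncomputable def fr4_gP (x : ℝ) (L r : ℕ) (P : Word → Prop) : ℝ :=
  ∑ w ∈ (wle L).filter (fun w => Br w ∧ P w ∧ (r : ℤ) ≤ D w 0 ∧ D w 0 ≤ 2 * r), x ^ w.length

theorem fr4_fP_nonneg {x : ℝ} (hx : 0 ≤ x) (L r : ℕ) (P : Word → Prop) : 0 ≤ fr4_fP x L r P :=
  sum_nonneg fun _ _ => pow_nonneg hx _

theorem fr4_gP_nonneg {x : ℝ} (hx : 0 ≤ x) (L r : ℕ) (P : Word → Prop) : 0 ≤ fr4_gP x L r P :=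
  sum_nonneg fun _ _ => pow_nonneg hx _

theorem fr4_gP_mono {x : ℝ} (hx : 0 ≤ x) {L L' : ℕ} (h : L ≤ L') (r : ℕ) (P : Word → Prop) :
    fr4_gP x L r P ≤ fr4_gP x L' r P := by
  refine sum_le_sum_of_subset_of_nonneg ?_ fun _ _ _ => pow_nonneg hx _
  intro w hw
  rw [mem_filter, mem_wle] at hw ⊢
  exact ⟨hw.1.trans h, hw.2⟩

theorem fr4_sum3 {x : ℝ} (hx : 0 ≤ x) {S X Y Z : Finset Word} (A B C : Word → Word)
    (h : ∀ w ∈ S, w = A w ++ ((B w).map (refl 0).g ++ C w) ∧ A w ∈ X ∧ B w ∈ Y ∧ C w ∈ Z) :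
    ∑ w ∈ S, x ^ w.length ≤
      (∑ w ∈ X, x ^ w.length) * ((∑ w ∈ Y, x ^ w.length) * ∑ w ∈ Z, x ^ w.length) := by
  have e : (∑ w ∈ X, x ^ w.length) * ((∑ w ∈ Y, x ^ w.length) * ∑ w ∈ Z, x ^ w.length) =
      ∑ q ∈ X ×ˢ (Y ×ˢ Z), x ^ q.1.length * (x ^ q.2.1.length * x ^ q.2.2.length) := by
    rw [sum_product, sum_mul]
    refine sum_congr rfl fun w _ => ?_
    change _ = ∑ y ∈ Y ×ˢ Z, x ^ w.length * (x ^ y.1.length * x ^ y.2.length)
    rw [← mul_sum, sum_product, sum_mul_sum]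
  rw [e]
  refine sum_le_of_inj (fun w => (A w, B w, C w)) ?_ ?_ ?_ ?_
  · intro w hw
    obtain ⟨-, h1, h2, h3⟩ := h w hw
    exact mem_product.2 ⟨h1, mem_product.2 ⟨h2, h3⟩⟩
  · intro w hw v hv heq
    simp only [Prod.mk.injEq] at heq
    rw [(h w hw).1, (h v hv).1, heq.1, heq.2.1, heq.2.2]
  · intro w hw
    have h1 := congrArg List.length (h w hw).1
    rw [List.length_append, List.length_append, List.length_map] at h1
    simp only
    rw [← pow_add, ← pow_add, ← h1]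
  · intro q _
    positivity

/-- sum over all bridges -/
theorem fr4_V_le {μ : ℝ} (hμ : 1 ≤ μ) (hb : ∀ n, ((brs n).card : ℝ) ≤ μ ^ n) (L : ℕ) :
    V μ⁻¹ L ≤ L + 1 := by
  have h1 := source_one hμ hb L L
  have h2 : Wh μ⁻¹ L L = 0 := by
    unfold Wh
    refine sum_eq_zero fun w hw => ?_
    exfalso
    rw [mem_filter, mem_wle] at hw
    have h3 := (abs_le.1 (abs_D_le w 0)).2
    have h4 : (w.length : ℤ) ≤ L := by exact_mod_cast hw.1
    have h5 := hw.2.2
    omega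
  rw [h2, add_zero] at h1
  rw [V_eq]
  linarith

theorem fr4_step {μ : ℝ} (hμ : 1 ≤ μ) (hb : ∀ n, ((brs n).card : ℝ) ≤ μ ^ n) {P : Word → Prop}
    (hP : ∀ a b c : Word, P (a ++ (b ++ c)) → P b) (hP' : ∀ w, P w → P (w.map (refl 0).g))
    {L N : ℕ} (hLN : L ≤ N) (r : ℕ) :
    fr4_fP μ⁻¹ L r P ≤ ((N : ℝ) + 1) ^ 2 * (fr4_gP μ⁻¹ L r P + 3 * fr4_fP μ⁻¹ (L / 3) r P) := by
  have hx : (0 : ℝ) ≤ μ⁻¹ := by positivity
  have hex : ∀ w : Word, ∃ q : Word × Word × Word, (Br w ∧ (r : ℤ) < D w 0) →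
      w = q.1 ++ (q.2.1.map (refl 0).g ++ q.2.2) ∧ Br q.1 ∧ Br q.2.1 ∧ Br q.2.2 ∧
      (((r : ℤ) ≤ D q.1 0 ∧ D q.1 0 ≤ 2 * r) ∨
        ((r : ℤ) < D q.1 0 ∧ (r : ℤ) < D q.2.1 0 ∧ (r : ℤ) < D q.2.2 0)) := by
    intro w
    by_cases h : Br w ∧ (r : ℤ) < D w 0
    · obtain ⟨a, b, c, h1⟩ := fr3_split h.1 h.2
      exact ⟨(a, b, c), fun _ => h1⟩
    · exact ⟨([], [], []), fun h1 => absurd h1 h⟩
  choose q hq using hex
  set S := (wle L).filter (fun w => Br w ∧ P w ∧ (r : ℤ) < D w 0) with hS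
  set VV := (wle N).filter Br with hVV
  set G := (wle L).filter (fun w => Br w ∧ P w ∧ (r : ℤ) ≤ D w 0 ∧ D w 0 ≤ 2 * r) with hG
  set F := (wle (L / 3)).filter (fun w => Br w ∧ P w ∧ (r : ℤ) < D w 0) with hF
  have hV : ∑ w ∈ VV, μ⁻¹ ^ w.length ≤ (N : ℝ) + 1 := fr4_V_le hμ hb N
  have hV0 : 0 ≤ ∑ w ∈ VV, μ⁻¹ ^ w.length := sum_nonneg fun _ _ => pow_nonneg hx _
  -- the facts about the fr3_three factors
  have fact : ∀ w ∈ S, w = (q w).1 ++ ((q w).2.1.map (refl 0).g ++ (q w).2.2) ∧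
      Br (q w).1 ∧ Br (q w).2.1 ∧ Br (q w).2.2 ∧ P (q w).1 ∧ P (q w).2.1 ∧ P (q w).2.2 ∧
      (q w).1.length + ((q w).2.1.length + (q w).2.2.length) ≤ L ∧
      (((r : ℤ) ≤ D (q w).1 0 ∧ D (q w).1 0 ≤ 2 * r) ∨
        ((r : ℤ) < D (q w).1 0 ∧ (r : ℤ) < D (q w).2.1 0 ∧ (r : ℤ) < D (q w).2.2 0)) := by
    intro w hw
    rw [hS, mem_filter, mem_wle] at hw
    obtain ⟨hl, h1, h2, h3⟩ := hw
    obtain ⟨e0, e1, e2, e3, e4⟩ := hq w ⟨h1, h3⟩
    have hl2 := congrArg List.length e0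
    rw [List.length_append, List.length_append, List.length_map] at hl2
    refine ⟨e0, e1, e2, e3, ?_, ?_, ?_, by omega, e4⟩
    · refine hP [] _ ((q w).2.1.map (refl 0).g ++ (q w).2.2) ?_
      rw [List.nil_append, ← e0]; exact h2
    · have := hP' _ (hP (q w).1 ((q w).2.1.map (refl 0).g) (q w).2.2 (by rw [← e0]; exact h2))
      rwa [refl_refl] at this
    · refine hP ((q w).1 ++ (q w).2.1.map (refl 0).g) _ [] ?_
      rw [List.append_nil, List.append_assoc, ← e0]; exact h2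
  have mV : ∀ v : Word, Br v → v.length ≤ L → v ∈ VV := fun v h1 h2 => by
    rw [hVV, mem_filter, mem_wle]; exact ⟨h2.trans hLN, h1⟩
  have b0 : ∑ w ∈ S.filter (fun w => (r : ℤ) ≤ D (q w).1 0 ∧ D (q w).1 0 ≤ 2 * r),
      μ⁻¹ ^ w.length ≤ fr4_gP μ⁻¹ L r P * (((N : ℝ) + 1) * ((N : ℝ) + 1)) := by
    refine (fr4_sum3 (X := G) (Y := VV) (Z := VV) hx (fun w => (q w).1) (fun w => (q w).2.1)
      (fun w => (q w).2.2) ?_).trans ?_
    · intro w hw
      rw [mem_filter] at hw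
      obtain ⟨e0, e1, e2, e3, p1, p2, p3, hl, -⟩ := fact w hw.1
      refine ⟨e0, ?_, mV _ e2 (by omega), mV _ e3 (by omega)⟩
      rw [hG, mem_filter, mem_wle]
      exact ⟨by omega, e1, p1, hw.2⟩
    · exact mul_le_mul_of_nonneg_left (mul_le_mul hV hV hV0 (by positivity))
        (fr4_gP_nonneg hx _ _ _)
  have b1 : ∑ w ∈ S.filter (fun w => (r : ℤ) < D (q w).1 0 ∧ (q w).1.length ≤ L / 3),
      μ⁻¹ ^ w.length ≤ fr4_fP μ⁻¹ (L / 3) r P * (((N : ℝ) + 1) * ((N : ℝ) + 1)) := by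
    refine (fr4_sum3 (X := F) (Y := VV) (Z := VV) hx (fun w => (q w).1) (fun w => (q w).2.1)
      (fun w => (q w).2.2) ?_).trans ?_
    · intro w hw
      rw [mem_filter] at hw
      obtain ⟨e0, e1, e2, e3, p1, p2, p3, hl, -⟩ := fact w hw.1
      refine ⟨e0, ?_, mV _ e2 (by omega), mV _ e3 (by omega)⟩
      rw [hF, mem_filter, mem_wle]
      exact ⟨hw.2.2, e1, p1, hw.2.1⟩
    · exact mul_le_mul_of_nonneg_left (mul_le_mul hV hV hV0 (by positivity))
        (fr4_fP_nonneg hx _ _ _)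
  have b2 : ∑ w ∈ S.filter (fun w => (r : ℤ) < D (q w).2.1 0 ∧ (q w).2.1.length ≤ L / 3),
      μ⁻¹ ^ w.length ≤ ((N : ℝ) + 1) * (fr4_fP μ⁻¹ (L / 3) r P * ((N : ℝ) + 1)) := by
    refine (fr4_sum3 (X := VV) (Y := F) (Z := VV) hx (fun w => (q w).1) (fun w => (q w).2.1)
      (fun w => (q w).2.2) ?_).trans ?_
    · intro w hw
      rw [mem_filter] at hw
      obtain ⟨e0, e1, e2, e3, p1, p2, p3, hl, -⟩ := fact w hw.1
      refine ⟨e0, mV _ e1 (by omega), ?_, mV _ e3 (by omega)⟩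
      rw [hF, mem_filter, mem_wle]
      exact ⟨hw.2.2, e2, p2, hw.2.1⟩
    · refine mul_le_mul hV (mul_le_mul_of_nonneg_left hV (fr4_fP_nonneg hx _ _ _)) ?_ (by positivity)
      exact mul_nonneg (fr4_fP_nonneg hx _ _ _) hV0
  have b3 : ∑ w ∈ S.filter (fun w => (r : ℤ) < D (q w).2.2 0 ∧ (q w).2.2.length ≤ L / 3),
      μ⁻¹ ^ w.length ≤ ((N : ℝ) + 1) * (((N : ℝ) + 1) * fr4_fP μ⁻¹ (L / 3) r P) := by
    refine (fr4_sum3 (X := VV) (Y := VV) (Z := F) hx (fun w => (q w).1) (fun w => (q w).2.1)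
      (fun w => (q w).2.2) ?_).trans ?_
    · intro w hw
      rw [mem_filter] at hw
      obtain ⟨e0, e1, e2, e3, p1, p2, p3, hl, -⟩ := fact w hw.1
      refine ⟨e0, mV _ e1 (by omega), mV _ e2 (by omega), ?_⟩
      rw [hF, mem_filter, mem_wle]
      exact ⟨hw.2.2, e3, p3, hw.2.1⟩
    · refine mul_le_mul hV (mul_le_mul_of_nonneg_right hV (fr4_fP_nonneg hx _ _ _)) ?_ (by positivity)
      exact mul_nonneg hV0 (fr4_fP_nonneg hx _ _ _)
  have hsub : S ⊆ S.filter (fun w => (r : ℤ) ≤ D (q w).1 0 ∧ D (q w).1 0 ≤ 2 * r) ∪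
      (S.filter (fun w => (r : ℤ) < D (q w).1 0 ∧ (q w).1.length ≤ L / 3) ∪
      (S.filter (fun w => (r : ℤ) < D (q w).2.1 0 ∧ (q w).2.1.length ≤ L / 3) ∪
      S.filter (fun w => (r : ℤ) < D (q w).2.2 0 ∧ (q w).2.2.length ≤ L / 3))) := by
    intro w hw
    obtain ⟨e0, e1, e2, e3, p1, p2, p3, hl, e4⟩ := fact w hw
    simp only [mem_union, mem_filter]
    rcases e4 with h | ⟨h1, h2, h3⟩
    · exact Or.inl ⟨hw, h⟩
    · rcases Nat.lt_or_ge (L / 3) (q w).1.length with c1 | c1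
      · rcases Nat.lt_or_ge (L / 3) (q w).2.1.length with c2 | c2
        · have c3 : (q w).2.2.length ≤ L / 3 := by omega
          exact Or.inr (Or.inr (Or.inr ⟨hw, h3, c3⟩))
        · exact Or.inr (Or.inr (Or.inl ⟨hw, h2, c2⟩))
      · exact Or.inr (Or.inl ⟨hw, h1, c1⟩)
  have un : ∀ S T : Finset Word, ∑ w ∈ S ∪ T, μ⁻¹ ^ w.length ≤
      ∑ w ∈ S, μ⁻¹ ^ w.length + ∑ w ∈ T, μ⁻¹ ^ w.length := by
    intro S T
    rw [← sum_union_inter]
    exact le_add_of_nonneg_right (sum_nonneg fun _ _ => pow_nonneg hx _)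
  have h1 := sum_le_sum_of_subset_of_nonneg (f := fun w : Word => μ⁻¹ ^ w.length) hsub
    fun _ _ _ => pow_nonneg hx _
  have h2 := h1.trans (un _ _)
  have h3 := h2.trans (add_le_add_right (un _ _) _)
  have h4 := h3.trans (add_le_add_right (add_le_add_right (un _ _) _) _)
  change ∑ w ∈ S, μ⁻¹ ^ w.length ≤ _
  nlinarith [h4, b0, b1, b2, b3]

theorem fr4_pow {μ : ℝ} (hμ : 1 ≤ μ) (hb : ∀ n, ((brs n).card : ℝ) ≤ μ ^ n) {P : Word → Prop}
    (hP : ∀ a b c : Word, P (a ++ (b ++ c)) → P b) (hP' : ∀ w, P w → P (w.map (refl 0).g))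
    (N r k : ℕ) {L : ℕ} (hLN : L ≤ N) (hk : L < 3 ^ k) :
    fr4_fP μ⁻¹ L r P ≤ fr4_gP μ⁻¹ N r P * (4 * ((N : ℝ) + 1) ^ 2) ^ k := by
  have hx : (0 : ℝ) ≤ μ⁻¹ := by positivity
  induction k generalizing L with
  | zero =>
    have h0 : L = 0 := by simpa using hk
    subst h0
    have : fr4_fP μ⁻¹ 0 r P = 0 := by
      unfold fr4_fP
      refine sum_eq_zero fun w hw => ?_
      exfalso
      rw [mem_filter, mem_wle] at hw
      have h1 : w = [] := List.length_eq_zero_iff.1 (by omega)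
      have h2 := hw.2.2.2
      rw [h1] at h2
      simp at h2
      omega
    rw [this]
    exact mul_nonneg (fr4_gP_nonneg hx _ _ _) (by positivity)
  | succ k ih =>
    have h1 := fr4_step hμ hb hP hP' hLN r
    have h2 := ih (L := L / 3) (by omega) (by rw [pow_succ] at hk; omega)
    have h3 := fr4_gP_mono hx hLN r P
    have h4 : (1 : ℝ) ≤ (4 * ((N : ℝ) + 1) ^ 2) ^ k := by
      refine one_le_pow₀ ?_
      have : (0 : ℝ) ≤ N := Nat.cast_nonneg _
      nlinarith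
    have h5 := fr4_gP_nonneg hx N r P
    rw [pow_succ]
    set T := (4 * ((N : ℝ) + 1) ^ 2) ^ k with hT
    have h6 : fr4_gP μ⁻¹ L r P + 3 * fr4_fP μ⁻¹ (L / 3) r P ≤ 4 * (fr4_gP μ⁻¹ N r P * T) := by
      nlinarith
    calc fr4_fP μ⁻¹ L r P ≤ _ := h1
      _ ≤ ((N : ℝ) + 1) ^ 2 * (4 * (fr4_gP μ⁻¹ N r P * T)) :=
        mul_le_mul_of_nonneg_left h6 (by positivity)
      _ = _ := by ring

/-- `split_word`; the shortest of the three pieces has length `≤ l / 3`; induction on `k`,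
`l < 3 ^ k` -/
theorem split_sum {μ : ℝ} (hμ : 1 ≤ μ) (hb : ∀ n, ((brs n).card : ℝ) ≤ μ ^ n) (P : Word → Prop)
    (hP : ∀ a b c : Word, P (a ++ (b ++ c)) → P b)
    (hR : ∀ w : Word, P w → P (w.map (refl 0).g)) {r l : ℕ} (hr : 1 ≤ r) :
    ∑ w ∈ (wle l).filter (fun w => Br w ∧ P w ∧ (r : ℤ) < D w 0), μ⁻¹ ^ w.length
      ≤ (4 * ((l : ℝ) + 1) ^ 2) ^ (Nat.log 3 l + 1) *
        ∑ w ∈ (wle l).filter (fun w => Br w ∧ P w ∧ (r : ℤ) ≤ D w 0 ∧ D w 0 ≤ 2 * r),
          μ⁻¹ ^ w.length := by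
  have h := fr4_pow hμ hb hP hR l r (Nat.log 3 l + 1) le_rfl
    (Nat.lt_pow_succ_log_self (by norm_num) l)
  rw [mul_comm]
  exact h
-- END fr4

end Pool.Agent.R19
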