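import Pool.Agent.R19.Spec

/-! Geometry of the extension of a triple of legs (helper9). -/

set_option autoImplicit false

namespace Pool.Agent.R19

open Finset
open scoped Classical
open Pool.Agent.MP_794e6e_pr (Word Pt Step D pts tr saw Br Lo Hi wle mem_wle rv D_rv rv_append rv_rv D_append D_nil pts_append mem_pts mem_tr Br_nil)

/-- if the extension of a self-avoiding triple is not self-avoiding, it meets one of the first
two legs -/
theorem ge_split {a b c e : Word} (hc : Lo c) (he : Br e) (h : saw (a ++ (fl b ++ c)))
    (hn : ¬ saw (a ++ (fl b ++ (c ++ e)))) : HBw b c e ∨ HAw a b c e := by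
  unfold saw at hn
  push Not at hn
  obtain ⟨p, u, s, hw, hu, hD⟩ := hn
  -- the block `u` ends in `e`
  have e0 : (a ++ (fl b ++ c)) ++ e = (p ++ u) ++ s := by
    have := hw
    simp only [List.append_assoc] at this ⊢
    exact this
  rcases List.append_eq_append_iff.1 e0 with ⟨e1, h1, h2⟩ | ⟨r, h1, h2⟩
  · -- `p ++ u = (a ++ (fl b ++ c)) ++ e1`, `e = e1 ++ s`
    have hq : D e1 ∈ pts e := mem_pts.2 ⟨e1, s, h2, rfl⟩
    -- the block starts before the end of `a ++ (fl b ++ c)`
    have e2 : (a ++ (fl b ++ c)) ++ e1 = p ++ u := h1.symm
    rcases List.append_eq_append_iff.1 e2 with ⟨v, h3, h4⟩ | ⟨v, h3, h4⟩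
    · -- the block starts in `e1`: then `e` is not self-avoiding
      exfalso
      refine he.saw v u s ?_ hu hD
      rw [h2, h4, List.append_assoc]
    · -- `a ++ (fl b ++ c) = p ++ v`, `u = v ++ e1`
      have hDv : D v + D e1 = 0 := by rw [← D_append, ← h4, hD]
      by_cases he1 : e1 = []
      · exfalso
        subst he1
        have hv : v ≠ [] := by
          rw [List.append_nil] at h4
          rw [← h4]
          exact hu
        refine h p v [] ?_ hv ?_
        · rw [List.append_nil]; exact h3
        · rw [D_nil, add_zero] at hDv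
          exact hDv
      · have hpos : 0 < D e1 0 := he.hi e1 s h2 he1
        have e3 : a ++ (fl b ++ c) = p ++ v := h3
        rcases List.append_eq_append_iff.1 e3 with ⟨y, h5, h6⟩ | ⟨y, h5, h6⟩
        · -- `p = a ++ y`, `fl b ++ c = y ++ v`
          rcases List.append_eq_append_iff.1 h6 with ⟨z, h7, h8⟩ | ⟨z, h7, h8⟩
          · -- `y = fl b ++ z`, `c = z ++ v`: the block starts in `c`
            exfalso
            have h9 := hc z v h8
            have h10 := congrFun hDv 0
            rw [Pi.add_apply, Pi.zero_apply] at h10
            linarith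
          · -- `fl b = y ++ z`, `v = z ++ c`: the block starts in `fl b`
            left
            refine ⟨D c + D e1, ?_, ?_, ?_⟩
            · unfold Pb
              rw [sp_mem_rv, mem_pts]
              refine ⟨y, z, h7, ?_⟩
              rw [h7, D_append]
              rw [h8, D_append] at hDv
              ext j
              have h9 := congrFun hDv j
              simp only [Pi.add_apply, Pi.zero_apply] at h9 ⊢
              linarith
            · rw [add_sub_cancel_left]
              exact hq
            · rw [Pi.add_apply]
              linarith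
        · -- `a = p ++ y`, `v = y ++ (fl b ++ c)`: the block starts in `a`
          right
          refine ⟨D c + D e1, ?_, ?_⟩
          · unfold Pa
            rw [mem_tr, sp_mem_rv, mem_pts]
            refine ⟨p, y, h5, ?_⟩
            rw [h5, D_append, D_rv]
            rw [h6, D_append, D_append] at hDv
            ext j
            have h9 := congrFun hDv j
            simp only [Pi.add_apply, Pi.zero_apply, Pi.sub_apply, Pi.neg_apply] at h9 ⊢
            linarith
          · rw [add_sub_cancel_left]
            exact hq
  · -- `a ++ (fl b ++ c) = (p ++ u) ++ r`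
    exfalso
    refine h p u r ?_ hu hD
    rw [h1, List.append_assoc]

theorem ge_br_pre {L k : ℕ} {E : ℕ → Word} (h : E ∈ Sd L k) {j : ℕ} (hj : j ≤ k) :
    Br (pre E j) := by
  induction j with
  | zero => exact Br_nil
  | succ j ih =>
    rw [sp_pre_succ]
    exact (ih (by omega)).append (mem_irs.1 ((sp_mem_Sd.1 h).1 j (by omega))).2.br

theorem ge_wt_nonneg {x : ℝ} (hx : 0 ≤ x) (k : ℕ) (E : ℕ → Word) : 0 ≤ wt x k E :=
  Finset.prod_nonneg (fun _ _ => pow_nonneg hx _)

/-- **trichotomy** -/
theorem ge_em {x : ℝ} (hx : 0 ≤ x) (M k : ℕ) {a b c : Word} (hc : Lo c)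
    (h : saw (a ++ (fl b ++ c))) :
    Ph x M ^ k ≤ em x M k (fun e => saw (a ++ (fl b ++ (c ++ e)))) +
      (em x M k (HBw b c) + em x M k (HAw a b c)) := by
  have h0 : Ph x M ^ k = ∑ E ∈ Sd M k, wt x k E := by
    have h1 := sp_sum_Sd x M k (fun _ => 1)
    rw [EE_const] at h1
    simp only [mul_one] at h1
    rw [h1]
    rfl
  rw [h0]
  unfold em
  rw [sum_filter, sum_filter, sum_filter, ← sum_add_distrib, ← sum_add_distrib]
  refine sum_le_sum ?_
  intro E hE
  have hw := ge_wt_nonneg hx k E
  by_cases h1 : saw (a ++ (fl b ++ (c ++ pre E k)))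
  · rw [if_pos h1]
    have h2 : (0 : ℝ) ≤ if HBw b c (pre E k) then wt x k E else 0 := by
      split
      · exact hw
      · exact le_refl 0
    have h3 : (0 : ℝ) ≤ if HAw a b c (pre E k) then wt x k E else 0 := by
      split
      · exact hw
      · exact le_refl 0
    linarith
  · rw [if_neg h1]
    rcases ge_split hc (ge_br_pre hE (le_refl k)) h h1 with h2 | h2
    · rw [if_pos h2]
      have h3 : (0 : ℝ) ≤ if HAw a b c (pre E k) then wt x k E else 0 := by
        split
        · exact hw
        · exact le_refl 0
      linarith
    · rw [if_pos h2]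
      have h3 : (0 : ℝ) ≤ if HBw b c (pre E k) then wt x k E else 0 := by
        split
        · exact hw
        · exact le_refl 0
      linarith

end Pool.Agent.R19
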