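import Mathlib

/-!
# The numbers of case (a) (room R19, helper21)
-/

set_option autoImplicit false

namespace Pool.Agent.R19

open Finset

theorem nu_harm (N : ℕ) : ∑ n ∈ Finset.Icc 1 N, (1 : ℝ) / n ≤ 1 + Real.log N := by
  have h := harmonic_le_one_add_log N
  rw [harmonic_eq_sum_Icc] at h
  push_cast at h
  refine le_trans (le_of_eq ?_) h
  exact Finset.sum_congr rfl (fun i _ => by rw [one_div])

theorem nu_log {δ : ℝ} (hδ : 0 < δ) {s : ℝ} (hs : 1 ≤ s) : Real.log s ≤ (1 / δ) * s ^ δ := by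
  have h := Real.log_le_rpow_div (by linarith : (0 : ℝ) ≤ s) hδ
  calc Real.log s ≤ s ^ δ / δ := h
    _ = (1 / δ) * s ^ δ := by ring

/-- the choice of `m` and `H` -/
theorem num_A (A : ℕ) {ε : ℝ} (hε : 0 < ε) : ∃ C : ℝ, 0 < C ∧ ∀ S L g n1 X : ℕ, 1 ≤ S →
    L ≤ S ^ A → 1 ≤ g → n1 ≤ 2 * S + 1 → X ≤ (2 * L + 1) ^ 3 → ∃ m H : ℕ, 1 ≤ m ∧ 2 * m ≤ H ∧
      4 * ((g : ℝ) + 1) ^ 2 * (H + 2 ^ (m + 1) * H * (2 * ((g : ℝ) + 1)) *
        (∑ n ∈ Finset.Icc 1 (2 * n1), (1 : ℝ) / n) +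
        (n1 + 1) * ((4 * (m : ℝ) / H) ^ m * Real.sqrt (X : ℝ))) ≤
      C * (S : ℝ) ^ ε * (g : ℝ) ^ 3 := by
  set δ : ℝ := ε / 2 with hδdef
  have hδ : 0 < δ := by rw [hδdef]; linarith
  set m : ℕ := ⌈(1 + 2 * (A : ℝ)) / δ⌉₊ + 1 with hm
  have hm1 : 1 ≤ m := by rw [hm]; omega
  have hmr : (1 : ℝ) ≤ m := by exact_mod_cast hm1
  have hmδ : 1 + 2 * (A : ℝ) ≤ δ * m := by
    have h1 : (1 + 2 * (A : ℝ)) / δ ≤ m := by
      rw [hm]
      push_cast
      have := Nat.le_ceil ((1 + 2 * (A : ℝ)) / δ)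
      linarith
    rw [div_le_iff₀ hδ] at h1
    linarith
  refine ⟨16 * (9 * m + 2 ^ (m + 1) * (9 * m) * 4 * (4 + 1 / δ) + 36) + 1, by positivity, ?_⟩
  intro S L g n1 X hS hL hg hn1 hX
  have hSr : (1 : ℝ) ≤ S := by exact_mod_cast hS
  have hgr : (1 : ℝ) ≤ g := by exact_mod_cast hg
  have hT1 : (1 : ℝ) ≤ (S : ℝ) ^ δ := Real.one_le_rpow hSr hδ.le
  set T : ℝ := (S : ℝ) ^ δ with hT
  have hT0 : 0 < T := by linarith
  have hTT : (S : ℝ) ^ ε = T * T := by
    rw [hT, ← Real.rpow_add (by linarith)]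
    congr 1
    rw [hδdef]; ring
  refine ⟨m, ⌈8 * (m : ℝ) * T⌉₊, hm1, ?_, ?_⟩
  · have h1 : (2 * (m : ℝ)) ≤ 8 * (m : ℝ) * T := by nlinarith
    have h2 : (2 * (m : ℝ)) ≤ (⌈8 * (m : ℝ) * T⌉₊ : ℝ) := le_trans h1 (Nat.le_ceil _)
    exact_mod_cast h2
  · set H : ℕ := ⌈8 * (m : ℝ) * T⌉₊ with hH
    have hH1 : 8 * (m : ℝ) * T ≤ H := Nat.le_ceil _
    have hH2 : (H : ℝ) ≤ 9 * m * T := by
      have h1 : (H : ℝ) < 8 * (m : ℝ) * T + 1 := Nat.ceil_lt_add_one (by positivity)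
      nlinarith
    have hH0 : (0 : ℝ) < H := by
      have : 0 < 8 * (m : ℝ) * T := by positivity
      linarith
    -- harmonic sum
    have hharm : ∑ n ∈ Finset.Icc 1 (2 * n1), (1 : ℝ) / n ≤ (4 + 1 / δ) * T := by
      refine le_trans (nu_harm _) ?_
      have h1 : Real.log ((2 * n1 : ℕ) : ℝ) ≤ Real.log (6 * (S : ℝ)) := by
        by_cases h0 : n1 = 0
        · rw [h0]
          simp only [mul_zero, Nat.cast_zero, Real.log_zero]
          exact Real.log_nonneg (by linarith)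
        · apply Real.log_le_log
          · have : 0 < 2 * n1 := by omega
            exact_mod_cast this
          · have : 2 * n1 ≤ 6 * S := by omega
            exact_mod_cast this
      have h2 : Real.log (6 * (S : ℝ)) = Real.log 6 + Real.log S :=
        Real.log_mul (by norm_num) (by linarith)
      have h3 : Real.log 6 ≤ 3 := by
        have h4 : Real.log 6 ≤ Real.log (2 ^ 3 : ℝ) := Real.log_le_log (by norm_num) (by norm_num)
        rw [Real.log_pow] at h4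
        have h5 := Real.log_two_lt_d9
        push_cast at h4
        linarith
      have h6 := nu_log hδ hSr
      have h7 : (4 + 1 / δ) * T = 4 * T + (1 / δ) * (S : ℝ) ^ δ := by rw [hT]; ring
      rw [h7]
      linarith
    have hharm0 : 0 ≤ ∑ n ∈ Finset.Icc 1 (2 * n1), (1 : ℝ) / n :=
      Finset.sum_nonneg (fun _ _ => by positivity)
    -- the error term
    have hsq : Real.sqrt (X : ℝ) ≤ 9 * (S : ℝ) ^ (2 * A) := by
      have h1 : (X : ℝ) ≤ (9 * (S : ℝ) ^ (2 * A)) ^ 2 := by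
        have h2 : 2 * L + 1 ≤ 3 * S ^ A := by
          have : 1 ≤ S ^ A := Nat.one_le_pow _ _ hS
          omega
        have h3 : X ≤ (3 * S ^ A) ^ 4 := by
          calc X ≤ (2 * L + 1) ^ 3 := hX
            _ ≤ (3 * S ^ A) ^ 3 := Nat.pow_le_pow_left h2 3
            _ ≤ (3 * S ^ A) ^ 4 := by
                apply Nat.pow_le_pow_right _ (by norm_num)
                have : 1 ≤ S ^ A := Nat.one_le_pow _ _ hS
                omega
        have h4 : (X : ℝ) ≤ ((3 * (S : ℝ) ^ A)) ^ 4 := by exact_mod_cast h3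
        refine le_trans h4 (le_of_eq ?_)
        ring
      calc Real.sqrt (X : ℝ) ≤ Real.sqrt ((9 * (S : ℝ) ^ (2 * A)) ^ 2) := Real.sqrt_le_sqrt h1
        _ = 9 * (S : ℝ) ^ (2 * A) := Real.sqrt_sq (by positivity)
    have hpw : (4 * (m : ℝ) / H) ^ m ≤ ((S : ℝ) ^ (1 + 2 * A))⁻¹ := by
      have h1 : 4 * (m : ℝ) / H ≤ T⁻¹ := by
        rw [div_le_iff₀ hH0]
        have h2 : 4 * (m : ℝ) * T ≤ H := by nlinarith
        calc 4 * (m : ℝ) = T⁻¹ * (4 * (m : ℝ) * T) := by field_simp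
          _ ≤ T⁻¹ * H := mul_le_mul_of_nonneg_left h2 (by positivity)
      have h2 : (4 * (m : ℝ) / H) ^ m ≤ (T⁻¹) ^ m :=
        pow_le_pow_left₀ (by positivity) h1 m
      refine le_trans h2 ?_
      rw [inv_pow]
      apply inv_anti₀ (by positivity)
      rw [hT, ← Real.rpow_natCast, ← Real.rpow_natCast, ← Real.rpow_mul (by linarith)]
      apply Real.rpow_le_rpow_of_exponent_le hSr
      push_cast
      exact hmδ
    have herr : ((n1 : ℝ) + 1) * ((4 * (m : ℝ) / H) ^ m * Real.sqrt (X : ℝ)) ≤ 36 := by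
      have h1 : ((n1 : ℝ) + 1) ≤ 4 * S := by
        have : n1 + 1 ≤ 4 * S := by omega
        exact_mod_cast this
      have h2 : (4 * (m : ℝ) / H) ^ m * Real.sqrt (X : ℝ) ≤
          ((S : ℝ) ^ (1 + 2 * A))⁻¹ * (9 * (S : ℝ) ^ (2 * A)) :=
        mul_le_mul hpw hsq (Real.sqrt_nonneg _) (by positivity)
      calc ((n1 : ℝ) + 1) * ((4 * (m : ℝ) / H) ^ m * Real.sqrt (X : ℝ))
          ≤ (4 * S) * (((S : ℝ) ^ (1 + 2 * A))⁻¹ * (9 * (S : ℝ) ^ (2 * A))) :=
            mul_le_mul h1 h2 (by positivity) (by positivity)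
        _ = 36 := by
            have h3 : (S : ℝ) ^ (1 + 2 * A) = S * (S : ℝ) ^ (2 * A) := by ring
            rw [h3]
            have h4 : (S : ℝ) ^ (2 * A) ≠ 0 := by positivity
            have h5 : (S : ℝ) ≠ 0 := by positivity
            field_simp
            norm_num
    -- assemble
    have hmain : (H : ℝ) + 2 ^ (m + 1) * H * (2 * ((g : ℝ) + 1)) *
        (∑ n ∈ Finset.Icc 1 (2 * n1), (1 : ℝ) / n) +
        (n1 + 1) * ((4 * (m : ℝ) / H) ^ m * Real.sqrt (X : ℝ)) ≤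
        (9 * m + 2 ^ (m + 1) * (9 * m) * 4 * (4 + 1 / δ) + 36) * (T * T * g) := by
      have e1 : (H : ℝ) ≤ 9 * m * (T * T * g) := by
        refine le_trans hH2 ?_
        have h1 : T ≤ T * T * g := by
          have h2 : T ≤ T * T := by nlinarith
          have h3 : T * T ≤ T * T * g := le_mul_of_one_le_right (by positivity) hgr
          linarith
        exact mul_le_mul_of_nonneg_left h1 (by positivity)
      have e2 : 2 ^ (m + 1) * (H : ℝ) * (2 * ((g : ℝ) + 1)) *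
          (∑ n ∈ Finset.Icc 1 (2 * n1), (1 : ℝ) / n) ≤
          2 ^ (m + 1) * (9 * m) * 4 * (4 + 1 / δ) * (T * T * g) := by
        have h1 : 2 ^ (m + 1) * (H : ℝ) * (2 * ((g : ℝ) + 1)) ≤
            2 ^ (m + 1) * (9 * m * T) * (4 * g) := by
          apply mul_le_mul _ (by linarith) (by positivity) (by positivity)
          exact mul_le_mul_of_nonneg_left hH2 (by positivity)
        calc 2 ^ (m + 1) * (H : ℝ) * (2 * ((g : ℝ) + 1)) *
              (∑ n ∈ Finset.Icc 1 (2 * n1), (1 : ℝ) / n)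
            ≤ 2 ^ (m + 1) * (9 * m * T) * (4 * g) * ((4 + 1 / δ) * T) :=
              mul_le_mul h1 hharm hharm0 (by positivity)
          _ = _ := by ring
      have e3 : (36 : ℝ) ≤ 36 * (T * T * g) := by
        have h2 : 1 ≤ T * T := by nlinarith
        have h3 : 1 ≤ T * T * g := by nlinarith
        linarith
      have e4 : (9 * (m : ℝ) + 2 ^ (m + 1) * (9 * m) * 4 * (4 + 1 / δ) + 36) * (T * T * g) =
          9 * m * (T * T * g) + 2 ^ (m + 1) * (9 * m) * 4 * (4 + 1 / δ) * (T * T * g) +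
          36 * (T * T * g) := by ring
      rw [e4]
      exact add_le_add (add_le_add e1 e2) (le_trans herr e3)
    set Q : ℝ := 9 * (m : ℝ) + 2 ^ (m + 1) * (9 * m) * 4 * (4 + 1 / δ) + 36 with hQ
    have hQ0 : 0 ≤ Q := by rw [hQ]; positivity
    have hg2 : 4 * ((g : ℝ) + 1) ^ 2 ≤ 16 * (g : ℝ) ^ 2 := by
      have h1 : ((g : ℝ) + 1) ^ 2 ≤ (2 * (g : ℝ)) ^ 2 :=
        pow_le_pow_left₀ (by positivity) (by linarith) 2
      calc 4 * ((g : ℝ) + 1) ^ 2 ≤ 4 * (2 * (g : ℝ)) ^ 2 :=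
            mul_le_mul_of_nonneg_left h1 (by norm_num)
        _ = 16 * (g : ℝ) ^ 2 := by ring
    calc 4 * ((g : ℝ) + 1) ^ 2 * (H + 2 ^ (m + 1) * H * (2 * ((g : ℝ) + 1)) *
          (∑ n ∈ Finset.Icc 1 (2 * n1), (1 : ℝ) / n) +
          (n1 + 1) * ((4 * (m : ℝ) / H) ^ m * Real.sqrt (X : ℝ)))
        ≤ 16 * (g : ℝ) ^ 2 * (Q * (T * T * g)) := by
          apply mul_le_mul hg2 hmain _ (by positivity)
          positivity
      _ = 16 * Q * (T * T) * (g : ℝ) ^ 3 := by ring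
      _ ≤ (16 * Q + 1) * (S : ℝ) ^ ε * (g : ℝ) ^ 3 := by
          rw [hTT]
          apply mul_le_mul_of_nonneg_right _ (by positivity)
          apply mul_le_mul_of_nonneg_right _ (by positivity)
          linarith

end Pool.Agent.R19
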