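import Pool.Agent.R19.Defs
import Pool.Agent.R19.NumA

/-!
# The three cases together (room R19, helper21)
-/

set_option autoImplicit false

namespace Pool.Agent.R19

open Finset Filter
open scoped Classical
open Pool.Agent.MP_794e6e_pr

theorem gl_wt_nonneg {x : ℝ} (hx : 0 ≤ x) (K : ℕ) (E : ℕ → Word) : 0 ≤ wt x K E :=
  Finset.prod_nonneg (fun _ _ => pow_nonneg hx _)

theorem gl_w3_nonneg {x : ℝ} (hx : 0 ≤ x) (t : Word × Word × Word) : 0 ≤ w3 x t :=
  pow_nonneg hx _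

theorem gl_em_nonneg {x : ℝ} (hx : 0 ≤ x) (M k : ℕ) (P : Word → Prop) : 0 ≤ em x M k P :=
  Finset.sum_nonneg (fun _ _ => gl_wt_nonneg hx _ _)

/-- the mass of all extensions is divided in three parts -/
theorem gl_three {x : ℝ} (hx : 0 ≤ x) {M k : ℕ} (P Q R : Word → Prop)
    (h : ∀ E ∈ Sd M k, ¬ P (pre E k) → Q (pre E k) ∨ R (pre E k)) :
    ∑ E ∈ Sd M k, wt x k E ≤ em x M k P + (em x M k Q + em x M k R) := by
  unfold em
  rw [Finset.sum_filter, Finset.sum_filter, Finset.sum_filter, ← Finset.sum_add_distrib,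
    ← Finset.sum_add_distrib]
  refine Finset.sum_le_sum ?_
  intro E hE
  have hw := gl_wt_nonneg hx k E
  by_cases h1 : P (pre E k)
  · rw [if_pos h1]
    have h2 : (0 : ℝ) ≤ if Q (pre E k) then wt x k E else 0 := by split <;> [exact hw; exact le_rfl]
    have h3 : (0 : ℝ) ≤ if R (pre E k) then wt x k E else 0 := by split <;> [exact hw; exact le_rfl]
    linarith
  · rw [if_neg h1]
    rcases h E hE h1 with h2 | h2
    · rw [if_pos h2]
      have h3 : (0 : ℝ) ≤ if R (pre E k) then wt x k E else 0 := by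
        split <;> [exact hw; exact le_rfl]
      linarith
    · rw [if_pos h2]
      have h3 : (0 : ℝ) ≤ if Q (pre E k) then wt x k E else 0 := by
        split <;> [exact hw; exact le_rfl]
      linarith

/-- **trichotomy**, for a sum over any family of triples -/
theorem gl_tri {x : ℝ} (hx : 0 ≤ x) {M k : ℕ} (hm : 3 / 4 ≤ ∑ E ∈ Sd M k, wt x k E)
    (T : Finset (Word × Word × Word)) (P Q R : Word × Word × Word → Word → Prop)
    (h : ∀ t ∈ T, ∀ E ∈ Sd M k, ¬ P t (pre E k) → Q t (pre E k) ∨ R t (pre E k)) :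
    ∑ t ∈ T, w3 x t ≤ ∑ t ∈ T.filter (fun t => 1 / 4 ≤ em x M k (P t)), w3 x t +
      2 * ∑ t ∈ T, w3 x t * em x M k (Q t) + 2 * ∑ t ∈ T, w3 x t * em x M k (R t) := by
  rw [Finset.sum_filter, Finset.mul_sum, Finset.mul_sum, ← Finset.sum_add_distrib,
    ← Finset.sum_add_distrib]
  refine Finset.sum_le_sum ?_
  intro t ht
  have hw := gl_w3_nonneg hx t
  have h3 := gl_three hx (P t) (Q t) (R t) (h t ht)
  have hQ := gl_em_nonneg hx M k (Q t)
  have hR := gl_em_nonneg hx M k (R t)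
  by_cases h1 : 1 / 4 ≤ em x M k (P t)
  · rw [if_pos h1]
    have := mul_nonneg hw hQ
    have := mul_nonneg hw hR
    linarith
  · rw [if_neg h1]
    have h4 : 1 / 2 ≤ em x M k (Q t) + em x M k (R t) := by
      rw [not_le] at h1
      linarith
    have h5 : w3 x t * (1 / 2) ≤ w3 x t * (em x M k (Q t) + em x M k (R t)) :=
      mul_le_mul_of_nonneg_left h4 hw
    linarith

/-- bridges of given height, a window of heights -/
theorem gl_win {x : ℝ} (hx : 0 ≤ x) {L : ℕ} (hB : ∀ s, Bs x L s ≤ 1) (a : ℤ) (g : ℕ) :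
    ∑ w ∈ (wle L).filter (fun w => Br w ∧ a ≤ D w 0 ∧ D w 0 < a + g), x ^ w.length ≤ g := by
  have hmap : ∀ w ∈ (wle L).filter (fun w => Br w ∧ a ≤ D w 0 ∧ D w 0 < a + g),
      D w 0 ∈ Finset.Ico a (a + g) := by
    intro w hw
    rw [mem_filter] at hw
    rw [Finset.mem_Ico]
    exact hw.2.2
  rw [← Finset.sum_fiberwise_of_maps_to hmap]
  have hone : ∀ s ∈ Finset.Ico a (a + g),
      ∑ w ∈ ((wle L).filter (fun w => Br w ∧ a ≤ D w 0 ∧ D w 0 < a + g)).filter
        (fun w => D w 0 = s), x ^ w.length ≤ 1 := by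
    intro s _
    rcases lt_or_ge s 0 with hs | hs
    · refine le_trans (le_of_eq ?_) zero_le_one
      apply Finset.sum_eq_zero
      intro w hw
      rw [mem_filter, mem_filter] at hw
      exfalso
      have h1 := hw.1.2.1
      have h2 : 0 ≤ D w 0 := by
        by_cases h3 : w = []
        · rw [h3]; simp
        · exact (h1.pos h3).le
      rw [hw.2] at h2
      omega
    · obtain ⟨n, rfl⟩ := Int.eq_ofNat_of_zero_le hs
      have h1 := hB n
      unfold Bs at h1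
      refine le_trans (Finset.sum_le_sum_of_subset_of_nonneg ?_ ?_) h1
      · intro w hw
        rw [mem_filter, mem_filter] at hw
        rw [mem_filter]
        exact ⟨hw.1.1, hw.1.2.1, hw.2⟩
      · intro w _ _
        exact pow_nonneg hx _
  refine le_trans (Finset.sum_le_sum hone) ?_
  rw [Finset.sum_const, Int.card_Ico, nsmul_eq_mul, mul_one]
  have : (a + g - a).toNat = g := by
    rw [add_sub_cancel_left]
    simp
  rw [this]

/-- a crude bound -/
theorem gl_crude {x : ℝ} (hx : 0 ≤ x) {L : ℕ} (hB : ∀ s, Bs x L s ≤ 1) (s g : ℕ) :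
    XX x L s g ≤ (g : ℝ) ^ 2 := by
  set A := (wle L).filter (fun w => Br w ∧ D w 0 = (s : ℤ)) with hA
  set W := (wle L).filter (fun w => Br w ∧ ((s : ℤ) - g) ≤ D w 0 ∧ D w 0 < ((s : ℤ) - g) + g)
    with hW
  have hsub : TN L s g ⊆ A ×ˢ (W ×ˢ W) := by
    rintro ⟨a, b, c⟩ ht
    unfold TN TA at ht
    rw [mem_filter, mem_filter] at ht
    obtain ⟨⟨h1, ha, hb, hc, h2, h3, h4, h5, h6⟩, h7⟩ := ht
    rw [mem_product, mem_product] at h1
    rw [mem_product, mem_product, hA, hW, mem_filter, mem_filter, mem_filter]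
    refine ⟨⟨h1.1, ha, h2⟩, ⟨h1.2.1, hb, ?_, ?_⟩, h1.2.2, hc, ?_, ?_⟩ <;>
      (simp only at *; omega)
  have hS : ∑ t ∈ A ×ˢ (W ×ˢ W), w3 x t =
      (∑ a ∈ A, x ^ a.length) * ((∑ b ∈ W, x ^ b.length) * (∑ c ∈ W, x ^ c.length)) := by
    rw [Finset.sum_mul_sum, Finset.sum_product]
    simp only [Finset.sum_product]
    rw [Finset.sum_mul_sum]
    refine Finset.sum_congr rfl (fun a _ => ?_)
    refine Finset.sum_congr rfl (fun b _ => ?_)
    rw [Finset.mul_sum]
    refine Finset.sum_congr rfl (fun c _ => ?_)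
    unfold w3
    rw [pow_add, pow_add]
  have hW1 := gl_win hx hB ((s : ℤ) - g) g
  rw [← hW] at hW1
  have hA1 : ∑ a ∈ A, x ^ a.length ≤ 1 := hB s
  have hA0 : 0 ≤ ∑ a ∈ A, x ^ a.length := Finset.sum_nonneg (fun _ _ => pow_nonneg hx _)
  have hW0 : 0 ≤ ∑ a ∈ W, x ^ a.length := Finset.sum_nonneg (fun _ _ => pow_nonneg hx _)
  unfold XX
  calc ∑ t ∈ TN L s g, w3 x t ≤ ∑ t ∈ A ×ˢ (W ×ˢ W), w3 x t :=
        Finset.sum_le_sum_of_subset_of_nonneg hsub (fun t _ _ => gl_w3_nonneg hx t)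
    _ = (∑ a ∈ A, x ^ a.length) * ((∑ b ∈ W, x ^ b.length) * (∑ c ∈ W, x ^ c.length)) := hS
    _ ≤ 1 * ((g : ℝ) * g) :=
        mul_le_mul hA1 (mul_le_mul hW1 hW1 hW0 (Nat.cast_nonneg _)) (mul_nonneg hW0 hW0)
          zero_le_one
    _ = (g : ℝ) ^ 2 := by ring

end Pool.Agent.R19
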