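import Pool.Agent.R19.Avg9

/-! Room R19. The numbers of the exit: the mean number of positions near a walk with few points
around its end. -/

namespace Pool.Agent.R19
set_option maxHeartbeats 400000

open Finset Filter
open scoped Classical
open Pool.Agent.MP_794e6e_pr Pool.Agent.MP_794e6e_ex

theorem min_le_of_mul_le_sq {a b c : ℝ} (hc : 0 ≤ c)
    (h : a * b ≤ c ^ 2) : min a b ≤ c := by
  by_contra hcon
  push Not at hcon
  have h1 := lt_min_iff.1 hcon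
  nlinarith [h1.1, h1.2]

/-- the geometric mean of the two bounds in `cc` -/
theorem cc_geom {m y e : ℕ} (hm : 1 ≤ m) (hy : 1 ≤ y) {V Q : ℝ} (hQ : 0 ≤ Q)
    (h : V ≤ Q ^ 2 * (m : ℝ) ^ (2 * e + y + 1)) : cc m y V ≤ 2 * Q * (m : ℝ) ^ (e + 2) := by
  have hm0 : (0 : ℝ) < m := by exact_mod_cast hm
  unfold cc
  refine min_le_of_mul_le_sq (by positivity) ?_
  rw [← mul_div_assoc, div_le_iff₀ (by positivity)]
  calc 2 * (m : ℝ) ^ y * (2 * (m : ℝ) ^ y * V)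
      ≤ 2 * (m : ℝ) ^ y * (2 * (m : ℝ) ^ y * (Q ^ 2 * (m : ℝ) ^ (2 * e + y + 1))) := by
        refine mul_le_mul_of_nonneg_left (mul_le_mul_of_nonneg_left h ?_) ?_ <;> positivity
    _ = 4 * Q ^ 2 * (m : ℝ) ^ (y + y + (2 * e + y + 1)) := by
        rw [pow_add, pow_add]
        ring
    _ = 4 * Q ^ 2 * (m : ℝ) ^ ((e + 2) * 2 + 3 * (y - 1)) := by
        congr 2
        omega
    _ = (2 * Q * (m : ℝ) ^ (e + 2)) ^ 2 * (m : ℝ) ^ (3 * (y - 1)) := by
        rw [pow_add, pow_mul]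
        ring

/-- the mean number of positions at distance less than `200 m ^ (i + 1)` from the walk -/
theorem cc9 {m g y i : ℕ} (hm : 1 ≤ m) (hi : i + 1 ≤ g) (hy : g + 1 ≤ y) {A : Word}
    (hM : nn A (D A) (m ^ (y + 1)) ≤ m ^ (2 * g) * m ^ (y + 1)) :
    cc m y (vv A m y (200 * m ^ (i + 1))) ≤ 105200 * (m : ℝ) ^ (g + i + 3) := by
  have hm1 : (1 : ℝ) ≤ m := by exact_mod_cast hm
  have hM' : (nn A (D A) (m ^ (y + 1)) : ℝ) ≤ (m : ℝ) ^ (2 * g + (y + 1)) := by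
    rw [pow_add (m : ℝ) (2 * g) (y + 1)]
    exact_mod_cast hM
  have h1 : (m : ℝ) ^ (i + 1) ≤ (m : ℝ) ^ (2 * g + (y + 1)) :=
    pow_le_pow_right₀ hm1 (by omega)
  have h2 := cc_geom (e := g + (i + 1)) (Q := 52600) hm (by omega)
    (by norm_num) (show vv A m y (200 * m ^ (i + 1)) ≤
      52600 ^ 2 * (m : ℝ) ^ (2 * (g + (i + 1)) + y + 1) by
    unfold vv
    push_cast
    calc 343 * (200 * (m : ℝ) ^ (i + 1)) ^ 2 *
          ((nn A (D A) (m ^ (y + 1)) : ℝ) + 200 * (m : ℝ) ^ (i + 1))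
        ≤ 343 * (200 * (m : ℝ) ^ (i + 1)) ^ 2 * (201 * (m : ℝ) ^ (2 * g + (y + 1))) := by
          refine mul_le_mul_of_nonneg_left ?_ (by positivity)
          linarith
      _ = 343 * 40000 * 201 * ((m : ℝ) ^ (i + 1 + (i + 1) + (2 * g + (y + 1)))) := by
          rw [pow_add (m : ℝ) (i + 1 + (i + 1)) (2 * g + (y + 1)), pow_add (m : ℝ) (i + 1) (i + 1)]
          ring
      _ = 343 * 40000 * 201 * (m : ℝ) ^ (2 * (g + (i + 1)) + y + 1) := by
          congr 2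
          omega
      _ ≤ _ := by
          refine mul_le_mul_of_nonneg_right (by norm_num) (by positivity))
  refine h2.trans (le_of_eq ?_)
  have e : g + (i + 1) + 2 = g + i + 3 := by omega
  rw [e]
  norm_num

/-- the mean number of obstacles on a segment -/
theorem cc9_one {m g y : ℕ} (hm : 1 ≤ m) (hy : g + 1 ≤ y) {A : Word}
    (hM : nn A (D A) (m ^ (y + 1)) ≤ m ^ (2 * g) * m ^ (y + 1)) :
    cc m y (vv A m y 1) ≤ 54 * (m : ℝ) ^ (g + 2) := by
  have hm1 : (1 : ℝ) ≤ m := by exact_mod_cast hm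
  have hM' : (nn A (D A) (m ^ (y + 1)) : ℝ) ≤ (m : ℝ) ^ (2 * g + y + 1) := by
    have e : 2 * g + y + 1 = 2 * g + (y + 1) := by omega
    rw [e, pow_add (m : ℝ) (2 * g) (y + 1)]
    exact_mod_cast hM
  have h1 : (1 : ℝ) ≤ (m : ℝ) ^ (2 * g + y + 1) := one_le_pow₀ hm1
  have h2 := cc_geom (e := g) (Q := 27) hm (by omega)
    (by norm_num) (show vv A m y 1 ≤ 27 ^ 2 * (m : ℝ) ^ (2 * g + y + 1) by
    unfold vv
    push_cast
    nlinarith)
  refine h2.trans (le_of_eq ?_)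
  norm_num

/-- the cost of the scale `i` on a segment of scale `m ^ y`, if the cost per unit length is at
most `q m / m ^ i` -/
theorem cost9 {m g y i : ℕ} (hm : 1 ≤ m) (hi : i + 1 ≤ g) (hy : g + 1 ≤ y) {A : Word}
    (hM : nn A (D A) (m ^ (y + 1)) ≤ m ^ (2 * g) * m ^ (y + 1)) {q α : ℝ}
    (hα : α * (m : ℝ) ^ i ≤ q * m) (hα0 : 0 ≤ α) :
    α * (400 * (m : ℝ) ^ (i + 1) + cc m y (vv A m y (200 * m ^ (i + 1)))) ≤
      105600 * q * (m : ℝ) ^ (g + 4) := by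
  have hm1 : (1 : ℝ) ≤ m := by exact_mod_cast hm
  have h1 := cc9 hm hi hy hM
  have h2 : (m : ℝ) ^ (i + 1) ≤ (m : ℝ) ^ (g + i + 3) := pow_le_pow_right₀ hm1 (by omega)
  calc α * (400 * (m : ℝ) ^ (i + 1) + cc m y (vv A m y (200 * m ^ (i + 1))))
      ≤ α * (105600 * (m : ℝ) ^ (g + i + 3)) :=
        mul_le_mul_of_nonneg_left (by linarith) hα0
    _ = 105600 * (m : ℝ) ^ (g + 3) * (α * (m : ℝ) ^ i) := by
        have e : g + i + 3 = (g + 3) + i := by omega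
        rw [e, pow_add]
        ring
    _ ≤ 105600 * (m : ℝ) ^ (g + 3) * (q * m) := mul_le_mul_of_nonneg_left hα (by positivity)
    _ = _ := by
        have e : g + 4 = (g + 3) + 1 := by omega
        rw [e, pow_succ]
        ring

/-- the length of the scale `i` on a segment of scale `m ^ y`: only the trivial bound of `cc` -/
theorem length9 {m y i z : ℕ} (hm : 1 ≤ m) (hi : i + 1 ≤ y) {V : ℝ} {β : ℝ}
    (hβ0 : 0 ≤ β) (hβ : β ≤ (m : ℝ) ^ z) :
    β * (400 * (m : ℝ) ^ (i + 1) + cc m y V) ≤ 402 * (m : ℝ) ^ (z + y) := by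
  have hm1 : (1 : ℝ) ≤ m := by exact_mod_cast hm
  have h1 : cc m y V ≤ 2 * (m : ℝ) ^ y := by
    unfold cc
    exact min_le_left _ _
  have h2 : (m : ℝ) ^ (i + 1) ≤ (m : ℝ) ^ y := pow_le_pow_right₀ hm1 hi
  calc β * (400 * (m : ℝ) ^ (i + 1) + cc m y V) ≤ β * (402 * (m : ℝ) ^ y) :=
        mul_le_mul_of_nonneg_left (by linarith) hβ0
    _ ≤ (m : ℝ) ^ z * (402 * (m : ℝ) ^ y) := mul_le_mul_of_nonneg_right hβ (by positivity)
    _ = _ := by rw [pow_add]; ring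

end Pool.Agent.R19
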