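import Mathlib

/-! Time regularity of the powers of a normal convolution operator, without spectral theory. -/

set_option linter.unusedSectionVars false
set_option linter.style.longLine false
set_option linter.unusedVariables false

namespace Pool.Agent.R19

open Finset

/-! ### polynomials -/

/-- the average of the first `h` powers -/
noncomputable def eh (h : ℕ) : Polynomial ℝ :=
  Polynomial.C (1 / (h : ℝ)) * ∑ k ∈ range h, Polynomial.X ^ k

/-- `1 - (1 - e)^m` -/
noncomputable def Pm (h m : ℕ) : Polynomial ℝ := 1 - (1 - eh h) ^ m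

theorem coeff_eh_mul (h : ℕ) (p : Polynomial ℝ) (k : ℕ) :
    (eh h * p).coeff k = 1 / (h : ℝ) * ∑ j ∈ range h, if j ≤ k then p.coeff (k - j) else 0 := by
  unfold eh
  rw [mul_assoc, Polynomial.coeff_C_mul, Finset.sum_mul, Polynomial.finsetSum_coeff]
  congr 1
  refine Finset.sum_congr rfl ?_
  intro j _
  rw [Polynomial.coeff_X_pow_mul']

theorem abs_coeff_eh_mul {h : ℕ} (hh : 1 ≤ h) (p : Polynomial ℝ) {c : ℝ} (hc : 0 ≤ c)
    (hp : ∀ k, |p.coeff k| ≤ c) (k : ℕ) : |(eh h * p).coeff k| ≤ c := by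
  have hh' : (0 : ℝ) < h := by exact_mod_cast hh
  rw [coeff_eh_mul, abs_mul, abs_of_nonneg (by positivity : (0 : ℝ) ≤ 1 / (h : ℝ))]
  have h1 : |∑ j ∈ range h, if j ≤ k then p.coeff (k - j) else 0| ≤ ∑ j ∈ range h, c := by
    refine le_trans (Finset.abs_sum_le_sum_abs _ _) ?_
    refine Finset.sum_le_sum ?_
    intro j _
    by_cases hj : j ≤ k
    · rw [if_pos hj]; exact hp _
    · rw [if_neg hj, abs_zero]; exact hc
  rw [Finset.sum_const, card_range, nsmul_eq_mul] at h1
  calc 1 / (h : ℝ) * |∑ j ∈ range h, if j ≤ k then p.coeff (k - j) else 0|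
      ≤ 1 / (h : ℝ) * (h * c) := mul_le_mul_of_nonneg_left h1 (by positivity)
    _ = c := by field_simp

theorem abs_coeff_eh {h : ℕ} (hh : 1 ≤ h) (k : ℕ) : |(eh h).coeff k| ≤ 1 / (h : ℝ) := by
  have hh' : (0 : ℝ) < h := by exact_mod_cast hh
  have h1 : (eh h).coeff k = 1 / (h : ℝ) * (if k < h then 1 else 0) := by
    unfold eh
    rw [Polynomial.coeff_C_mul, Polynomial.finsetSum_coeff]
    congr 1
    have : ∀ j ∈ range h, (Polynomial.X ^ j : Polynomial ℝ).coeff k = if k = j then 1 else 0 := by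
      intro j _
      rw [Polynomial.coeff_X_pow]
    rw [Finset.sum_congr rfl this, Finset.sum_ite_eq]
    simp only [Finset.mem_range]
  rw [h1, abs_mul, abs_of_nonneg (by positivity : (0 : ℝ) ≤ 1 / (h : ℝ))]
  by_cases hk : k < h
  · rw [if_pos hk]; simp
  · rw [if_neg hk]
    simp only [abs_zero, mul_zero]
    positivity

theorem Pm_succ (h m : ℕ) : Pm h (m + 1) = eh h + (Pm h m - eh h * Pm h m) := by
  unfold Pm
  ring

theorem abs_coeff_Pm {h : ℕ} (hh : 1 ≤ h) (m : ℕ) :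
    ∀ k, |(Pm h m).coeff k| ≤ (2 ^ m - 1) / (h : ℝ) := by
  have hh' : (0 : ℝ) < h := by exact_mod_cast hh
  induction m with
  | zero =>
    intro k
    simp [Pm]
  | succ m ih =>
    intro k
    have hc : (0 : ℝ) ≤ (2 ^ m - 1) / (h : ℝ) := by
      refine div_nonneg ?_ hh'.le
      have : (1 : ℝ) ≤ 2 ^ m := one_le_pow₀ (by norm_num)
      linarith
    rw [Pm_succ, Polynomial.coeff_add, Polynomial.coeff_sub]
    have h1 := abs_coeff_eh hh k
    have h2 := ih k
    have h3 := abs_coeff_eh_mul hh (Pm h m) hc ih k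
    have h4 : |(eh h).coeff k + ((Pm h m).coeff k - (eh h * Pm h m).coeff k)| ≤
        |(eh h).coeff k| + (|(Pm h m).coeff k| + |(eh h * Pm h m).coeff k|) := by
      refine le_trans (abs_add_le _ _) ?_
      refine add_le_add le_rfl ?_
      exact abs_sub _ _
    refine le_trans h4 ?_
    have h5 : (2 ^ (m + 1) - 1) / (h : ℝ) =
        1 / (h : ℝ) + ((2 ^ m - 1) / (h : ℝ) + (2 ^ m - 1) / (h : ℝ)) := by
      rw [pow_succ]
      ring
    rw [h5]
    linarith

theorem natDegree_eh (h : ℕ) (hh : 1 ≤ h) : (eh h).natDegree ≤ h := by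
  unfold eh
  refine le_trans (Polynomial.natDegree_C_mul_le _ _) ?_
  refine Polynomial.natDegree_sum_le_of_forall_le _ _ ?_
  intro k hk
  rw [Finset.mem_range] at hk
  rw [Polynomial.natDegree_X_pow]
  exact hk.le

theorem natDegree_Pm (h m : ℕ) (hh : 1 ≤ h) : (Pm h m).natDegree < m * h + 1 := by
  unfold Pm
  have h1 : (1 - eh h).natDegree ≤ h := by
    refine le_trans (Polynomial.natDegree_sub_le _ _) ?_
    rw [Polynomial.natDegree_one]
    exact max_le (Nat.zero_le _) (natDegree_eh h hh)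
  have h2 : ((1 - eh h) ^ m).natDegree ≤ m * h :=
    le_trans Polynomial.natDegree_pow_le (Nat.mul_le_mul_left m h1)
  have h3 := Polynomial.natDegree_sub_le 1 ((1 - eh h) ^ m)
  rw [Polynomial.natDegree_one] at h3
  have h4 : max 0 ((1 - eh h) ^ m).natDegree ≤ m * h := max_le (Nat.zero_le _) h2
  omega

/-- the quotient of `1 - e` by `1 - X` -/
noncomputable def qh (h : ℕ) : Polynomial ℝ :=
  Polynomial.C (1 / (h : ℝ)) * ∑ k ∈ range h, ∑ i ∈ range k, Polynomial.X ^ i

theorem one_sub_eh {h : ℕ} (hh : 1 ≤ h) : 1 - eh h = (1 - Polynomial.X) * qh h := by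
  have hh' : (h : ℝ) ≠ 0 := by
    have : (0 : ℝ) < h := by exact_mod_cast hh
    exact this.ne'
  unfold eh qh
  have h1 : ∀ k : ℕ, (1 - Polynomial.X : Polynomial ℝ) * ∑ i ∈ range k, Polynomial.X ^ i =
      1 - Polynomial.X ^ k := by
    intro k
    exact mul_neg_geom_sum _ _
  have h2 : (1 - Polynomial.X : Polynomial ℝ) * (Polynomial.C (1 / (h : ℝ)) *
      ∑ k ∈ range h, ∑ i ∈ range k, Polynomial.X ^ i) =
      Polynomial.C (1 / (h : ℝ)) * ∑ k ∈ range h, (1 - Polynomial.X ^ k) := by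
    rw [mul_left_comm, Finset.mul_sum]
    congr 1
    exact Finset.sum_congr rfl (fun k _ => h1 k)
  rw [h2, Finset.sum_sub_distrib, mul_sub, Finset.sum_const, card_range, nsmul_eq_mul, mul_one]
  congr 1
  rw [← Polynomial.C_eq_natCast, ← Polynomial.C_mul, one_div, inv_mul_cancel₀ hh', Polynomial.C_1]

theorem coeff_mul_nonneg {p q : Polynomial ℝ} (hp : ∀ k, 0 ≤ p.coeff k)
    (hq : ∀ k, 0 ≤ q.coeff k) (k : ℕ) : 0 ≤ (p * q).coeff k := by
  rw [Polynomial.coeff_mul]
  exact Finset.sum_nonneg (fun x _ => mul_nonneg (hp _) (hq _))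

theorem coeff_pow_nonneg {p : Polynomial ℝ} (hp : ∀ k, 0 ≤ p.coeff k) (m : ℕ) :
    ∀ k, 0 ≤ (p ^ m).coeff k := by
  induction m with
  | zero =>
    intro k
    rw [pow_zero, Polynomial.coeff_one]
    split <;> norm_num
  | succ m ih =>
    intro k
    rw [pow_succ]
    exact coeff_mul_nonneg ih hp k

theorem coeff_qh_nonneg (h : ℕ) (k : ℕ) : 0 ≤ (qh h).coeff k := by
  unfold qh
  rw [Polynomial.coeff_C_mul, Polynomial.finsetSum_coeff]
  refine mul_nonneg (by positivity) (Finset.sum_nonneg ?_)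
  intro i _
  rw [Polynomial.finsetSum_coeff]
  refine Finset.sum_nonneg ?_
  intro a _
  rw [Polynomial.coeff_X_pow]
  split <;> norm_num

theorem eval_qh_le (h : ℕ) : (qh h).eval 1 ≤ h / 2 := by
  unfold qh
  rw [Polynomial.eval_mul, Polynomial.eval_C, Polynomial.eval_finsetSum]
  have h1 : ∀ k ∈ range h, Polynomial.eval 1 (∑ i ∈ range k, (Polynomial.X : Polynomial ℝ) ^ i) =
      (k : ℝ) := by
    intro k _
    rw [Polynomial.eval_finsetSum]
    simp
  rw [Finset.sum_congr rfl h1]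
  rcases Nat.eq_zero_or_pos h with h0 | h0
  · subst h0; simp
  · have h2 : (∑ k ∈ range h, (k : ℝ)) * 2 = (h : ℝ) * (h - 1) := by
      have := Finset.sum_range_id_mul_two h
      have h3 : ((∑ k ∈ range h, k) * 2 : ℕ) = h * (h - 1) := this
      have h4 : (((∑ k ∈ range h, k) * 2 : ℕ) : ℝ) = ((h * (h - 1) : ℕ) : ℝ) := by rw [h3]
      push_cast [Nat.cast_sub h0] at h4
      exact h4
    have hh' : (0 : ℝ) < h := by exact_mod_cast h0
    rw [div_mul_eq_mul_div, one_mul, div_le_div_iff₀ hh' (by norm_num)]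
    rw [h2]
    nlinarith

theorem eval_qh_nonneg (h : ℕ) : 0 ≤ (qh h).eval 1 := by
  rw [Polynomial.eval_eq_sum_range]
  refine Finset.sum_nonneg ?_
  intro i _
  rw [one_pow, mul_one]
  exact coeff_qh_nonneg h i

/-! ### the abstract inequalities -/

section Abstract

variable {A : Type*} [CommRing A] [Algebra ℝ A]

/-- the splitting -/
theorem split_le (L : A →ₗ[ℝ] ℝ) (R : A) (hL : ∀ k, 0 ≤ L (R ^ k)) {h : ℕ} (hh : 1 ≤ h) (m : ℕ) :
    L 1 ≤ 2 ^ m / (h : ℝ) * ∑ k ∈ range (m * h + 1), L (R ^ k) +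
      L ((1 - Polynomial.aeval R (eh h)) ^ m) := by
  have hh' : (0 : ℝ) < h := by exact_mod_cast hh
  have h1 : (1 : A) = Polynomial.aeval R (Pm h m) + (1 - Polynomial.aeval R (eh h)) ^ m := by
    unfold Pm
    rw [map_sub, map_one, map_pow, map_sub, map_one]
    ring
  have h2 : L (Polynomial.aeval R (Pm h m)) ≤
      2 ^ m / (h : ℝ) * ∑ k ∈ range (m * h + 1), L (R ^ k) := by
    rw [Polynomial.aeval_eq_sum_range' (natDegree_Pm h m hh), map_sum, Finset.mul_sum]
    refine Finset.sum_le_sum ?_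
    intro k _
    rw [map_smul, smul_eq_mul]
    refine mul_le_mul_of_nonneg_right ?_ (hL k)
    refine le_trans (le_abs_self _) (le_trans (abs_coeff_Pm hh m k) ?_)
    exact div_le_div_of_nonneg_right (by linarith) hh'.le
  calc L 1 = L (Polynomial.aeval R (Pm h m)) + L ((1 - Polynomial.aeval R (eh h)) ^ m) := by
        rw [← map_add, ← h1]
    _ ≤ _ := add_le_add h2 le_rfl

variable (τ : A →ₗ[ℝ] ℝ) (R : A) (hb : ∀ i j, 0 ≤ τ (R ^ i * (1 - R) ^ j))

include hb

theorem b_succ (i j : ℕ) : τ (R ^ i * (1 - R) ^ (j + 1)) =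
    τ (R ^ i * (1 - R) ^ j) - τ (R ^ (i + 1) * (1 - R) ^ j) := by
  rw [← map_sub]
  congr 1
  ring

theorem b_anti {i i' : ℕ} (hi : i ≤ i') (j : ℕ) :
    τ (R ^ i' * (1 - R) ^ j) ≤ τ (R ^ i * (1 - R) ^ j) := by
  induction i', hi using Nat.le_induction with
  | base => exact le_rfl
  | succ i' _ ih =>
    have h1 := b_succ τ R hb i' j
    have h2 := hb i' (j + 1)
    linarith

theorem b_step (i j N : ℕ) : (N : ℝ) * τ (R ^ (i + N) * (1 - R) ^ (j + 1)) ≤
    τ (R ^ i * (1 - R) ^ j) := by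
  have h1 : ∀ n : ℕ, ∑ t ∈ range n, τ (R ^ (i + t) * (1 - R) ^ (j + 1)) =
      τ (R ^ i * (1 - R) ^ j) - τ (R ^ (i + n) * (1 - R) ^ j) := by
    intro n
    induction n with
    | zero => simp
    | succ n ih =>
      rw [Finset.sum_range_succ, ih, b_succ τ R hb, add_assoc]
      ring
  have h2 : (N : ℝ) * τ (R ^ (i + N) * (1 - R) ^ (j + 1)) ≤
      ∑ t ∈ range N, τ (R ^ (i + t) * (1 - R) ^ (j + 1)) := by
    have h3 : ∑ t ∈ range N, τ (R ^ (i + N) * (1 - R) ^ (j + 1)) ≤
        ∑ t ∈ range N, τ (R ^ (i + t) * (1 - R) ^ (j + 1)) := by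
      refine Finset.sum_le_sum ?_
      intro t ht
      rw [Finset.mem_range] at ht
      exact b_anti τ R hb (by omega) (j + 1)
    rwa [Finset.sum_const, card_range, nsmul_eq_mul] at h3
  have h4 := hb (i + N) j
  rw [h1 N] at h2
  linarith

theorem b_decay (h1 : τ 1 ≤ 1) (N : ℕ) : ∀ j n : ℕ, j * N ≤ n →
    (N : ℝ) ^ j * τ (R ^ n * (1 - R) ^ j) ≤ 1 := by
  intro j
  induction j with
  | zero =>
    intro n _
    have h2 := b_anti τ R hb (Nat.zero_le n) 0
    simp only [pow_zero, mul_one, one_mul] at h2 ⊢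
    linarith
  | succ j ih =>
    intro n hn
    have h2 : j * N + N ≤ n := by
      have : (j + 1) * N = j * N + N := by ring
      omega
    obtain ⟨i, rfl⟩ : ∃ i, n = i + N := ⟨n - N, by omega⟩
    have h3 := b_step τ R hb i j N
    have h4 := ih i (by omega)
    calc (N : ℝ) ^ (j + 1) * τ (R ^ (i + N) * (1 - R) ^ (j + 1))
        = (N : ℝ) ^ j * ((N : ℝ) * τ (R ^ (i + N) * (1 - R) ^ (j + 1))) := by ring
      _ ≤ (N : ℝ) ^ j * τ (R ^ i * (1 - R) ^ j) :=
          mul_le_mul_of_nonneg_left h3 (by positivity)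
      _ ≤ 1 := h4

theorem b_poly (n j : ℕ) (q : Polynomial ℝ) (hq : ∀ k, 0 ≤ q.coeff k) :
    τ (R ^ n * (1 - R) ^ j * Polynomial.aeval R q) ≤ q.eval 1 * τ (R ^ n * (1 - R) ^ j) := by
  rw [Polynomial.aeval_eq_sum_range, Polynomial.eval_eq_sum_range, Finset.mul_sum, map_sum,
    Finset.sum_mul]
  refine Finset.sum_le_sum ?_
  intro k _
  rw [mul_smul_comm, map_smul, smul_eq_mul, one_pow, mul_one]
  refine mul_le_mul_of_nonneg_left ?_ (hq k)
  have h1 := b_anti τ R hb (show n ≤ n + k by omega) j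
  refine le_trans (le_of_eq ?_) h1
  congr 1
  ring

/-- the decay of the remainder -/
theorem rest_le (h1 : τ 1 ≤ 1) {h : ℕ} (hh : 1 ≤ h) {N : ℕ} (hN : 1 ≤ N) (m n : ℕ)
    (hn : m * N ≤ n) :
    τ (R ^ n * (1 - Polynomial.aeval R (eh h)) ^ m) ≤ ((h : ℝ) / (2 * N)) ^ m := by
  have hN' : (0 : ℝ) < N := by exact_mod_cast hN
  have e1 : (1 - Polynomial.aeval R (eh h)) = (1 - R) * Polynomial.aeval R (qh h) := by
    have h2 := congrArg (Polynomial.aeval R) (one_sub_eh hh)
    rw [map_sub, map_one, map_mul, map_sub, map_one, Polynomial.aeval_X] at h2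
    exact h2
  have e2 : R ^ n * (1 - Polynomial.aeval R (eh h)) ^ m =
      R ^ n * (1 - R) ^ m * Polynomial.aeval R (qh h ^ m) := by
    rw [e1, mul_pow, map_pow]
    ring
  rw [e2]
  refine le_trans (b_poly τ R hb n m _ (coeff_pow_nonneg (coeff_qh_nonneg h) m)) ?_
  rw [Polynomial.eval_pow]
  have h3 := b_decay τ R hb h1 N m n hn
  have h4 : τ (R ^ n * (1 - R) ^ m) ≤ 1 / (N : ℝ) ^ m := by
    rw [le_div_iff₀ (by positivity), mul_comm]
    exact h3
  calc Polynomial.eval 1 (qh h) ^ m * τ (R ^ n * (1 - R) ^ m)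
      ≤ ((h : ℝ) / 2) ^ m * (1 / (N : ℝ) ^ m) := by
        refine mul_le_mul ?_ h4 (hb n m) (by positivity)
        exact pow_le_pow_left₀ (eval_qh_nonneg h) (eval_qh_le h) m
    _ = ((h : ℝ) / (2 * N)) ^ m := by
        rw [div_pow, div_pow, mul_pow]
        field_simp

end Abstract

section Concrete

open AddMonoidAlgebra
open Classical

variable {V : Type*} [AddCommGroup V]

/-- the mirror image -/
noncomputable def mir : AddMonoidAlgebra ℝ V →ₐ[ℝ] AddMonoidAlgebra ℝ V :=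
  AddMonoidAlgebra.mapDomainAlgHom ℝ ℝ (negAddMonoidHom (α := V))

theorem mir_single (v : V) (c : ℝ) :
    mir (AddMonoidAlgebra.single v c) = AddMonoidAlgebra.single (-v) c :=
  AddMonoidAlgebra.mapDomain_single

theorem coeff_mir (a : AddMonoidAlgebra ℝ V) (x : V) : (mir a).coeff x = a.coeff (-x) := by
  induction a using AddMonoidAlgebra.induction_linear with
  | zero => simp
  | add a b ha hb =>
    rw [map_add, AddMonoidAlgebra.coeff_add, AddMonoidAlgebra.coeff_add, Finsupp.add_apply,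
      Finsupp.add_apply, ha, hb]
  | single v c =>
    rw [mir_single, AddMonoidAlgebra.coeff_single, AddMonoidAlgebra.coeff_single,
      Finsupp.single_apply, Finsupp.single_apply]
    have : (-v = x) = (v = -x) := by
      apply propext
      constructor
      · intro h; rw [← h, neg_neg]
      · intro h; rw [h, neg_neg]
    simp only [this]

theorem mir_mir (a : AddMonoidAlgebra ℝ V) : mir (mir a) = a := by
  ext x
  rw [coeff_mir, coeff_mir, neg_neg]

/-- the coefficient at `0` -/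
noncomputable def tau0 : AddMonoidAlgebra ℝ V →ₗ[ℝ] ℝ where
  toFun a := a.coeff 0
  map_add' a b := by simp
  map_smul' c a := by simp

theorem tau0_apply (a : AddMonoidAlgebra ℝ V) : tau0 a = a.coeff 0 := rfl

theorem tau0_mir (a : AddMonoidAlgebra ℝ V) : tau0 (mir a) = tau0 a := by
  rw [tau0_apply, tau0_apply, coeff_mir, neg_zero]

theorem tau0_mul (a c : AddMonoidAlgebra ℝ V) :
    tau0 (a * c) = a.coeff.sum fun x r => r * c.coeff (-x) := by
  induction a using AddMonoidAlgebra.induction_linear with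
  | zero => simp
  | add a b ha hb =>
    rw [add_mul, map_add, ha, hb, AddMonoidAlgebra.coeff_add, Finsupp.sum_add_index']
    · intro x; rw [zero_mul]
    · intro x r s; rw [add_mul]
  | single v r =>
    rw [tau0_apply, AddMonoidAlgebra.coeff_single_mul_apply, AddMonoidAlgebra.coeff_single,
      Finsupp.sum_single_index, add_zero]
    rw [zero_mul]

theorem tau0_sq (a : AddMonoidAlgebra ℝ V) :
    tau0 (a * mir a) = ∑ x ∈ a.coeff.support, a.coeff x ^ 2 := by
  rw [tau0_mul, Finsupp.sum]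
  refine Finset.sum_congr rfl ?_
  intro x _
  rw [coeff_mir, neg_neg, sq]

theorem tau0_sq_nonneg (a : AddMonoidAlgebra ℝ V) : 0 ≤ tau0 (a * mir a) := by
  rw [tau0_sq]
  exact Finset.sum_nonneg (fun _ _ => sq_nonneg _)

theorem tau0_shift_le (v : V) (a : AddMonoidAlgebra ℝ V) :
    tau0 (AddMonoidAlgebra.single v 1 * (a * mir a)) ≤ tau0 (a * mir a) := by
  have h1 := tau0_sq_nonneg (a - AddMonoidAlgebra.single v 1 * a)
  have h2 : (AddMonoidAlgebra.single v 1 : AddMonoidAlgebra ℝ V) * AddMonoidAlgebra.single (-v) 1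
      = 1 := by
    rw [AddMonoidAlgebra.single_mul_single, add_neg_cancel, one_mul,
      AddMonoidAlgebra.one_def]
  have h3 : (a - AddMonoidAlgebra.single v 1 * a) * mir (a - AddMonoidAlgebra.single v 1 * a) =
      (a * mir a + (AddMonoidAlgebra.single v 1 * AddMonoidAlgebra.single (-v) 1) * (a * mir a)) -
      (AddMonoidAlgebra.single v 1 * (a * mir a) +
        AddMonoidAlgebra.single (-v) 1 * (a * mir a)) := by
    rw [map_sub, map_mul, mir_single]
    ring
  rw [h3, h2, one_mul, map_sub, map_add, map_add] at h1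
  have h4 : tau0 (AddMonoidAlgebra.single (-v) 1 * (a * mir a)) =
      tau0 (AddMonoidAlgebra.single v 1 * (a * mir a)) := by
    have e : mir (AddMonoidAlgebra.single v 1 * (a * mir a)) =
        AddMonoidAlgebra.single (-v) 1 * (a * mir a) := by
      rw [map_mul, map_mul, mir_mir, mir_single, mul_comm (mir a) a]
    rw [← tau0_mir (AddMonoidAlgebra.single v 1 * (a * mir a)), e]
  rw [h4] at h1
  linarith

variable {P : Type*} (F : Finset P) (w : P → ℝ) (D : P → V)

/-- the law of a piece -/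
noncomputable def law : AddMonoidAlgebra ℝ V := ∑ p ∈ F, AddMonoidAlgebra.single (D p) (w p)

theorem mir_law : mir (law F w D) = ∑ p ∈ F, AddMonoidAlgebra.single (-D p) (w p) := by
  unfold law
  rw [map_sum]
  exact Finset.sum_congr rfl (fun p _ => mir_single _ _)

theorem single_smul_one (v : V) (c : ℝ) : (AddMonoidAlgebra.single v c : AddMonoidAlgebra ℝ V) =
    c • AddMonoidAlgebra.single v 1 := by
  rw [AddMonoidAlgebra.smul_single, smul_eq_mul, mul_one]

variable {F w D}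

theorem tau0_law_le (hw : ∀ p ∈ F, 0 ≤ w p) (hw1 : ∑ p ∈ F, w p ≤ 1)
    (a : AddMonoidAlgebra ℝ V) :
    tau0 ((law F w D * mir (law F w D)) * (a * mir a)) ≤ tau0 (a * mir a) := by
  have h1 : (law F w D * mir (law F w D)) * (a * mir a) =
      ∑ p ∈ F, ∑ q ∈ F, (w p * w q) • (AddMonoidAlgebra.single (D p - D q) 1 * (a * mir a)) := by
    rw [mir_law]
    unfold law
    rw [Finset.sum_mul_sum, Finset.sum_mul]
    refine Finset.sum_congr rfl ?_
    intro p _
    rw [Finset.sum_mul]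
    refine Finset.sum_congr rfl ?_
    intro q _
    rw [AddMonoidAlgebra.single_mul_single, ← sub_eq_add_neg, single_smul_one, smul_mul_assoc]
  have h0 := tau0_sq_nonneg a
  have hs : 0 ≤ ∑ p ∈ F, w p := Finset.sum_nonneg hw
  rw [h1, map_sum]
  calc ∑ p ∈ F, tau0 (∑ q ∈ F, (w p * w q) •
        (AddMonoidAlgebra.single (D p - D q) 1 * (a * mir a)))
      ≤ ∑ p ∈ F, ∑ q ∈ F, (w p * w q) * tau0 (a * mir a) := by
        refine Finset.sum_le_sum ?_
        intro p hp
        rw [map_sum]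
        refine Finset.sum_le_sum ?_
        intro q hq
        rw [map_smul, smul_eq_mul]
        exact mul_le_mul_of_nonneg_left (tau0_shift_le _ _) (mul_nonneg (hw p hp) (hw q hq))
    _ = (∑ p ∈ F, w p) * (∑ q ∈ F, w q) * tau0 (a * mir a) := by
        rw [Finset.sum_mul_sum, Finset.sum_mul]
        refine Finset.sum_congr rfl ?_
        intro p _
        rw [Finset.sum_mul]
    _ ≤ 1 * tau0 (a * mir a) := by
        refine mul_le_mul_of_nonneg_right ?_ h0
        calc (∑ p ∈ F, w p) * (∑ q ∈ F, w q) ≤ 1 * 1 :=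
              mul_le_mul hw1 hw1 hs zero_le_one
          _ = 1 := one_mul 1
    _ = tau0 (a * mir a) := one_mul _

theorem tau0_one : tau0 (1 : AddMonoidAlgebra ℝ V) = 1 := by
  rw [tau0_apply, AddMonoidAlgebra.one_def, AddMonoidAlgebra.coeff_single, Finsupp.single_apply]
  simp

theorem law_pos (hw : ∀ p ∈ F, 0 ≤ w p) (hw1 : ∑ p ∈ F, w p ≤ 1) (i j : ℕ) :
    0 ≤ tau0 ((law F w D * mir (law F w D)) ^ i * (1 - law F w D * mir (law F w D)) ^ j) := by
  set μ := law F w D with hμ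
  have hR : mir (μ * mir μ) = μ * mir μ := by rw [map_mul, mir_mir, mul_comm]
  have key : ∀ t : ℕ, (μ ^ i * (1 - μ * mir μ) ^ t) * mir (μ ^ i * (1 - μ * mir μ) ^ t) =
      (μ * mir μ) ^ i * (1 - μ * mir μ) ^ (2 * t) := by
    intro t
    rw [map_mul, map_pow, map_pow, map_sub, map_one, hR, mul_pow, pow_mul']
    ring
  rcases Nat.even_or_odd' j with ⟨t, h | h⟩
  · rw [h, ← key t]
    exact tau0_sq_nonneg _
  · have h1 := tau0_law_le (D := D) hw hw1 (μ ^ i * (1 - μ * mir μ) ^ t)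
    rw [← hμ, key t] at h1
    have h2 : (μ * mir μ) ^ i * (1 - μ * mir μ) ^ j =
        (μ * mir μ) ^ i * (1 - μ * mir μ) ^ (2 * t) -
        (μ * mir μ) * ((μ * mir μ) ^ i * (1 - μ * mir μ) ^ (2 * t)) := by
      rw [h, pow_succ]
      ring
    rw [h2, map_sub]
    linarith

/-- evaluation of a function -/
noncomputable def ev (l : V → ℝ) : AddMonoidAlgebra ℝ V →ₗ[ℝ] ℝ where
  toFun a := a.coeff.sum fun x c => c * l x
  map_add' a b := by
    rw [AddMonoidAlgebra.coeff_add, Finsupp.sum_add_index']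
    · intro x; rw [zero_mul]
    · intro x r s; rw [add_mul]
  map_smul' c a := by
    rw [AddMonoidAlgebra.coeff_smul, Finsupp.sum_smul_index]
    · rw [RingHom.id_apply, smul_eq_mul, Finsupp.mul_sum]
      exact Finsupp.sum_congr (fun x _ => by ring)
    · intro x; rw [zero_mul]

theorem ev_apply (l : V → ℝ) (a : AddMonoidAlgebra ℝ V) :
    ev l a = ∑ x ∈ a.coeff.support, a.coeff x * l x := rfl

theorem ev_single (l : V → ℝ) (v : V) (c : ℝ) : ev l (AddMonoidAlgebra.single v c) = c * l v := by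
  change (AddMonoidAlgebra.single v c).coeff.sum (fun x c => c * l x) = c * l v
  rw [AddMonoidAlgebra.coeff_single, Finsupp.sum_single_index]
  rw [zero_mul]

theorem ev_le (l : V → ℝ) (h0 : ∀ x, 0 ≤ l x) (h1 : ∀ x, l x ≤ 1) (X : Finset V)
    (hX : ∀ x, x ∉ X → l x = 0) (a : AddMonoidAlgebra ℝ V) :
    ev l a ≤ Real.sqrt (tau0 (a * mir a)) * Real.sqrt (X.card : ℝ) := by
  have e1 : ev l a = ∑ x ∈ a.coeff.support ∩ X, a.coeff x * l x := by
    rw [ev_apply]
    symm
    refine Finset.sum_subset Finset.inter_subset_left ?_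
    intro x hx hx'
    rw [hX x, mul_zero]
    intro h
    exact hx' (Finset.mem_inter.2 ⟨hx, h⟩)
  rw [e1]
  refine le_trans (Real.sum_mul_le_sqrt_mul_sqrt _ _ _) ?_
  refine mul_le_mul ?_ ?_ (Real.sqrt_nonneg _) (Real.sqrt_nonneg _)
  · apply Real.sqrt_le_sqrt
    rw [tau0_sq]
    exact Finset.sum_le_sum_of_subset_of_nonneg Finset.inter_subset_left
      (fun _ _ _ => sq_nonneg _)
  · apply Real.sqrt_le_sqrt
    calc ∑ x ∈ a.coeff.support ∩ X, l x ^ 2 ≤ ∑ x ∈ X, l x ^ 2 :=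
          Finset.sum_le_sum_of_subset_of_nonneg Finset.inter_subset_right
            (fun _ _ _ => sq_nonneg _)
      _ ≤ ∑ x ∈ X, (1 : ℝ) := by
          refine Finset.sum_le_sum ?_
          intro x _
          exact pow_le_one₀ (h0 x) (h1 x)
      _ = (X.card : ℝ) := by rw [Finset.sum_const, nsmul_eq_mul, mul_one]

/-- the expansion over the lists of pieces -/
theorem law_pow (n : ℕ) : law F w D ^ n =
    ∑ f ∈ Fintype.piFinset (fun _ : Fin n => F),
      AddMonoidAlgebra.single (∑ i, D (f i)) (∏ i, w (f i)) := by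
  have h1 : law F w D ^ n = ∏ _i : Fin n, ∑ p ∈ F, AddMonoidAlgebra.single (D p) (w p) := by
    rw [Finset.prod_const, Finset.card_univ, Fintype.card_fin]
    rfl
  rw [h1, Finset.prod_univ_sum]
  refine Finset.sum_congr rfl ?_
  intro f _
  have h2 : ∀ s : Finset (Fin n), ∏ i ∈ s, (AddMonoidAlgebra.single (D (f i)) (w (f i)) :
      AddMonoidAlgebra ℝ V) = AddMonoidAlgebra.single (∑ i ∈ s, D (f i)) (∏ i ∈ s, w (f i)) := by
    intro s
    induction s using Finset.induction_on with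
    | empty => rw [Finset.prod_empty, Finset.sum_empty, Finset.prod_empty]; rfl
    | insert i s hi ih =>
      rw [Finset.prod_insert hi, Finset.sum_insert hi, Finset.prod_insert hi, ih,
        AddMonoidAlgebra.single_mul_single]
  exact h2 Finset.univ

theorem ev_law (l : V → ℝ) (n k : ℕ) : ev l (law F w D ^ n * mir (law F w D) ^ k) =
    ∑ f ∈ Fintype.piFinset (fun _ : Fin n => F), ∑ g ∈ Fintype.piFinset (fun _ : Fin k => F),
      (∏ i, w (f i)) * (∏ i, w (g i)) * l (∑ i, D (f i) - ∑ i, D (g i)) := by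
  rw [← map_pow, law_pow, law_pow, map_sum, Finset.sum_mul_sum, map_sum]
  refine Finset.sum_congr rfl ?_
  intro f _
  rw [map_sum]
  refine Finset.sum_congr rfl ?_
  intro g _
  rw [mir_single, AddMonoidAlgebra.single_mul_single, ev_single, ← sub_eq_add_neg]

/-- TIME REGULARITY -/
theorem regular (hw : ∀ p ∈ F, 0 ≤ w p) (hw1 : ∑ p ∈ F, w p ≤ 1) (l : V → ℝ)
    (h0 : ∀ x, 0 ≤ l x) (h1 : ∀ x, l x ≤ 1) (X : Finset V) (hX : ∀ x, x ∉ X → l x = 0)
    {h N : ℕ} (hh : 1 ≤ h) (hN : 1 ≤ N) (m n : ℕ) (hn : 2 * m * N ≤ n) :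
    ev l (law F w D ^ n) ≤ 2 ^ m / (h : ℝ) *
      ∑ k ∈ range (m * h + 1), ev l (law F w D ^ (n + k) * mir (law F w D) ^ k) +
      ((h : ℝ) / (2 * N)) ^ m * Real.sqrt (X.card : ℝ) := by
  set μ := law F w D with hμ
  set R := μ * mir μ with hRdef
  have hR : mir R = R := by rw [hRdef, map_mul, mir_mir, mul_comm]
  have hpow : ∀ k, μ ^ n * R ^ k = μ ^ (n + k) * mir μ ^ k := by
    intro k
    rw [hRdef, mul_pow, pow_add]
    ring
  have hpos : ∀ k, 0 ≤ ev l (μ ^ n * R ^ k) := by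
    intro k
    rw [hpow, hμ, ev_law]
    refine Finset.sum_nonneg ?_
    intro f hf
    refine Finset.sum_nonneg ?_
    intro g hg
    rw [Fintype.mem_piFinset] at hf hg
    refine mul_nonneg (mul_nonneg ?_ ?_) (h0 _)
    · exact Finset.prod_nonneg (fun i _ => hw _ (hf i))
    · exact Finset.prod_nonneg (fun i _ => hw _ (hg i))
  have hs := split_le ((ev l).comp (LinearMap.mulLeft ℝ (μ ^ n))) R
    (fun k => by simpa using hpos k) hh m
  simp only [LinearMap.comp_apply, LinearMap.mulLeft_apply, mul_one] at hs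
  refine le_trans hs ?_
  refine add_le_add ?_ ?_
  · refine mul_le_mul_of_nonneg_left (le_of_eq ?_) (by positivity)
    exact Finset.sum_congr rfl (fun k _ => by rw [hpow])
  · refine le_trans (ev_le l h0 h1 X hX _) ?_
    refine mul_le_mul_of_nonneg_right ?_ (Real.sqrt_nonneg _)
    have e1 : mir (Polynomial.aeval R (eh h)) = Polynomial.aeval R (eh h) := by
      rw [← Polynomial.aeval_algHom_apply, hR]
    have e2 : μ ^ n * (1 - Polynomial.aeval R (eh h)) ^ m *
        mir (μ ^ n * (1 - Polynomial.aeval R (eh h)) ^ m) =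
        R ^ n * (1 - Polynomial.aeval R (eh h)) ^ (2 * m) := by
      rw [map_mul, map_pow, map_pow, map_sub, map_one, e1, hRdef, mul_pow, pow_mul']
      ring
    rw [e2]
    have h2 := rest_le tau0 R (law_pos hw hw1) tau0_one.le hh hN (2 * m) n hn
    have h3 : ((h : ℝ) / (2 * N)) ^ (2 * m) = (((h : ℝ) / (2 * N)) ^ m) ^ 2 := by
      rw [← pow_mul, mul_comm m 2]
    rw [h3] at h2
    calc Real.sqrt (tau0 (R ^ n * (1 - Polynomial.aeval R (eh h)) ^ (2 * m)))
        ≤ Real.sqrt ((((h : ℝ) / (2 * N)) ^ m) ^ 2) := Real.sqrt_le_sqrt h2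
      _ = ((h : ℝ) / (2 * N)) ^ m := Real.sqrt_sq (by positivity)

theorem ev_law_nonneg (hw : ∀ p ∈ F, 0 ≤ w p) (l : V → ℝ) (h0 : ∀ x, 0 ≤ l x) (n k : ℕ) :
    0 ≤ ev l (law F w D ^ n * mir (law F w D) ^ k) := by
  rw [ev_law]
  refine Finset.sum_nonneg ?_
  intro f hf
  refine Finset.sum_nonneg ?_
  intro g hg
  rw [Fintype.mem_piFinset] at hf hg
  refine mul_nonneg (mul_nonneg ?_ ?_) (h0 _)
  · exact Finset.prod_nonneg (fun i _ => hw _ (hf i))
  · exact Finset.prod_nonneg (fun i _ => hw _ (hg i))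

theorem sum_lists (n : ℕ) : ∑ f ∈ Fintype.piFinset (fun _ : Fin n => F), ∏ i, w (f i) =
    (∑ p ∈ F, w p) ^ n := by
  have h1 : (∑ p ∈ F, w p) ^ n = ∏ _i : Fin n, ∑ p ∈ F, w p := by
    rw [Finset.prod_const, Finset.card_univ, Fintype.card_fin]
  rw [h1, Finset.prod_univ_sum]

theorem ev_law_le_one (hw : ∀ p ∈ F, 0 ≤ w p) (hw1 : ∑ p ∈ F, w p ≤ 1) (l : V → ℝ)
    (h1 : ∀ x, l x ≤ 1) (n k : ℕ) :
    ev l (law F w D ^ n * mir (law F w D) ^ k) ≤ 1 := by
  have hs : 0 ≤ ∑ p ∈ F, w p := Finset.sum_nonneg hw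
  rw [ev_law]
  calc ∑ f ∈ Fintype.piFinset (fun _ : Fin n => F), ∑ g ∈ Fintype.piFinset (fun _ : Fin k => F),
        (∏ i, w (f i)) * (∏ i, w (g i)) * l (∑ i, D (f i) - ∑ i, D (g i))
      ≤ ∑ f ∈ Fintype.piFinset (fun _ : Fin n => F), ∑ g ∈ Fintype.piFinset (fun _ : Fin k => F),
        (∏ i, w (f i)) * (∏ i, w (g i)) := by
        refine Finset.sum_le_sum ?_
        intro f hf
        refine Finset.sum_le_sum ?_
        intro g hg
        rw [Fintype.mem_piFinset] at hf hg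
        have h2 : 0 ≤ (∏ i, w (f i)) * (∏ i, w (g i)) :=
          mul_nonneg (Finset.prod_nonneg (fun i _ => hw _ (hf i)))
            (Finset.prod_nonneg (fun i _ => hw _ (hg i)))
        calc _ ≤ (∏ i, w (f i)) * (∏ i, w (g i)) * 1 := mul_le_mul_of_nonneg_left (h1 _) h2
          _ = _ := mul_one _
    _ = (∑ p ∈ F, w p) ^ n * (∑ p ∈ F, w p) ^ k := by
        rw [← sum_lists (F := F) (w := w) n, ← sum_lists (F := F) (w := w) k, Finset.sum_mul_sum]
    _ ≤ 1 * 1 := mul_le_mul (pow_le_one₀ hs hw1) (pow_le_one₀ hs hw1) (by positivity) zero_le_one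
    _ = 1 := one_mul 1

omit [AddCommGroup V] in
theorem sum_inj_le {α β : Type*} (s : Finset α) (t : Finset β) (f : α → β) (F : α → ℝ)
    (G : β → ℝ) (hf : ∀ a ∈ s, f a ∈ t) (hinj : Set.InjOn f (s : Set α))
    (hFG : ∀ a ∈ s, F a ≤ G (f a)) (hG : ∀ b ∈ t, 0 ≤ G b) :
    ∑ a ∈ s, F a ≤ ∑ b ∈ t, G b := by
  calc ∑ a ∈ s, F a ≤ ∑ a ∈ s, G (f a) := Finset.sum_le_sum hFG
    _ = ∑ b ∈ s.image f, G b := by rw [Finset.sum_image hinj]
    _ ≤ ∑ b ∈ t, G b := by
        refine Finset.sum_le_sum_of_subset_of_nonneg ?_ (fun b hb _ => hG b hb)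
        intro b hb
        rw [Finset.mem_image] at hb
        obtain ⟨a, ha, rfl⟩ := hb
        exact hf a ha

/-- time regularity with a good choice of the parameters -/
theorem regular_n (hw : ∀ p ∈ F, 0 ≤ w p) (hw1 : ∑ p ∈ F, w p ≤ 1) (l : V → ℝ)
    (h0 : ∀ x, 0 ≤ l x) (h1 : ∀ x, l x ≤ 1) (X : Finset V) (hX : ∀ x, x ∉ X → l x = 0)
    {m H n : ℕ} (hm : 1 ≤ m) (hH : 2 * m ≤ H) (hn : H ≤ n) :
    ev l (law F w D ^ n) ≤ 2 ^ m * ((H : ℝ) / n) *
      ∑ k ∈ range (n + 1), ev l (law F w D ^ (n + k) * mir (law F w D) ^ k) +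
      (4 * (m : ℝ) / H) ^ m * Real.sqrt (X.card : ℝ) := by
  have hH0 : 0 < H := by omega
  have hn0 : 0 < n := by omega
  have hHr : (0 : ℝ) < H := by exact_mod_cast hH0
  have hnr : (0 : ℝ) < n := by exact_mod_cast hn0
  have hmr : (0 : ℝ) < m := by exact_mod_cast hm
  set h := n / H + 1 with hh
  set N := n / (2 * m) with hNd
  have hN1 : 1 ≤ N := by
    rw [hNd, Nat.le_div_iff_mul_le (by omega)]
    omega
  have hN2 : 2 * m * N ≤ n := by rw [hNd]; exact Nat.mul_div_le n (2 * m)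
  have hN3 : n < 2 * m * (N + 1) := by
    rw [hNd]
    exact Nat.lt_mul_div_succ n (by omega)
  have hh1 : H * (n / H) ≤ n := Nat.mul_div_le n H
  have hh2 : n < H * (n / H + 1) := Nat.lt_mul_div_succ n hH0
  have hh3 : H * h ≤ 2 * n := by
    rw [hh, Nat.mul_add, Nat.mul_one]
    omega
  have hmh : m * h ≤ n := by
    have : 2 * (m * h) ≤ 2 * n := by
      calc 2 * (m * h) = 2 * m * h := by ring
        _ ≤ H * h := Nat.mul_le_mul_right h hH
        _ ≤ 2 * n := hh3
    omega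
  have hhr : (0 : ℝ) < h := by
    have : 0 < h := Nat.succ_pos _
    exact_mod_cast this
  have hNr : (0 : ℝ) < N := by exact_mod_cast hN1
  have hr1 : (1 : ℝ) / h ≤ (H : ℝ) / n := by
    rw [div_le_div_iff₀ hhr hnr, one_mul]
    have : n ≤ H * h := hh2.le
    exact_mod_cast this
  have hr2 : (h : ℝ) / (2 * N) ≤ 4 * (m : ℝ) / H := by
    rw [div_le_div_iff₀ (by positivity) hHr]
    have h3 : (h : ℝ) * H ≤ 2 * n := by
      have : h * H ≤ 2 * n := by rw [mul_comm]; exact hh3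
      exact_mod_cast this
    have h4 : (n : ℝ) ≤ 2 * m * (2 * N) := by
      have : n ≤ 2 * m * (2 * N) := by
        refine le_trans hN3.le (Nat.mul_le_mul_left _ ?_)
        omega
      exact_mod_cast this
    nlinarith
  have hmain := regular (D := D) hw hw1 l h0 h1 X hX (h := h) (N := N)
    (Nat.succ_pos _) hN1 m n hN2
  refine le_trans hmain (add_le_add ?_ ?_)
  · have e1 : ∑ k ∈ range (m * h + 1), ev l (law F w D ^ (n + k) * mir (law F w D) ^ k) ≤
        ∑ k ∈ range (n + 1), ev l (law F w D ^ (n + k) * mir (law F w D) ^ k) := by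
      refine Finset.sum_le_sum_of_subset_of_nonneg ?_ ?_
      · intro k hk
        rw [Finset.mem_range] at hk ⊢
        omega
      · intro k _ _
        exact ev_law_nonneg hw l h0 _ _
    have e2 : 0 ≤ ∑ k ∈ range (m * h + 1), ev l (law F w D ^ (n + k) * mir (law F w D) ^ k) :=
      Finset.sum_nonneg (fun k _ => ev_law_nonneg hw l h0 _ _)
    refine mul_le_mul ?_ e1 e2 (by positivity)
    rw [div_eq_mul_one_div]
    exact mul_le_mul_of_nonneg_left hr1 (by positivity)
  · refine mul_le_mul_of_nonneg_right ?_ (Real.sqrt_nonneg _)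
    exact pow_le_pow_left₀ (by positivity) hr2 m

/-- the sum over all times -/
theorem sum_regular (hw : ∀ p ∈ F, 0 ≤ w p) (hw1 : ∑ p ∈ F, w p ≤ 1) (l : V → ℝ)
    (h0 : ∀ x, 0 ≤ l x) (h1 : ∀ x, l x ≤ 1) (X : Finset V) (hX : ∀ x, x ∉ X → l x = 0)
    {m H n1 : ℕ} (hm : 1 ≤ m) (hH : 2 * m ≤ H) {g : ℝ}
    (hg : ∀ n, n ≤ 2 * n1 →
      ∑ k ∈ range (n + 1), ev l (law F w D ^ n * mir (law F w D) ^ k) ≤ g) :
    ∑ n ∈ range (n1 + 1), ev l (law F w D ^ n) ≤
      H + 2 ^ (m + 1) * H * g * (∑ n ∈ Finset.Icc 1 (2 * n1), (1 : ℝ) / n) +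
      (n1 + 1) * ((4 * (m : ℝ) / H) ^ m * Real.sqrt (X.card : ℝ)) := by
  set G : ℕ → ℕ → ℝ := fun n k => ev l (law F w D ^ n * mir (law F w D) ^ k) with hG
  have hG0 : ∀ n k, 0 ≤ G n k := fun n k => ev_law_nonneg hw l h0 n k
  have hGz : ∀ n, ev l (law F w D ^ n) = G n 0 := by
    intro n
    simp only [hG, pow_zero, mul_one]
  have hH0 : 0 < H := by omega
  have hHr : (0 : ℝ) < H := by exact_mod_cast hH0
  set E : ℝ := (4 * (m : ℝ) / H) ^ m * Real.sqrt (X.card : ℝ) with hE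
  have hE0 : 0 ≤ E := by
    rw [hE]
    exact mul_nonneg (by positivity) (Real.sqrt_nonneg _)
  -- the bound of a term
  have hterm : ∀ n ∈ range (n1 + 1), ev l (law F w D ^ n) ≤
      (if n < H then 1 else 0) +
      (2 ^ m * H * (if n = 0 then 0 else ∑ k ∈ range (n + 1), 1 / (n : ℝ) * G (n + k) k) + E) := by
    intro n _
    by_cases hn : n < H
    · rw [if_pos hn]
      have h2 : ev l (law F w D ^ n) ≤ 1 := by
        have := ev_law_le_one (D := D) hw hw1 l h1 n 0
        rwa [pow_zero, mul_one] at this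
      have h3 : 0 ≤ 2 ^ m * (H : ℝ) *
          (if n = 0 then 0 else ∑ k ∈ range (n + 1), 1 / (n : ℝ) * G (n + k) k) := by
        refine mul_nonneg (by positivity) ?_
        split
        · exact le_rfl
        · exact Finset.sum_nonneg (fun k _ => mul_nonneg (by positivity) (hG0 _ _))
      linarith
    · rw [if_neg hn, zero_add]
      have hn0 : n ≠ 0 := by omega
      rw [if_neg hn0]
      refine le_trans (regular_n (D := D) hw hw1 l h0 h1 X hX hm hH (not_lt.1 hn)) ?_
      refine add_le_add (le_of_eq ?_) le_rfl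
      rw [← Finset.mul_sum]
      simp only [hG]
      ring
  refine le_trans (Finset.sum_le_sum hterm) ?_
  rw [Finset.sum_add_distrib, Finset.sum_add_distrib, ← Finset.mul_sum, Finset.sum_const,
    card_range, nsmul_eq_mul]
  have e1 : ∑ n ∈ range (n1 + 1), (if n < H then (1 : ℝ) else 0) ≤ H := by
    rw [← Finset.sum_filter, Finset.sum_const, nsmul_eq_mul, mul_one]
    have : ((range (n1 + 1)).filter (fun n => n < H)).card ≤ H := by
      calc ((range (n1 + 1)).filter (fun n => n < H)).card ≤ (range H).card := by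
            refine Finset.card_le_card ?_
            intro n hn
            rw [Finset.mem_filter] at hn
            exact Finset.mem_range.2 hn.2
        _ = H := card_range H
    exact_mod_cast this
  have e2 : ∑ n ∈ range (n1 + 1),
      (if n = 0 then 0 else ∑ k ∈ range (n + 1), 1 / (n : ℝ) * G (n + k) k) ≤
      ∑ n ∈ Finset.Icc 1 (2 * n1), ∑ k ∈ range (n + 1), 2 / (n : ℝ) * G n k := by
    have e3 : ∑ n ∈ range (n1 + 1),
        (if n = 0 then 0 else ∑ k ∈ range (n + 1), 1 / (n : ℝ) * G (n + k) k) =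
        ∑ x ∈ ((range (n1 + 1)).filter (fun n => n ≠ 0)).sigma (fun n => range (n + 1)),
          1 / (x.1 : ℝ) * G (x.1 + x.2) x.2 := by
      rw [Finset.sum_sigma, Finset.sum_filter]
      refine Finset.sum_congr rfl ?_
      intro n _
      by_cases hn : n = 0
      · rw [if_pos hn, if_neg (by simpa using hn)]
      · rw [if_neg hn, if_pos hn]
    have e4 : ∑ n ∈ Finset.Icc 1 (2 * n1), ∑ k ∈ range (n + 1), 2 / (n : ℝ) * G n k =
        ∑ x ∈ (Finset.Icc 1 (2 * n1)).sigma (fun n => range (n + 1)),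
          2 / (x.1 : ℝ) * G x.1 x.2 := by
      rw [Finset.sum_sigma]
    rw [e3, e4]
    refine sum_inj_le _ _ (fun x : (Σ _ : ℕ, ℕ) => (⟨x.1 + x.2, x.2⟩ : Σ _ : ℕ, ℕ)) _ _
      ?_ ?_ ?_ ?_
    · rintro ⟨n, k⟩ hx
      simp only [Finset.mem_sigma, Finset.mem_filter, Finset.mem_range, Finset.mem_Icc] at hx ⊢
      omega
    · rintro ⟨n, k⟩ hx ⟨n', k'⟩ hx' heq
      simp only [Sigma.mk.injEq] at heq
      obtain ⟨h3, h4⟩ := heq
      rw [heq_eq_eq] at h4
      subst h4
      have : n = n' := by omega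
      subst this
      rfl
    · rintro ⟨n, k⟩ hx
      simp only [Finset.mem_sigma, Finset.mem_filter, Finset.mem_range] at hx
      simp only
      refine mul_le_mul_of_nonneg_right ?_ (hG0 _ _)
      have hn0 : 0 < n := by omega
      have hnr : (0 : ℝ) < n := by exact_mod_cast hn0
      have hkr : (k : ℝ) ≤ n := by
        have : k ≤ n := by omega
        exact_mod_cast this
      rw [div_le_div_iff₀ hnr (by positivity)]
      push_cast
      linarith
    · rintro ⟨n, k⟩ _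
      exact mul_nonneg (by positivity) (hG0 _ _)
  have e5 : ∑ n ∈ Finset.Icc 1 (2 * n1), ∑ k ∈ range (n + 1), 2 / (n : ℝ) * G n k ≤
      2 * g * ∑ n ∈ Finset.Icc 1 (2 * n1), (1 : ℝ) / n := by
    rw [Finset.mul_sum]
    refine Finset.sum_le_sum ?_
    intro n hn
    rw [Finset.mem_Icc] at hn
    rw [← Finset.mul_sum]
    have h3 := hg n hn.2
    calc 2 / (n : ℝ) * ∑ k ∈ range (n + 1), G n k ≤ 2 / (n : ℝ) * g :=
          mul_le_mul_of_nonneg_left h3 (by positivity)
      _ = 2 * g * (1 / (n : ℝ)) := by ring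
  have e6 : 2 ^ m * (H : ℝ) * ∑ n ∈ range (n1 + 1),
      (if n = 0 then 0 else ∑ k ∈ range (n + 1), 1 / (n : ℝ) * G (n + k) k) ≤
      2 ^ (m + 1) * H * g * (∑ n ∈ Finset.Icc 1 (2 * n1), (1 : ℝ) / n) := by
    calc 2 ^ m * (H : ℝ) * ∑ n ∈ range (n1 + 1),
        (if n = 0 then 0 else ∑ k ∈ range (n + 1), 1 / (n : ℝ) * G (n + k) k)
        ≤ 2 ^ m * (H : ℝ) * (2 * g * ∑ n ∈ Finset.Icc 1 (2 * n1), (1 : ℝ) / n) :=
          mul_le_mul_of_nonneg_left (le_trans e2 e5) (by positivity)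
      _ = _ := by ring
  push_cast
  linarith

end Concrete

end Pool.Agent.R19
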