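import Pool.Agent.R19.Oper

/-! Sums over lists of pieces, and the count of the cut levels below the lowest intersection of
two strands. -/

set_option linter.unusedSectionVars false
set_option linter.style.longLine false
set_option linter.unusedVariables false

namespace Pool.Agent.R19

open Finset
open Classical

section Lists

variable {P : Type*} [Inhabited P]

/-- a list with a new first element -/
def cns (p : P) (s : ℕ → P) : ℕ → P
  | 0 => p
  | i + 1 => s i

/-- sum over the lists of `n` pieces (the other places have the default value) -/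
noncomputable def EE (F : Finset P) (w : P → ℝ) : ℕ → ((ℕ → P) → ℝ) → ℝ
  | 0, Φ => Φ (fun _ => default)
  | n + 1, Φ => ∑ p ∈ F, w p * EE F w n (fun s => Φ (cns p s))

/-- the first `n` pieces are in `F` -/
def InF (F : Finset P) (n : ℕ) (s : ℕ → P) : Prop := ∀ i < n, s i ∈ F

/-- two lists one after the other -/
def glue (a : ℕ) (f h : ℕ → P) : ℕ → P := fun i => if i < a then f i else h (i - a)

/-- a list without its first `k` pieces -/
def shl (k : ℕ) (s : ℕ → P) : ℕ → P := fun i => s (k + i)

variable {F : Finset P} {w : P → ℝ}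

theorem InF.cns {n : ℕ} {s : ℕ → P} {p : P} (hp : p ∈ F) (hs : InF F n s) :
    InF F (n + 1) (cns p s) := by
  intro i hi
  cases i with
  | zero => exact hp
  | succ i => exact hs i (by omega)

theorem InF.mono {n m : ℕ} {s : ℕ → P} (h : InF F m s) (hnm : n ≤ m) : InF F n s :=
  fun i hi => h i (by omega)

theorem InF.shl {n k : ℕ} {s : ℕ → P} (h : InF F (k + n) s) : InF F n (shl k s) :=
  fun i hi => h (k + i) (by omega)

theorem InF.glue {a b : ℕ} {f h : ℕ → P} (hf : InF F a f) (hh : InF F b h) :
    InF F (a + b) (glue a f h) := by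
  intro i hi
  unfold Pool.Agent.R19.glue
  by_cases hia : i < a
  · rw [if_pos hia]; exact hf i hia
  · rw [if_neg hia]; exact hh (i - a) (by omega)

theorem EE_congr {n : ℕ} {Φ Ψ : (ℕ → P) → ℝ} (h : ∀ s, InF F n s → Φ s = Ψ s) :
    EE F w n Φ = EE F w n Ψ := by
  induction n generalizing Φ Ψ with
  | zero => exact h _ (fun i hi => by omega)
  | succ n ih =>
    unfold EE
    refine Finset.sum_congr rfl ?_
    intro p hp
    rw [ih (fun s hs => h _ (hs.cns hp))]

theorem EE_mono (hw : ∀ p ∈ F, 0 ≤ w p) {n : ℕ} {Φ Ψ : (ℕ → P) → ℝ}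
    (h : ∀ s, InF F n s → Φ s ≤ Ψ s) : EE F w n Φ ≤ EE F w n Ψ := by
  induction n generalizing Φ Ψ with
  | zero => exact h _ (fun i hi => by omega)
  | succ n ih =>
    unfold EE
    refine Finset.sum_le_sum ?_
    intro p hp
    exact mul_le_mul_of_nonneg_left (ih (fun s hs => h _ (hs.cns hp))) (hw p hp)

theorem EE_zero_fun (n : ℕ) : EE F w n (fun _ => 0) = 0 := by
  induction n with
  | zero => rfl
  | succ n ih =>
    unfold EE
    simp only [ih, mul_zero, Finset.sum_const_zero]

theorem EE_nonneg (hw : ∀ p ∈ F, 0 ≤ w p) {n : ℕ} {Φ : (ℕ → P) → ℝ}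
    (h : ∀ s, InF F n s → 0 ≤ Φ s) : 0 ≤ EE F w n Φ := by
  rw [← EE_zero_fun (F := F) (w := w) n]
  exact EE_mono hw h

theorem EE_const (n : ℕ) (c : ℝ) : EE F w n (fun _ => c) = (∑ p ∈ F, w p) ^ n * c := by
  induction n with
  | zero => simp [EE]
  | succ n ih =>
    change ∑ p ∈ F, w p * EE F w n (fun _ => c) = (∑ p ∈ F, w p) ^ (n + 1) * c
    rw [ih, ← Finset.sum_mul, pow_succ]
    ring

theorem EE_mul_left (n : ℕ) (c : ℝ) (Φ : (ℕ → P) → ℝ) :
    EE F w n (fun s => c * Φ s) = c * EE F w n Φ := by
  induction n generalizing Φ with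
  | zero => rfl
  | succ n ih =>
    unfold EE
    rw [Finset.mul_sum]
    refine Finset.sum_congr rfl ?_
    intro p _
    rw [ih (fun s => Φ (cns p s))]
    ring

theorem EE_add_fun (n : ℕ) (Φ Ψ : (ℕ → P) → ℝ) :
    EE F w n (fun s => Φ s + Ψ s) = EE F w n Φ + EE F w n Ψ := by
  induction n generalizing Φ Ψ with
  | zero => rfl
  | succ n ih =>
    unfold EE
    rw [← Finset.sum_add_distrib]
    refine Finset.sum_congr rfl ?_
    intro p _
    rw [ih (fun s => Φ (cns p s)) (fun s => Ψ (cns p s))]
    ring

theorem EE_sum {ι : Type*} (n : ℕ) (T : Finset ι) (Φ : ι → (ℕ → P) → ℝ) :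
    EE F w n (fun s => ∑ t ∈ T, Φ t s) = ∑ t ∈ T, EE F w n (Φ t) := by
  induction T using Finset.induction_on with
  | empty =>
    simp only [Finset.sum_empty]
    exact EE_zero_fun n
  | insert t T ht ih =>
    rw [Finset.sum_insert ht, ← ih, ← EE_add_fun]
    exact EE_congr (fun s _ => Finset.sum_insert ht)

theorem glue_zero (f h : ℕ → P) : glue 0 f h = h := by
  funext i
  simp [glue]

theorem glue_succ (a : ℕ) (p : P) (f h : ℕ → P) :
    glue (a + 1) (cns p f) h = cns p (glue a f h) := by
  funext i
  cases i with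
  | zero => simp [glue, cns]
  | succ i =>
    by_cases hi : i < a
    · simp [glue, cns, hi]
    · simp [glue, cns, hi]

theorem EE_add (a b : ℕ) (Φ : (ℕ → P) → ℝ) :
    EE F w (a + b) Φ = EE F w a (fun f => EE F w b (fun h => Φ (glue a f h))) := by
  induction a generalizing Φ with
  | zero =>
    rw [Nat.zero_add]
    change EE F w b Φ = EE F w b (fun h => Φ (glue 0 (fun _ => default) h))
    exact EE_congr (fun s _ => by rw [glue_zero])
  | succ a ih =>
    rw [Nat.succ_add]
    change ∑ p ∈ F, w p * EE F w (a + b) (fun s => Φ (cns p s)) =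
      ∑ p ∈ F, w p * EE F w a (fun f => EE F w b (fun h => Φ (glue (a + 1) (cns p f) h)))
    refine Finset.sum_congr rfl ?_
    intro p _
    rw [ih (fun s => Φ (cns p s))]
    congr 1
    exact EE_congr (fun f _ => EE_congr (fun h _ => by rw [glue_succ]))

theorem EE_swap {Q : Type*} [Inhabited Q] {G : Finset Q} {u : Q → ℝ} (a b : ℕ)
    (Φ : (ℕ → P) → (ℕ → Q) → ℝ) :
    EE F w a (fun f => EE G u b (fun h => Φ f h)) =
      EE G u b (fun h => EE F w a (fun f => Φ f h)) := by
  induction a generalizing Φ with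
  | zero => rfl
  | succ a ih =>
    change ∑ p ∈ F, w p * EE F w a (fun f => EE G u b (fun h => Φ (cns p f) h)) =
      EE G u b (fun h => ∑ p ∈ F, w p * EE F w a (fun f => Φ (cns p f) h))
    rw [EE_sum]
    refine Finset.sum_congr rfl ?_
    intro p _
    rw [ih (fun f h => Φ (cns p f) h), ← EE_mul_left]

/-- prolonging the lists costs at most a factor 2 -/
theorem EE_extend (hw : ∀ p ∈ F, 0 ≤ w p) {a b : ℕ} (hb : (1 : ℝ) / 2 ≤ (∑ p ∈ F, w p) ^ b)
    {Φ : (ℕ → P) → ℝ} (h0 : ∀ s, InF F a s → 0 ≤ Φ s)
    {Ψ : (ℕ → P) → ℝ} (hΨ : ∀ f h, InF F a f → InF F b h → Φ f ≤ Ψ (glue a f h)) :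
    EE F w a Φ ≤ 2 * EE F w (a + b) Ψ := by
  rw [EE_add, ← EE_mul_left]
  refine EE_mono hw ?_
  intro f hf
  have h1 : EE F w b (fun _ => Φ f) ≤ EE F w b (fun h => Ψ (glue a f h)) :=
    EE_mono hw (fun h hh => hΨ f h hf hh)
  rw [EE_const] at h1
  have h2 := h0 f hf
  have h3 : (1 : ℝ) / 2 * Φ f ≤ (∑ p ∈ F, w p) ^ b * Φ f := mul_le_mul_of_nonneg_right hb h2
  linarith

end Lists

section Sums

variable {P : Type*} [Inhabited P] {V : Type*} [AddCommGroup V]

/-- the sum of the first `n` vectors -/
def SS (D : P → V) (s : ℕ → P) (n : ℕ) : V := ∑ i ∈ range n, D (s i)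

theorem SS_zero (D : P → V) (s : ℕ → P) : SS D s 0 = 0 := by simp [SS]

theorem SS_succ (D : P → V) (s : ℕ → P) (n : ℕ) : SS D s (n + 1) = SS D s n + D (s n) := by
  unfold SS
  rw [Finset.sum_range_succ]

theorem SS_cns (D : P → V) (p : P) (s : ℕ → P) (n : ℕ) :
    SS D (cns p s) (n + 1) = D p + SS D s n := by
  unfold SS
  rw [Finset.sum_range_succ', add_comm]
  rfl

theorem SS_glue_le (D : P → V) {a n : ℕ} (f h : ℕ → P) (hn : n ≤ a) :
    SS D (glue a f h) n = SS D f n := by
  unfold SS
  refine Finset.sum_congr rfl ?_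
  intro i hi
  rw [Finset.mem_range] at hi
  unfold glue
  rw [if_pos (by omega)]

theorem SS_add (D : P → V) (s : ℕ → P) (k n : ℕ) :
    SS D s (k + n) = SS D s k + SS D (shl k s) n := by
  unfold SS shl
  rw [Finset.sum_range_add]

theorem shl_glue (a : ℕ) (f h : ℕ → P) : shl a (glue a f h) = h := by
  funext i
  simp [shl, glue]

theorem glue_glue (a b : ℕ) (f g h : ℕ → P) :
    glue (a + b) (glue a f g) h = glue a f (glue b g h) := by
  funext i
  unfold glue
  by_cases h1 : i < a
  · rw [if_pos (by omega), if_pos h1, if_pos h1]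
  · by_cases h2 : i < a + b
    · rw [if_pos h2, if_neg h1, if_neg h1, if_pos (by omega)]
    · rw [if_neg h2, if_neg h1, if_neg (by omega)]
      congr 1
      omega

variable {F : Finset P} {w : P → ℝ} {D : P → V}

theorem ev_single_mul (l : V → ℝ) (v : V) (c : ℝ) (b : AddMonoidAlgebra ℝ V) :
    ev l (AddMonoidAlgebra.single v c * b) = c * ev (fun x => l (v + x)) b := by
  induction b using AddMonoidAlgebra.induction_linear with
  | zero => simp
  | add a b ha hb => rw [mul_add, map_add, map_add, ha, hb, mul_add]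
  | single u r =>
    rw [AddMonoidAlgebra.single_mul_single, ev_single, ev_single]
    ring

theorem ev_law_mul (l : V → ℝ) (n : ℕ) (a : AddMonoidAlgebra ℝ V) :
    ev l (law F w D ^ n * a) = EE F w n (fun f => ev (fun x => l (SS D f n + x)) a) := by
  induction n generalizing l with
  | zero =>
    rw [pow_zero, one_mul]
    change ev l a = ev (fun x => l (SS D (fun _ => default) 0 + x)) a
    simp only [SS_zero, zero_add]
  | succ n ih =>
    rw [pow_succ', mul_assoc]
    change ev l ((∑ p ∈ F, AddMonoidAlgebra.single (D p) (w p)) * (law F w D ^ n * a)) =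
      ∑ p ∈ F, w p * EE F w n (fun s => ev (fun x => l (SS D (cns p s) (n + 1) + x)) a)
    rw [Finset.sum_mul, map_sum]
    refine Finset.sum_congr rfl ?_
    intro p _
    rw [ev_single_mul, ih]
    congr 1
    refine EE_congr ?_
    intro f _
    have : (fun x => l (D p + (SS D f n + x))) = (fun x => l (SS D (cns p f) (n + 1) + x)) := by
      funext x
      rw [SS_cns, add_assoc]
    rw [this]

theorem mir_law' : mir (law F w D) = law F w (fun p => - D p) := mir_law F w D

theorem ev_one (l : V → ℝ) : ev l (1 : AddMonoidAlgebra ℝ V) = l 0 := by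
  rw [AddMonoidAlgebra.one_def, ev_single, one_mul]

theorem SS_neg (f : ℕ → P) (n : ℕ) : SS (fun p => - D p) f n = - SS D f n := by
  unfold SS
  rw [Finset.sum_neg_distrib]

/-- the expansion over the lists -/
theorem ev_EE (l : V → ℝ) (n k : ℕ) : ev l (law F w D ^ n * mir (law F w D) ^ k) =
    EE F w n (fun f => EE F w k (fun g => l (SS D f n - SS D g k))) := by
  rw [ev_law_mul]
  refine EE_congr ?_
  intro f _
  rw [mir_law', ← mul_one (law F w (fun p => - D p) ^ k), ev_law_mul]
  refine EE_congr ?_
  intro g _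
  rw [ev_one, SS_neg]
  congr 1
  abel

theorem ev_EE' (l : V → ℝ) (n : ℕ) : ev l (law F w D ^ n) =
    EE F w n (fun f => l (SS D f n)) := by
  have h := ev_EE (F := F) (w := w) (D := D) l n 0
  rw [pow_zero, mul_one] at h
  rw [h]
  refine EE_congr ?_
  intro f _
  change l (SS D f n - SS D (fun _ => default) 0) = l (SS D f n)
  rw [SS_zero, sub_zero]

end Sums

section Low

variable {P : Type*} [Inhabited P] {V : Type*} [AddCommGroup V]

/-- the strand of `K` pieces which goes down from `v` contains `x` -/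
def Dn (D : P → V) (pts : P → Set V) (v : V) (A : ℕ → P) (K : ℕ) (x : V) : Prop :=
  ∃ i < K, x - (v - SS D A (i + 1)) ∈ pts (A i)

/-- the strand which goes down from `v` meets `Γ`, and only at most `g` levels below `v` -/
def Low (ht : V →+ ℤ) (D : P → V) (pts : P → Set V) (Γ : Set V) (g : ℕ) (K : ℕ) (v : V)
    (A : ℕ → P) : Prop :=
  (∃ x ∈ Γ, Dn D pts v A K x) ∧ ∀ y ∈ Γ, Dn D pts v A K y → ht v - g ≤ ht y

variable {F : Finset P} {w : P → ℝ} {D : P → V} {ht : V →+ ℤ} {pts : P → Set V} {Γ : Set V}

theorem Dn_glue {v : V} {K : ℕ} (A R : ℕ → P) {x : V} :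
    Dn D pts v (glue K A R) K x ↔ Dn D pts v A K x := by
  unfold Dn
  refine exists_congr ?_
  intro i
  refine and_congr_right ?_
  intro hi
  rw [SS_glue_le D A R (by omega)]
  have : glue K A R i = A i := by unfold glue; rw [if_pos hi]
  rw [this]

theorem Low_glue {g K : ℕ} {v : V} (A R : ℕ → P) :
    Low ht D pts Γ g K v (glue K A R) ↔ Low ht D pts Γ g K v A := by
  unfold Low
  simp only [Dn_glue]

theorem ht_SS_mono (hD : ∀ p ∈ F, 1 ≤ ht (D p)) {B : ℕ → P} {N : ℕ} (hB : InF F N B) {a b : ℕ}
    (hab : a ≤ b) (hb : b ≤ N) : ht (SS D B a) + (b - a) ≤ ht (SS D B b) := by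
  induction b, hab using Nat.le_induction with
  | base => simp
  | succ b hab ih =>
    have h1 := ih (by omega)
    rw [SS_succ, map_add]
    have h2 := hD (B b) (hB b (by omega))
    push_cast
    linarith

/-- at most `g + 1` cut levels see the lowest intersection -/
theorem low_count (hD : ∀ p ∈ F, 1 ≤ ht (D p))
    (hp : ∀ p ∈ F, ∀ x ∈ pts p, 0 ≤ ht x ∧ ht x ≤ ht (D p)) (hΓ : ∀ x ∈ Γ, 0 ≤ ht x)
    {X : Finset V} {K : ℕ} (hX : ∀ v ∈ X, ht v < K) (g N : ℕ) (v : V) (B : ℕ → P)
    (hB : InF F (N + K) B) :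
    ((range (N + 1)).filter (fun k => v - SS D B k ∈ X ∧
      Low ht D pts Γ g K (v - SS D B k) (shl k B))).card ≤ g + 1 := by
  set T := (range (N + 1)).filter (fun k => v - SS D B k ∈ X ∧
      Low ht D pts Γ g K (v - SS D B k) (shl k B)) with hT
  rcases T.eq_empty_or_nonempty with he | hne
  · rw [he]; simp
  · set k' := T.max' hne with hk'
    have hk'm := Finset.max'_mem T hne
    rw [← hk', hT, Finset.mem_filter, Finset.mem_range] at hk'm
    obtain ⟨hk'N, hk'X, ⟨x, hxΓ, i, hiK, hxi⟩, -⟩ := hk'm
    have hkey : ∀ k ∈ T, ht (v - SS D B k) ∈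
        Finset.Icc (ht (v - SS D B k')) (ht (v - SS D B k') + g) := by
      intro k hk
      have hkk' : k ≤ k' := Finset.le_max' T k hk
      rw [hT, Finset.mem_filter, Finset.mem_range] at hk
      obtain ⟨hkN, hkX, -, hlow⟩ := hk
      have h1 := ht_SS_mono hD hB hkk' (by omega)
      -- the position of the piece
      have e1 : v - SS D B k' - SS D (shl k' B) (i + 1) = v - SS D B (k' + i + 1) := by
        rw [show k' + i + 1 = k' + (i + 1) by ring, SS_add D B k' (i + 1), sub_sub]
      have hBi : B (k' + i) ∈ F := hB _ (by omega)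
      rw [e1] at hxi
      have hs : shl k' B i = B (k' + i) := rfl
      rw [hs] at hxi
      have hx1 := hp _ hBi _ hxi
      have e2 : ht x = ht (x - (v - SS D B (k' + i + 1))) + ht (v - SS D B (k' + i + 1)) := by
        rw [← map_add]; congr 1; abel
      have e3 : ht (v - SS D B (k' + i + 1)) = ht (v - SS D B (k' + i)) - ht (D (B (k' + i))) := by
        rw [SS_succ, ← map_sub]; congr 1; abel
      have hxtop : ht x ≤ ht (v - SS D B (k' + i)) := by omega
      have h2 := ht_SS_mono hD hB (show k' ≤ k' + i by omega) (by omega)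
      have e4 : ht (v - SS D B (k' + i)) = ht v - ht (SS D B (k' + i)) := map_sub _ _ _
      have e5 : ht (v - SS D B k') = ht v - ht (SS D B k') := map_sub _ _ _
      have e6 : ht (v - SS D B k) = ht v - ht (SS D B k) := map_sub _ _ _
      have hx0 := hΓ x hxΓ
      -- the piece is among the first `K` pieces below `P_k`
      have hik : k' + i < k + K := by
        by_contra hcon
        have h3 := ht_SS_mono hD hB (show k ≤ k' + i by omega) (by omega)
        have h4 := hX _ hkX
        have h5 : (K : ℤ) ≤ ((k' + i : ℕ) : ℤ) - k := by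
          have : k + K ≤ k' + i := by omega
          push_cast
          have h6 : ((k + K : ℕ) : ℤ) ≤ ((k' + i : ℕ) : ℤ) := by exact_mod_cast this
          push_cast at h6
          linarith
        push_cast at h3 h5
        omega
      have hin : Dn D pts (v - SS D B k) (shl k B) K x := by
        refine ⟨k' + i - k, by omega, ?_⟩
        have e7 : v - SS D B k - SS D (shl k B) (k' + i - k + 1) = v - SS D B (k' + i + 1) := by
          rw [sub_sub, ← SS_add]
          congr 2
          omega
        have e8 : shl k B (k' + i - k) = B (k' + i) := by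
          unfold shl
          congr 1
          omega
        rw [e7, e8]
        exact hxi
      have h7 := hlow x hxΓ hin
      rw [Finset.mem_Icc]
      push_cast at h1 h2
      constructor
      · omega
      · omega
    have hinj : Set.InjOn (fun k => ht (v - SS D B k)) (T : Set ℕ) := by
      intro k hk l hl heq
      rw [Finset.mem_coe, hT, Finset.mem_filter, Finset.mem_range] at hk hl
      simp only [map_sub] at heq
      rcases lt_trichotomy k l with h | h | h
      · have := ht_SS_mono hD hB h.le (show l ≤ N + K by omega)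
        omega
      · exact h
      · have := ht_SS_mono hD hB h.le (show k ≤ N + K by omega)
        omega
    calc T.card = (T.image (fun k => ht (v - SS D B k))).card :=
          (Finset.card_image_of_injOn hinj).symm
      _ ≤ (Finset.Icc (ht (v - SS D B k')) (ht (v - SS D B k') + g)).card := by
          refine Finset.card_le_card ?_
          intro y hy
          rw [Finset.mem_image] at hy
          obtain ⟨k, hk, rfl⟩ := hy
          exact hkey k hk
      _ = g + 1 := by
          rw [Int.card_Icc]
          omega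

end Low

end Pool.Agent.R19
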