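import Pool.Agent.R19.Defs
import Pool.Agent.R19.Strand
import Pool.Agent.R19.Trip

/-! Pieces and bridges (room R19, helper98): factorisation, mass of the pieces. -/

namespace Pool.Agent.R19

open Finset Pool.Agent.MP_794e6e_pr
open scoped Classical

theorem Ir.br {w : Word} (h : Ir w) : Br w := h.1

theorem Ir.ne {w : Word} (h : Ir w) : w ≠ [] := h.2.1

theorem Ir.one_le {w : Word} (h : Ir w) : 1 ≤ D w 0 := h.br.pos h.ne

theorem mem_irs {L : ℕ} {w : Word} : w ∈ irs L ↔ w.length ≤ L ∧ Ir w := by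
  unfold irs; rw [mem_filter, mem_wle]

theorem irs_mono {L L' : ℕ} (h : L ≤ L') : irs L ⊆ irs L' := by
  intro w hw
  rw [mem_irs] at hw ⊢
  exact ⟨hw.1.trans h, hw.2⟩

/-- the first piece of a bridge -/
theorem exists_first {w : Word} (hw : Br w) (hne : w ≠ []) :
    ∃ a b : Word, w = a ++ b ∧ Ir a ∧ Br b := by
  have hex : ∃ n : ℕ, ∃ a b : Word, w = a ++ b ∧ Br a ∧ Br b ∧ a ≠ [] ∧ a.length = n :=
    ⟨w.length, w, [], by simp, hw, Br_nil, hne, rfl⟩
  obtain ⟨a, b, hab, ha, hb, hane, hlen⟩ := Nat.find_spec hex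
  refine ⟨a, b, hab, ⟨ha, hane, ?_⟩, hb⟩
  intro a1 a2 h12 h1 h2
  by_contra hcon
  push Not at hcon
  obtain ⟨hn1, hn2⟩ := hcon
  have hlt : a1.length < Nat.find hex := by
    rw [← hlen, h12, List.length_append]
    have := List.length_pos_of_ne_nil hn2
    omega
  exact Nat.find_min hex hlt ⟨a1, a2 ++ b, by rw [hab, h12, List.append_assoc], h1,
    h2.append hb, hn1, rfl⟩

/-- an irreducible bridge has no proper initial bridge which is followed by a bridge -/
theorem Ir.eq_nil_of_append {u e : Word} (h : Ir (u ++ e)) (hu : Br u) (hne : u ≠ [])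
    (he : Hi e) : e = [] := by
  have h1 : Br e := ⟨h.br.saw.right, h.br.lo.right, he⟩
  rcases h.2.2 u e rfl hu h1 with h2 | h2
  · exact absurd h2 hne
  · exact h2

/-- uniqueness of the first piece -/
theorem first_unique {a b a' b' : Word} (ha : Ir a) (ha' : Ir a') (hb : Hi b) (hb' : Hi b')
    (h : a ++ b = a' ++ b') : a = a' ∧ b = b' := by
  rcases List.append_eq_append_iff.1 h with ⟨e, he1, he2⟩ | ⟨e, he1, he2⟩
  · have h1 : e = [] := by
      rw [he1] at ha'
      rw [he2] at hb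
      exact ha'.eq_nil_of_append ha.br ha.ne hb.left
    subst h1
    simp at he1 he2
    exact ⟨he1.symm, he2⟩
  · have h1 : e = [] := by
      rw [he1] at ha
      rw [he2] at hb'
      exact ha.eq_nil_of_append ha'.br ha'.ne hb'.left
    subst h1
    simp at he1 he2
    exact ⟨he1, he2.symm⟩

/-- **(P3)**: the mass of the pieces is at most one. -/
theorem Ph_le_one {μ : ℝ} (hμ : 1 ≤ μ) (hb : ∀ n, ((brs n).card : ℝ) ≤ μ ^ n) (L : ℕ) :
    Ph μ⁻¹ L ≤ 1 := by
  unfold Ph
  refine power_trick hμ hb (irs L) L ?_ ?_ ?_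
  · intro u hu; exact (mem_irs.1 hu).2.br
  · intro u hu; exact (mem_irs.1 hu).1
  · intro u hu u' hu' e he hH
    have h1 := (mem_irs.1 hu').2
    rw [he] at h1
    exact h1.eq_nil_of_append (mem_irs.1 hu).2.br (mem_irs.1 hu).2.ne hH

theorem Ph_nonneg {x : ℝ} (hx : 0 ≤ x) (L : ℕ) : 0 ≤ Ph x L :=
  sum_nonneg fun _ _ => pow_nonneg hx _

theorem Ph_mono {x : ℝ} (hx : 0 ≤ x) {L L' : ℕ} (h : L ≤ L') : Ph x L ≤ Ph x L' :=
  sum_le_sum_of_subset_of_nonneg (irs_mono h) fun _ _ _ => pow_nonneg hx _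

/-- renewal for the total mass of the bridges -/
theorem V_le {x : ℝ} (hx : 0 ≤ x) (L : ℕ) : V x L ≤ 1 + Ph x L * V x L := by
  rw [V_eq]
  apply add_le_add (le_refl _)
  rw [← V_eq]
  unfold Zt Ph V
  rw [sum_mul_sum, ← sum_product']
  have hex : ∀ w : Word, ∃ p : Word × Word, Br w → w ≠ [] → w = p.1 ++ p.2 ∧ Ir p.1 ∧ Br p.2 := by
    intro w
    by_cases h : Br w ∧ w ≠ []
    · obtain ⟨a, b, h1, h2, h3⟩ := exists_first h.1 h.2
      exact ⟨(a, b), fun _ _ => ⟨h1, h2, h3⟩⟩
    · exact ⟨([], []), fun h1 h2 => absurd ⟨h1, h2⟩ h⟩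
  choose f hf using hex
  refine sum_le_of_inj f ?_ ?_ ?_ ?_
  · intro w hw
    rw [mem_filter, mem_wle] at hw
    obtain ⟨h1, h2, h3⟩ := hf w hw.2.1 hw.2.2
    have h4 := congrArg List.length h1
    rw [List.length_append] at h4
    rw [mem_product, mem_irs, mem_filter, mem_wle]
    exact ⟨⟨by omega, h2⟩, ⟨by omega, h3⟩⟩
  · intro w hw w' hw' heq
    rw [mem_coe, mem_filter, mem_wle] at hw hw'
    obtain ⟨h1, _, _⟩ := hf w hw.2.1 hw.2.2
    obtain ⟨h1', _, _⟩ := hf w' hw'.2.1 hw'.2.2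
    rw [h1, h1', heq]
  · intro w hw
    rw [mem_filter, mem_wle] at hw
    obtain ⟨h1, _, _⟩ := hf w hw.2.1 hw.2.2
    have h4 := congrArg List.length h1
    rw [List.length_append] at h4
    rw [← pow_add, ← h4]
  · intro p _
    positivity

/-- Hammersley–Welsh for all lengths at once -/
theorem HW_all {x : ℝ} (hx : 0 < x) (L : ℕ) :
    ∑ n ∈ range (L + 1), ((walks n).card : ℝ) * x ^ n ≤ x⁻¹ * Real.exp (2 * Zt x (L + 1)) := by
  have h0 : ∑ n ∈ range (L + 1), ((walks n).card : ℝ) * x ^ n =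
      ∑ w ∈ (wle L).filter saw, x ^ w.length := by
    rw [sum_filter, sum_wle]
    refine sum_congr rfl fun n _ => ?_
    rw [← sum_filter]
    rw [show (wd n).filter saw = walks n from rfl]
    rw [sum_congr rfl (g := fun _ => x ^ n) fun w hw => by rw [(mem_walks.1 hw).1]]
    rw [sum_const, nsmul_eq_mul]
  rw [h0]
  choose A B hAB hA hB using exists_last_max (- MP_794e6e_pr.ev 0)
  have h1 : ∑ w ∈ (wle L).filter saw, x ^ w.length ≤
      x⁻¹ * ((∑ w ∈ hs (L + 1) (L + 1), x ^ w.length) * (∑ w ∈ hs (L + 1) (L + 1), x ^ w.length)) := by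
    rw [sum_mul_sum, ← sum_product', mul_sum]
    refine sum_le_of_inj (fun w : Word => (((0, true) : Step) :: rv (A w), B w)) ?_ ?_ ?_ ?_
    · intro w hw
      rw [mem_filter, mem_wle] at hw
      have h2 := halves (n := w.length) (mem_walks.2 ⟨rfl, hw.2⟩) (hAB w) (hA w) (hB w)
      have hmono : hs (w.length + 1) (w.length + 1) ⊆ hs (L + 1) (L + 1) := by
        intro v hv
        rw [mem_hs] at hv ⊢
        refine ⟨by omega, hv.2.1, hv.2.2.1, fun a b hab => (hv.2.2.2 a b hab).trans ?_⟩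
        push_cast
        have : (w.length : ℤ) ≤ L := by exact_mod_cast hw.1
        linarith
      rw [mem_product]
      exact ⟨hmono h2.1, hmono h2.2⟩
    · intro w _ w' _ heq
      simp only [Prod.mk.injEq, List.cons.injEq, true_and] at heq
      have h3 : A w = A w' := by
        have := congrArg rv heq.1
        rwa [rv_rv, rv_rv] at this
      rw [hAB w, hAB w', h3, heq.2]
    · intro w _
      have h3 := congrArg List.length (hAB w)
      rw [List.length_append] at h3
      simp only [List.length_cons, length_rv]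
      rw [h3, pow_succ, pow_add]
      have : x⁻¹ * (x ^ (A w).length * x * x ^ (B w).length)
          = (x⁻¹ * x) * (x ^ (A w).length * x ^ (B w).length) := by ring
      rw [this, inv_mul_cancel₀ hx.ne', one_mul]
    · intro p _
      positivity
  refine h1.trans ?_
  have h2 := Hs_le hx.le (L + 1) (L + 1)
  have h3 := Hs_nonneg hx.le (L + 1) (L + 1)
  apply mul_le_mul_of_nonneg_left _ (by positivity)
  have h4 : Real.exp (2 * Zt x (L + 1)) = Real.exp (Zt x (L + 1)) * Real.exp (Zt x (L + 1)) := by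
    rw [← Real.exp_add]; congr 1; ring
  rw [h4]
  exact mul_le_mul h2 h2 h3 (Real.exp_pos _).le

/-- the total mass of the bridges is infinite -/
theorem Zt_large {μ : ℝ} (hμ : 1 ≤ μ) (hc : ∀ n, μ ^ n ≤ ((walks n).card : ℝ)) (T : ℝ) :
    ∃ L : ℕ, T ≤ Zt μ⁻¹ L := by
  obtain ⟨L, hL⟩ := exists_nat_gt (μ * Real.exp (2 * T))
  refine ⟨L + 1, ?_⟩
  have hx : (0 : ℝ) < μ⁻¹ := by positivity
  have h1 := HW_all hx L
  rw [inv_inv] at h1
  have h2 : ((L + 1 : ℕ) : ℝ) ≤ ∑ n ∈ range (L + 1), ((walks n).card : ℝ) * μ⁻¹ ^ n := by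
    calc ((L + 1 : ℕ) : ℝ) = ∑ n ∈ range (L + 1), (1 : ℝ) := by simp
      _ ≤ _ := by
          refine sum_le_sum fun n _ => ?_
          have h3 := hc n
          have h4 : (0 : ℝ) < μ ^ n := by positivity
          rw [inv_pow, ← div_eq_mul_inv, le_div_iff₀ h4, one_mul]
          exact h3
  by_contra hcon
  push Not at hcon
  have h5 : Real.exp (2 * Zt μ⁻¹ (L + 1)) ≤ Real.exp (2 * T) := Real.exp_le_exp.2 (by linarith)
  have h6 : μ * Real.exp (2 * Zt μ⁻¹ (L + 1)) ≤ μ * Real.exp (2 * T) :=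
    mul_le_mul_of_nonneg_left h5 (by linarith)
  push_cast at h2
  linarith

/-- **(P4)**, Kesten: the mass of the pieces is one. -/
theorem Ph_large {μ : ℝ} (hμ : 1 ≤ μ) (hc : ∀ n, μ ^ n ≤ ((walks n).card : ℝ)) {ε : ℝ}
    (hε : 0 < ε) : ∃ L : ℕ, 1 - ε ≤ Ph μ⁻¹ L := by
  obtain ⟨L, hL⟩ := Zt_large hμ hc (1 / ε)
  refine ⟨L, ?_⟩
  have hx : (0 : ℝ) ≤ μ⁻¹ := by positivity
  have h1 := V_le hx L
  rw [V_eq] at h1
  have h2 : 0 < Zt μ⁻¹ L := lt_of_lt_of_le (by positivity) hL
  have h3 : 1 ≤ ε * Zt μ⁻¹ L := by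
    rw [div_le_iff₀ hε] at hL
    linarith
  by_contra hcon
  push Not at hcon
  nlinarith

/-- **(P4)** for `K` pieces, and for all larger length bounds -/
theorem Ph_pow_large {μ : ℝ} (hμ : 1 ≤ μ) (hc : ∀ n, μ ^ n ≤ ((walks n).card : ℝ)) (K : ℕ) {θ : ℝ}
    (hθ : θ < 1) : ∃ L₀ : ℕ, ∀ L, L₀ ≤ L → θ ≤ Ph μ⁻¹ L ^ K := by
  have hx : (0 : ℝ) ≤ μ⁻¹ := by positivity
  set ε : ℝ := min (1 / 2) ((1 - θ) / (K + 1)) with hε
  have hε0 : 0 < ε := lt_min (by norm_num) (div_pos (by linarith) (by positivity))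
  have hε1 : ε ≤ 1 / 2 := min_le_left _ _
  have hε2 : ε * (K + 1) ≤ 1 - θ := by
    have := min_le_right (1 / 2) ((1 - θ) / ((K : ℝ) + 1))
    rw [← hε, le_div_iff₀ (by positivity)] at this
    exact this
  obtain ⟨L₀, h0⟩ := Ph_large hμ hc hε0
  refine ⟨L₀, fun L hL => ?_⟩
  have h1 : 1 - ε ≤ Ph μ⁻¹ L := h0.trans (Ph_mono hx hL)
  have h2 : (1 - ε) ^ K ≤ Ph μ⁻¹ L ^ K := pow_le_pow_left₀ (by linarith) h1 K
  have h3 : 1 + (K : ℝ) * (-ε) ≤ (1 + (-ε)) ^ K :=
    one_add_mul_le_pow (by linarith) K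
  have h4 : (1 + -ε) ^ K = (1 - ε) ^ K := by ring
  rw [h4] at h3
  nlinarith

/-! ### sums over bridges as sums over lists of pieces -/

theorem pre_zero (E : ℕ → Word) : pre E 0 = [] := by simp [pre]

theorem pre_succ (E : ℕ → Word) (j : ℕ) : pre E (j + 1) = pre E j ++ E j := by
  simp [pre, List.range_succ]

theorem pre_cns (a : Word) (s : ℕ → Word) (n : ℕ) : pre (cns a s) (n + 1) = a ++ pre s n := by
  induction n with
  | zero => rw [pre_succ, pre_zero, pre_zero]; simp [cns]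
  | succ n ih => rw [pre_succ, ih, pre_succ]; simp [cns]

/-- **(P2)**: a sum over bridges of length at most `L` and height at most `H` is at most the sum
over lists of pieces. -/
theorem sum_br_le {x : ℝ} (hx : 0 ≤ x) (L H : ℕ) (F : Word → ℝ) (hF : ∀ w, 0 ≤ F w) :
    ∑ w ∈ (wle L).filter (fun w => Br w ∧ D w 0 ≤ (H : ℤ)), x ^ w.length * F w ≤
      ∑ n ∈ range (H + 1), EE (irs L) (fun p => x ^ p.length) n (fun s => F (pre s n)) := by
  induction H generalizing F with
  | zero =>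
    have h1 : (wle L).filter (fun w => Br w ∧ D w 0 ≤ ((0 : ℕ) : ℤ)) = {[]} := by
      ext w
      rw [mem_filter, mem_wle, mem_singleton]
      constructor
      · rintro ⟨_, h1, h2⟩
        by_contra hne
        have := h1.pos hne
        push_cast at h2
        omega
      · rintro rfl
        exact ⟨by simp, Br_nil, by simp⟩
    rw [h1]
    simp [EE, pre]
  | succ H ih =>
    rw [sum_range_succ' (fun n => EE (irs L) (fun p => x ^ p.length) n (fun s => F (pre s n)))]
    have h0 : EE (irs L) (fun p => x ^ p.length) 0 (fun s => F (pre s 0)) = F [] := by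
      simp [EE, pre]
    rw [h0]
    have hsplit : (wle L).filter (fun w => Br w ∧ D w 0 ≤ ((H + 1 : ℕ) : ℤ)) =
        insert [] ((wle L).filter (fun w => (Br w ∧ D w 0 ≤ ((H + 1 : ℕ) : ℤ)) ∧ w ≠ [])) := by
      ext w
      simp only [mem_filter, mem_insert, mem_wle]
      constructor
      · rintro ⟨h1, h2⟩
        by_cases h0 : w = []
        · left; exact h0
        · right; exact ⟨h1, h2, h0⟩
      · rintro (h | h)
        · subst h; exact ⟨by simp, Br_nil, by simp; positivity⟩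
        · exact ⟨h.1, h.2.1⟩
    rw [hsplit, sum_insert (by simp)]
    simp only [List.length_nil, pow_zero, one_mul]
    rw [add_comm]
    apply add_le_add _ (le_refl _)
    have hex : ∀ w : Word, ∃ p : Word × Word, Br w → w ≠ [] →
        w = p.1 ++ p.2 ∧ Ir p.1 ∧ Br p.2 := by
      intro w
      by_cases h : Br w ∧ w ≠ []
      · obtain ⟨a, b, h1, h2, h3⟩ := exists_first h.1 h.2
        exact ⟨(a, b), fun _ _ => ⟨h1, h2, h3⟩⟩
      · exact ⟨([], []), fun h1 h2 => absurd ⟨h1, h2⟩ h⟩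
    choose f hf using hex
    have h1 : ∑ w ∈ (wle L).filter (fun w => (Br w ∧ D w 0 ≤ ((H + 1 : ℕ) : ℤ)) ∧ w ≠ []),
        x ^ w.length * F w ≤ ∑ p ∈ irs L ×ˢ ((wle L).filter (fun w => Br w ∧ D w 0 ≤ (H : ℤ))),
          x ^ p.1.length * (x ^ p.2.length * F (p.1 ++ p.2)) := by
      refine sum_le_of_inj f ?_ ?_ ?_ ?_
      · intro w hw
        rw [mem_filter, mem_wle] at hw
        obtain ⟨h1, h2, h3⟩ := hf w hw.2.1.1 hw.2.2
        have h4 := congrArg List.length h1
        rw [List.length_append] at h4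
        rw [mem_product, mem_irs, mem_filter, mem_wle]
        refine ⟨⟨by omega, h2⟩, ⟨by omega, h3, ?_⟩⟩
        have h5 := hw.2.1.2
        rw [h1, D_append, Pi.add_apply] at h5
        have h6 := h2.one_le
        push_cast at h5
        linarith
      · intro w hw w' hw' heq
        rw [mem_coe, mem_filter, mem_wle] at hw hw'
        obtain ⟨h1, _, _⟩ := hf w hw.2.1.1 hw.2.2
        obtain ⟨h1', _, _⟩ := hf w' hw'.2.1.1 hw'.2.2
        rw [h1, h1', heq]
      · intro w hw
        rw [mem_filter, mem_wle] at hw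
        obtain ⟨h1, _, _⟩ := hf w hw.2.1.1 hw.2.2
        have h4 := congrArg List.length h1
        rw [List.length_append] at h4
        rw [← mul_assoc, ← pow_add, ← h4, ← h1]
      · intro p _
        have := hF (p.1 ++ p.2)
        positivity
    refine h1.trans ?_
    rw [sum_product]
    have h2 : ∀ a ∈ irs L, ∑ b ∈ (wle L).filter (fun w => Br w ∧ D w 0 ≤ (H : ℤ)),
        x ^ a.length * (x ^ b.length * F (a ++ b)) ≤
        x ^ a.length * ∑ n ∈ range (H + 1), EE (irs L) (fun p => x ^ p.length) n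
          (fun s => F (a ++ pre s n)) := by
      intro a _
      rw [← mul_sum]
      apply mul_le_mul_of_nonneg_left _ (pow_nonneg hx _)
      exact ih (fun b => F (a ++ b)) (fun b => hF _)
    refine (sum_le_sum h2).trans (le_of_eq ?_)
    simp only [mul_sum]
    rw [sum_comm]
    refine sum_congr rfl fun n _ => ?_
    change _ = ∑ a ∈ irs L, x ^ a.length * EE (irs L) (fun p => x ^ p.length) n
      (fun s => F (pre (cns a s) (n + 1)))
    refine sum_congr rfl fun a _ => ?_
    congr 2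
    funext s
    rw [pre_cns]

/-- the narrow triples of `Trip.lean` are narrow triples of `Defs.lean` -/
theorem Tr_XX_le {x : ℝ} (hx : 0 ≤ x) (L g s : ℕ) : Tr.XX x L g s ≤ XX x L s g := by
  unfold Tr.XX XX w3
  refine sum_le_sum_of_subset_of_nonneg ?_ fun _ _ _ => pow_nonneg hx _
  intro t ht
  unfold Tr.TR at ht
  unfold TN TA
  rw [mem_filter] at ht
  rw [mem_filter, mem_filter]
  obtain ⟨h1, h2, h3, h4, h5, h6, h7, h8, h9, h10, h11⟩ := ht
  exact ⟨⟨h1, h2, h3, h4, h6, h7, h8, h9, h5⟩, h10⟩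

/-! ### strands of `Defs.lean` -/

theorem pc_inj (K : ℕ) : Function.Injective
    (fun (v : Fin K → Word) (i : ℕ) => if h : i < K then v ⟨i, h⟩ else ([] : Word)) := by
  intro v v' h
  funext i
  have h1 := congrFun h i.1
  simp only [i.2, dif_pos] at h1
  exact h1

theorem pc_sum_Sd (x : ℝ) (L K : ℕ) (Φ : (ℕ → Word) → ℝ) :
    ∑ E ∈ Sd L K, wt x K E * Φ E =
      ∑ v ∈ Fintype.piFinset (fun _ : Fin K => irs L), (∏ i, x ^ (v i).length) *
        Φ (fun i => if h : i < K then v ⟨i, h⟩ else []) := by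
  unfold Sd
  rw [sum_image (fun v _ v' _ h => pc_inj K h)]
  refine sum_congr rfl fun v _ => ?_
  congr 1
  unfold wt
  rw [Finset.prod_range]
  refine Finset.prod_congr rfl fun i _ => ?_
  simp only [i.2, dif_pos, Fin.eta]

/-- the total mass of the strands -/
theorem sum_wt (x : ℝ) (L K : ℕ) : ∑ E ∈ Sd L K, wt x K E = Ph x L ^ K := by
  have h := pc_sum_Sd x L K (fun _ => 1)
  simp only [mul_one] at h
  rw [h]
  have h1 := Finset.prod_univ_sum (fun _ : Fin K => irs L) (fun _ w => x ^ w.length)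
  rw [← h1]
  simp [Ph]

/-- strands with a new first piece -/
theorem pc_sum_Sd_succ (x : ℝ) (L K : ℕ) (Φ : (ℕ → Word) → ℝ) :
    ∑ E ∈ Sd L (K + 1), wt x (K + 1) E * Φ E =
      ∑ a ∈ irs L, x ^ a.length * ∑ E ∈ Sd L K, wt x K E * Φ (cns a E) := by
  rw [pc_sum_Sd]
  simp only [pc_sum_Sd x L K]
  have h1 : ∀ a ∈ irs L, x ^ a.length * ∑ v ∈ Fintype.piFinset (fun _ : Fin K => irs L),
      (∏ i, x ^ (v i).length) * Φ (cns a (fun i => if h : i < K then v ⟨i, h⟩ else [])) =
      ∑ v ∈ Fintype.piFinset (fun _ : Fin K => irs L), x ^ a.length *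
      ((∏ i, x ^ (v i).length) * Φ (cns a (fun i => if h : i < K then v ⟨i, h⟩ else []))) :=
    fun a _ => mul_sum _ _ _
  rw [sum_congr rfl h1, ← sum_product']
  refine sum_nbij' (fun f => (f 0, fun i => f i.succ))
    (fun p => (Fin.cons p.1 p.2 : Fin (K + 1) → Word)) ?_ ?_ ?_ ?_ ?_
  · intro f hf
    rw [Fintype.mem_piFinset] at hf
    rw [mem_product, Fintype.mem_piFinset]
    exact ⟨hf 0, fun i => hf i.succ⟩
  · intro p hp
    rw [mem_product, Fintype.mem_piFinset] at hp
    rw [Fintype.mem_piFinset]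
    intro i
    refine Fin.cases ?_ (fun j => ?_) i
    · simpa using hp.1
    · simpa using hp.2 j
  · intro f _
    funext i
    refine Fin.cases ?_ (fun j => ?_) i
    · simp
    · simp
  · intro p _
    simp
  · intro f _
    simp only
    rw [Fin.prod_univ_succ, mul_assoc]
    congr 3
    funext i
    cases i with
    | zero => simp [cns]
    | succ i =>
      simp only [cns]
      by_cases h : i < K
      · rw [dif_pos h, dif_pos (by omega)]
        rfl
      · rw [dif_neg h, dif_neg (by omega)]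

/-- sums over the strands of `Defs.lean` are sums `EE` -/
theorem sum_Sd_eq_EE (x : ℝ) (L K : ℕ) (Φ : (ℕ → Word) → ℝ) :
    ∑ E ∈ Sd L K, wt x K E * Φ E = EE (irs L) (fun p => x ^ p.length) K Φ := by
  induction K generalizing Φ with
  | zero =>
    rw [pc_sum_Sd]
    have : Fintype.piFinset (fun _ : Fin 0 => irs L) = {fun i => i.elim0} := by
      ext f
      simp only [Fintype.mem_piFinset, mem_singleton]
      exact ⟨fun _ => funext fun i => i.elim0, fun _ i => i.elim0⟩
    rw [this]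
    simp [EE]
    rfl
  | succ K ih =>
    rw [pc_sum_Sd_succ]
    change _ = ∑ a ∈ irs L, x ^ a.length * EE (irs L) (fun p => x ^ p.length) K
      (fun s => Φ (cns a s))
    refine sum_congr rfl fun a _ => ?_
    rw [ih]

/-- the mass of the extensions with a property -/
theorem em_eq_EE (x : ℝ) (L k : ℕ) (P : Word → Prop) :
    em x L k P = EE (irs L) (fun p => x ^ p.length) k (fun E => if P (pre E k) then 1 else 0) := by
  rw [← sum_Sd_eq_EE]
  unfold em
  rw [sum_filter]
  refine sum_congr rfl fun E _ => ?_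
  split_ifs <;> simp

end Pool.Agent.R19
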