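import Pool.Agent.R19.Asm
import Pool.Agent.R19.Pc
import Pool.Agent.R19.Glue
import Pool.Agent.R19.Ext
import Pool.Agent.R19.Geo


/-!
# STAR: self-avoiding walks in a slab (room R19, glue by helper21)
-/

set_option autoImplicit false

namespace Pool.Agent.R19

open Finset Filter
open scoped Classical
open Pool.Agent.MP_794e6e_pr

/-- **the bound for the narrow triples** -/
theorem trip_bound {μ : ℝ} (hμ : 1 ≤ μ) (hb : ∀ n, ((brs n).card : ℝ) ≤ μ ^ n)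
    (hc : ∀ n, μ ^ n ≤ (walks n).card) : Tr.TripBound μ := by
  have hμ0 : 0 < μ := by linarith
  have hx : 0 < μ⁻¹ := inv_pos.2 hμ0
  have hx1 : μ⁻¹ ≤ 1 := inv_le_one_of_one_le₀ hμ
  have hBs : ∀ N s, Bs μ⁻¹ N s ≤ 1 := fun N s => Bs_le_one hμ hb N s
  have hPh : ∀ N, Ph μ⁻¹ N ≤ 1 := fun N => Ph_le_one hμ hb N
  intro A ε hε
  obtain ⟨C, hC, hnum⟩ := num_A A hε
  refine ⟨2 * C + 400, by linarith, fun S L g hS hL hg hgS => ?_⟩
  have hgr : (1 : ℝ) ≤ g := by exact_mod_cast hg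
  have hSr : (1 : ℝ) ≤ S := by exact_mod_cast hS
  have hT1 : (1 : ℝ) ≤ (S : ℝ) ^ ε := Real.one_le_rpow hSr hε.le
  have hg3 : (1 : ℝ) ≤ (g : ℝ) ^ 3 := one_le_pow₀ hgr
  have h0 : ∑ i ∈ range S, Tr.XX μ⁻¹ L g (S + i + 1) ≤ ∑ i ∈ range S, XX μ⁻¹ L (S + i + 1) g :=
    Finset.sum_le_sum (fun i _ => Tr_XX_le hx.le L g (S + i + 1))
  refine le_trans h0 ?_
  rcases Nat.lt_or_ge S (2 * g + 1) with h2 | h2
  · -- crude
    have h3 : ∑ i ∈ range S, XX μ⁻¹ L (S + i + 1) g ≤ S * (g : ℝ) ^ 2 := by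
      refine le_trans (Finset.sum_le_sum (fun i _ => gl_crude hx.le (hBs L) (S + i + 1) g)) ?_
      rw [Finset.sum_const, card_range, nsmul_eq_mul]
    have h4 : (S : ℝ) ≤ 2 * g := by
      have : S ≤ 2 * g := by omega
      exact_mod_cast this
    calc ∑ i ∈ range S, XX μ⁻¹ L (S + i + 1) g ≤ S * (g : ℝ) ^ 2 := h3
      _ ≤ 2 * g * (g : ℝ) ^ 2 := mul_le_mul_of_nonneg_right h4 (by positivity)
      _ = 2 * 1 * (g : ℝ) ^ 3 := by ring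
      _ ≤ (2 * C + 400) * (S : ℝ) ^ ε * (g : ℝ) ^ 3 := by
          apply mul_le_mul_of_nonneg_right _ (by positivity)
          apply mul_le_mul (by linarith) hT1 zero_le_one (by linarith)
  · obtain ⟨L₀, hL₀⟩ := Ph_pow_large hμ hc (8 * S + 8) (θ := 3 / 4) (by norm_num)
    set M := max L L₀ with hM
    have hLM : L ≤ M := le_max_left _ _
    have hP0 : 3 / 4 ≤ Ph μ⁻¹ M ^ (8 * S + 8) := hL₀ M (le_max_right _ _)
    have hPn : 0 ≤ Ph μ⁻¹ M := Ph_nonneg hx.le M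
    have hPk : ∀ k : ℕ, k ≤ 8 * S + 8 → 3 / 4 ≤ Ph μ⁻¹ M ^ k := fun k hk =>
      le_trans hP0 (pow_le_pow_of_le_one hPn (hPh M) hk)
    have hP4 : 1 / 2 ≤ Ph μ⁻¹ M ^ (4 * S) := le_trans (by norm_num) (hPk (4 * S) (by omega))
    obtain ⟨m, H, hm, hmH, hnum2⟩ := hnum S L g (2 * S) ((2 * L + 1) ^ 3) hS hL hg (by omega) le_rfl
    have hE := ext_bound hx.le hBs hPh (L := L) (M := M) (S := S) (g := g) (k := g + 1) (by omega) (by omega)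
    have hP2 : 1 / 2 ≤ Ph μ⁻¹ M ^ (2 * S) := le_trans (by norm_num) (hPk (2 * S) (by omega))
    have hB := sp_caseB hx.le hLM S g (k' := g + 1) (by omega) (hPh M) hP2
    have hA := sp_caseA hx.le hLM S g (k' := g + 1) (by omega) (hPh M) hP4 hm hmH
    have h4S : 2 * (2 * S) = 4 * S := by ring
    rw [h4S] at hnum2
    push_cast at hnum2
    have htri : ∑ i ∈ range S, XX μ⁻¹ L (S + i + 1) g ≤
        ∑ i ∈ range S, ∑ t ∈ (TN L (S + i + 1) g).filter (fun t => 1 / 4 ≤ em μ⁻¹ M (g + 1)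
          (fun e => saw (t.1 ++ (fl t.2.1 ++ (t.2.2 ++ e))))), w3 μ⁻¹ t +
        2 * ∑ i ∈ range S, ∑ t ∈ TN L (S + i + 1) g,
          w3 μ⁻¹ t * em μ⁻¹ M (g + 1) (HBw t.2.1 t.2.2) +
        2 * ∑ i ∈ range S, ∑ t ∈ TN L (S + i + 1) g,
          w3 μ⁻¹ t * em μ⁻¹ M (g + 1) (HAw t.1 t.2.1 t.2.2) := by
      rw [Finset.mul_sum, Finset.mul_sum, ← Finset.sum_add_distrib, ← Finset.sum_add_distrib]
      refine Finset.sum_le_sum ?_
      intro i _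
      refine gl_tri hx.le (by rw [sum_wt]; exact hPk (g + 1) (by omega)) (TN L (S + i + 1) g)
        (fun t e => saw (t.1 ++ (fl t.2.1 ++ (t.2.2 ++ e)))) (fun t e => HBw t.2.1 t.2.2 e)
        (fun t e => HAw t.1 t.2.1 t.2.2 e) ?_
      intro t ht E hE hn
      unfold TN TA at ht
      rw [mem_filter, mem_filter] at ht
      have hbr := ge_br_pre hE le_rfl
      exact ge_split ht.1.2.2.2.1.lo hbr ht.1.2.2.2.2.2.2.2.2 hn
    refine le_trans htri ?_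
    have e1 : 4 * (g : ℝ) ^ 2 ≤ 16 * (g : ℝ) ^ 3 := by
      have h4 : (g : ℝ) ^ 2 ≤ (g : ℝ) ^ 3 := pow_le_pow_right₀ hgr (by norm_num)
      have h5 : 0 ≤ (g : ℝ) ^ 2 := by positivity
      linarith
    have e2 : 8 * (((g : ℝ) + 1) * (2 * g + 1) ^ 2) ≤ 144 * (g : ℝ) ^ 3 := by
      have h3 : (2 * (g : ℝ) + 1) ^ 2 ≤ (3 * (g : ℝ)) ^ 2 :=
        pow_le_pow_left₀ (by positivity) (by linarith) 2
      calc 8 * (((g : ℝ) + 1) * (2 * g + 1) ^ 2) ≤ 8 * ((2 * (g : ℝ)) * (3 * (g : ℝ)) ^ 2) :=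
            mul_le_mul_of_nonneg_left (mul_le_mul (by linarith) h3 (by positivity) (by positivity)) (by norm_num)
        _ = 144 * (g : ℝ) ^ 3 := by ring
    have e3 : (g : ℝ) ^ 3 ≤ (S : ℝ) ^ ε * (g : ℝ) ^ 3 :=
      le_mul_of_one_le_left (by positivity) hT1
    have e4 : (2 * C + 400) * (S : ℝ) ^ ε * (g : ℝ) ^ 3 =
        2 * (C * (S : ℝ) ^ ε * (g : ℝ) ^ 3) + 400 * ((S : ℝ) ^ ε * (g : ℝ) ^ 3) := by ring
    have e5 := le_trans hA hnum2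
    have e6 := le_trans hE e1
    have e7 := le_trans hB e2
    rw [e4]
    linarith

/-- **STAR** -/
theorem star {μ : ℝ} (hμ : 1 ≤ μ) (hb : ∀ n, ((brs n).card : ℝ) ≤ μ ^ n)
    (hc : ∀ n, μ ^ n ≤ (walks n).card) (A : ℕ) {a : ℝ} (ha : 3 / 4 < a) :
    ∃ C : ℝ, 0 < C ∧ ∀ R L : ℕ, 1 ≤ R → L ≤ R ^ A →
      ∑ w ∈ (wle L).filter (fun w => saw w ∧ ∀ p ∈ pts w, ∀ q ∈ pts w, p 0 - q 0 ≤ (R : ℤ)),
        μ⁻¹ ^ w.length ≤ Real.exp (C * (R : ℝ) ^ a) :=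
  Tr.star_of_trip hμ hb (trip_bound hμ hb hc) A ha

end Pool.Agent.R19
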